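import Pool.Agent.Lib.MP_ed661f_ag.Z.Block

/-! Large `n`: the final inequality. -/

set_option autoImplicit false

namespace Pool.Agent.Lib.MP_ed661f_ag.Z

theorem log_factorial_le (K : ℕ) :
    Real.log (K.factorial : ℝ) ≤ (K : ℝ) ^ 2 / 32 + 1804 / 1000 * K := by
  have hlog2b := Real.log_two_lt_d9
  have key : Real.log (K.factorial : ℝ) ≤
      (K : ℝ) ^ 2 / 32 + (1 / 32 - 1 + 4 * Real.log 2) * K := by
    induction K with
    | zero => simp
    | succ k ih =>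
      have hk : (0 : ℝ) ≤ k := Nat.cast_nonneg k
      rw [Nat.factorial_succ]
      push_cast
      rw [Real.log_mul (by positivity) (by positivity)]
      have h1 : Real.log ((k : ℝ) + 1) ≤ ((k : ℝ) + 1) / 16 - 1 + 4 * Real.log 2 := by
        have h2 := Real.log_le_sub_one_of_pos (x := ((k : ℝ) + 1) / 16) (by positivity)
        rw [Real.log_div (by positivity) (by norm_num)] at h2
        have h3 : Real.log 16 = 4 * Real.log 2 := by
          rw [show (16 : ℝ) = 2 ^ 4 by norm_num, Real.log_pow]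
          norm_num
        linarith
      nlinarith
  have hK : (0 : ℝ) ≤ K := Nat.cast_nonneg K
  nlinarith

theorem final_poly {κ L l : ℝ} (hl1 : 0.6931471803 < l) (hl2 : l < 0.6931471808)
    (hL : 33 ≤ L) (h1 : 8 * κ * l ≤ 3 * L) (h2 : 3 * L ≤ (8 * κ + 10) * l) (hκ : 1 ≤ κ) :
    κ ^ 2 / 32 + 1804 / 1000 * κ + (κ ^ 2 - κ) / 2 * l - (κ + 1) * (L - 1 / 50) ≤
      -(2 / 5) * L ^ 2 := by
  have a1 : κ ≤ 54102 / 100000 * L := by nlinarith
  have a2 : 541 / 1000 * L - 125 / 100 ≤ κ := by nlinarith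
  have a3 : 0 ≤ κ ^ 2 - κ := by nlinarith
  have a4 : (κ ^ 2 - κ) / 2 * l ≤ (κ ^ 2 - κ) / 2 * 0.6931471808 :=
    mul_le_mul_of_nonneg_left hl2.le (by linarith)
  have a5 := mul_nonneg (sub_nonneg.2 a2) (sub_nonneg.2 a1)
  have a6 := mul_nonneg (sub_nonneg.2 a2) (sub_nonneg.2 hL)
  have a7 : 0 ≤ (L - 33) ^ 2 := sq_nonneg _
  nlinarith

theorem final_le {n z0 K : ℕ} (hn : 2 ^ 48 ≤ n) (hR : (n : ℝ) ≤ 51 / 50 * z0)
    (hK : K = 3 * Nat.log 2 n / 8) : (ck K : ℝ) / (z0 : ℝ) ^ (K + 1) ≤ tgt n := by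
  have hn0 : n ≠ 0 := by
    intro h
    rw [h] at hn
    norm_num at hn
  have hnR : (2 : ℝ) ^ 48 ≤ n := by exact_mod_cast hn
  have hnpos : (0 : ℝ) < n := lt_of_lt_of_le (by positivity) hnR
  have hz0 : (0 : ℝ) < z0 := by linarith
  have hlog2a := Real.log_two_gt_d9
  have hlog2b := Real.log_two_lt_d9
  obtain ⟨m, hm⟩ : ∃ m, m = Nat.log 2 n := ⟨_, rfl⟩
  rw [← hm] at hK
  have hm48 : 48 ≤ m := by
    rw [hm]
    exact Nat.le_log_of_pow_le (by norm_num) hn
  have m1 : (2 : ℝ) ^ m ≤ n := by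
    have : 2 ^ m ≤ n := by
      rw [hm]
      exact Nat.pow_log_le_self 2 hn0
    exact_mod_cast this
  have m2 : (n : ℝ) < 2 ^ (m + 1) := by
    have : n < 2 ^ (m + 1) := by
      rw [hm]
      exact Nat.lt_pow_succ_log_self (by norm_num) n
    exact_mod_cast this
  obtain ⟨L, hL⟩ : ∃ L, L = Real.log n := ⟨_, rfl⟩
  have hmR : (48 : ℝ) ≤ m := by exact_mod_cast hm48
  have L1 : m * Real.log 2 ≤ L := by
    have h1 := Real.log_le_log (by positivity) m1
    rw [Real.log_pow] at h1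
    rw [hL]
    exact h1
  have L2 : L ≤ (m + 1) * Real.log 2 := by
    have h1 := Real.log_le_log hnpos m2.le
    rw [Real.log_pow] at h1
    push_cast at h1
    rw [hL]
    exact h1
  have L3 : 33 ≤ L := by nlinarith
  have k1 : 8 * K ≤ 3 * m := by omega
  have k2 : 3 * m ≤ 8 * K + 7 := by omega
  have k3 : 1 ≤ K := by omega
  have k1R : 8 * (K : ℝ) ≤ 3 * m := by exact_mod_cast k1
  have k2R : 3 * (m : ℝ) ≤ 8 * K + 7 := by exact_mod_cast k2
  have k3R : (1 : ℝ) ≤ K := by exact_mod_cast k3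
  have hz : L - 1 / 50 ≤ Real.log z0 := by
    have h1 := Real.log_le_log hnpos hR
    rw [Real.log_mul (by norm_num) hz0.ne'] at h1
    have h2 := Real.log_le_sub_one_of_pos (x := (51 / 50 : ℝ)) (by norm_num)
    rw [hL]
    linarith
  have hpoly := final_poly (κ := K) (L := L) hlog2a hlog2b L3 (by nlinarith) (by nlinarith) k3R
  have hck : (0 : ℝ) < ck K := by exact_mod_cast ck_pos K
  unfold tgt
  rw [← hL, ← Real.log_le_iff_le_exp (by positivity), Real.log_div hck.ne' (by positivity),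
    Real.log_pow]
  refine le_trans ?_ hpoly
  have h1 : Real.log (ck K : ℝ) = Real.log (K.factorial : ℝ) +
      ((K * (K - 1) / 2 : ℕ) : ℝ) * Real.log 2 := by
    unfold ck
    push_cast
    rw [Real.log_mul (by positivity) (by positivity), Real.log_pow]
  have h2 : ((K * (K - 1) / 2 : ℕ) : ℝ) ≤ ((K : ℝ) ^ 2 - K) / 2 := by
    have h3 : 2 * (K * (K - 1) / 2) ≤ K * (K - 1) := Nat.mul_div_le _ _
    have h4 : (2 : ℝ) * ((K * (K - 1) / 2 : ℕ) : ℝ) ≤ ((K * (K - 1) : ℕ) : ℝ) := by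
      exact_mod_cast h3
    rw [Nat.cast_mul, Nat.cast_sub k3] at h4
    push_cast at h4 ⊢
    nlinarith
  have h3 := log_factorial_le K
  have h4 : ((K * (K - 1) / 2 : ℕ) : ℝ) * Real.log 2 ≤ ((K : ℝ) ^ 2 - K) / 2 * Real.log 2 :=
    mul_le_mul_of_nonneg_right h2 (by linarith)
  have h5 : ((K : ℝ) + 1) * (L - 1 / 50) ≤ ((K + 1 : ℕ) : ℝ) * Real.log z0 := by
    push_cast
    exact mul_le_mul_of_nonneg_left hz (by positivity)
  rw [h1]
  linarith

end Pool.Agent.Lib.MP_ed661f_ag.Z
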