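import Pool.Agent.Lib.MP_ed661f_ag.Z.Asym3
import Pool.Agent.Lib.MP_ed661f_ag.Z.Asym4

/-! The chains for all `n ≥ 2 ^ 48`. -/

set_option autoImplicit false

namespace Pool.Agent.Lib.MP_ed661f_ag.Z

theorem total_le {n K : ℕ} (hn : 2 ^ 48 ≤ n) (hK : 18 ≤ K)
    (hg : 40 * (K : ℝ) * (102 / 25) ^ K ≤ n) :
    51 * (slen n K + 2 * (Nat.sqrt n + 1)) ≤ n := by
  have hnR : (281474976710656 : ℝ) ≤ n := by
    have : (2 : ℝ) ^ 48 ≤ n := by exact_mod_cast hn
    exact le_trans (by norm_num) this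
  have h1 := slen_le hn K (by omega)
  have h2 : (0 : ℝ) ≤ n * (21 / 100 * (51 / 100) ^ K) := by positivity
  have h3 : 3 * (102 / 25 : ℝ) ^ K ≤ n * (1 / 240) := by
    have hKR : (18 : ℝ) ≤ K := by exact_mod_cast hK
    have h4 : 40 * 18 * (102 / 25 : ℝ) ^ K ≤ 40 * (K : ℝ) * (102 / 25) ^ K :=
      mul_le_mul_of_nonneg_right (by linarith) (by positivity)
    linarith
  have h4 : ((Nat.sqrt n : ℕ) : ℝ) ≤ n * (1 / 10000) := by
    have h5 : 10000 * Nat.sqrt n ≤ n := by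
      have h6 : Nat.sqrt n * Nat.sqrt n ≤ n := Nat.sqrt_le n
      have h7 : 10000 ≤ Nat.sqrt n := by
        rw [Nat.le_sqrt]
        exact le_trans (by norm_num) hn
      calc 10000 * Nat.sqrt n ≤ Nat.sqrt n * Nat.sqrt n := Nat.mul_le_mul_right _ h7
        _ ≤ n := h6
    have h8 : (10000 : ℝ) * ((Nat.sqrt n : ℕ) : ℝ) ≤ n := by exact_mod_cast h5
    linarith
  have h5 : (51 : ℝ) * ((slen n K : ℝ) + 2 * ((Nat.sqrt n : ℝ) + 1)) ≤ n := by
    have h6 : (n : ℝ) * (45 / 10000 - 21 / 100 * (51 / 100) ^ K) =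
        n * (45 / 10000) - n * (21 / 100 * (51 / 100) ^ K) := by ring
    rw [h6] at h1
    linarith
  exact_mod_cast h5

/-- **the chains for large `n`** -/
theorem asym (n δ : ℕ) (hn : 2 ^ 48 ≤ n) (hd : 1 ≤ δ) (h3 : 3 * δ ≤ n) :
    ∃ u, Cn δ n u ∧ u ≤ tgt n := by
  have hn0 : n ≠ 0 := by
    intro h
    rw [h] at hn
    norm_num at hn
  have hnbig : 281474976710656 ≤ n := le_trans (by norm_num) hn
  obtain ⟨K, hK⟩ : ∃ K, K = 3 * Nat.log 2 n / 8 := ⟨_, rfl⟩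
  have hm48 : 48 ≤ Nat.log 2 n := Nat.le_log_of_pow_le (by norm_num) hn
  have hK18 : 18 ≤ K := by omega
  have hg : 40 * (K : ℝ) * (102 / 25) ^ K ≤ n := by
    refine (grow K hK18 (Nat.log 2 n) (by omega)).trans ?_
    have : 2 ^ Nat.log 2 n ≤ n := Nat.pow_log_le_self 2 hn0
    exact_mod_cast this
  have htot := total_le hn hK18 hg
  obtain ⟨M, hM⟩ : ∃ M, M = 2 * (Nat.sqrt n + 1) := ⟨_, rfl⟩
  rw [← hM] at htot
  obtain ⟨z0, hz0⟩ : ∃ z0, z0 = n - (slen n K + M) := ⟨_, rfl⟩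
  have hz0n : z0 + M + slen n K = n := by omega
  have hz1 : 50 * n ≤ 51 * z0 := by omega
  have hR : (n : ℝ) ≤ 51 / 50 * z0 := by
    have : (50 : ℝ) * n ≤ 51 * z0 := by exact_mod_cast hz1
    linarith
  have hz0big : 100 ≤ z0 := by omega
  have hz0R : (100 : ℝ) ≤ z0 := by exact_mod_cast hz0big
  -- the start
  obtain ⟨r, hr⟩ : ∃ r : ℝ, r = √(z0 : ℝ) := ⟨_, rfl⟩
  have hr2 : r ^ 2 = z0 := by rw [hr, Real.sq_sqrt (by linarith)]
  have hr0 : 0 ≤ r := by rw [hr]; exact Real.sqrt_nonneg _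
  have hr10 : 10 ≤ r := by
    rw [hr]
    apply Real.le_sqrt_of_sq_le
    norm_num
    linarith
  have hdR : (1 : ℝ) ≤ δ := by exact_mod_cast hd
  obtain ⟨u0, hu0, hu0'⟩ := start (δ := δ) (z := z0) hd (by omega) (r := r) (by linarith) (by
    rw [hr2]
    nlinarith)
  -- level 0
  have hM1 : 1 ≤ M := by omega
  obtain ⟨u1, hu1, hu1'⟩ := stage (k := 0) (p := 1) (M := M) (B := (z0 : ℝ) + (M - 1)) le_rfl hM1
    (by omega : 1 ≤ z0) (by unfold side; omega) (by simp) hu0 hu0' (Or.inl rfl)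
  have hMr : 2 * r ≤ M := by
    have h1 : r ≤ √(n : ℝ) := by
      rw [hr]
      apply Real.sqrt_le_sqrt
      have : z0 ≤ n := by omega
      exact_mod_cast this
    have h2 : √(n : ℝ) ≤ (Nat.sqrt n : ℝ) + 1 := by
      rw [Real.sqrt_le_left (by positivity)]
      have h3 : n < (Nat.sqrt n + 1) ^ 2 := Nat.lt_succ_sqrt' n
      exact_mod_cast h3.le
    rw [hM]
    push_cast
    linarith
  have hu2 : u1 ≤ 1 / z0 := by
    refine hu1'.trans (max_le ?_ ?_)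
    · have h1 : loR 0 1 ((z0 : ℝ) + (M - 1)) = 1 / ((z0 : ℝ) + M) := by
        unfold loR ck
        norm_num
        ring
      rw [h1]
      have hMR : (0 : ℝ) < M := by exact_mod_cast hM1
      have h2 : 1 / (r - 1 / 2) ≤ M * (1 / ((z0 : ℝ) + M)) := by
        rw [mul_one_div, div_le_div_iff₀ (by linarith) (by positivity), ← hr2]
        nlinarith
      have h3 : (0 : ℝ) ≤ 1 / z0 := by positivity
      linarith
    · unfold hiR ck
      norm_num
  have e1 : z0 + M * (2 ^ 0 * 1) = z0 + M := by ring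
  rw [e1] at hu1
  -- the levels
  have hcond : ∀ k, 1 ≤ k → k ≤ K →
      (k : ℝ) * 2 ^ (k - 1) * (PP k : ℝ) ^ (k + 1) * (51 / 50) ^ k ≤ z0 :=
    fun k hk hkK => cond_le hn hR hK18 hg k hk hkK
  obtain ⟨u, hu, hu'⟩ := levels_chain (δ := δ) (n := n) (z0 := z0) (K := K) (by omega) (by omega) hR
    hcond (fun k hk hkK => by
      have h1 := (side_le_cond hk).trans (hcond k hk hkK)
      exact_mod_cast h1) K le_rfl (z0 + M) u1 (by omega) (by omega) hu1 hu2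
  rw [hz0n] at hu
  exact ⟨u, hu, hu'.trans (final_le hn hR hK)⟩

end Pool.Agent.Lib.MP_ed661f_ag.Z
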