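import Pool.Agent.Lib.MP_ed661f_ag.Z.Block

/-! Large `n`: one level. -/

set_option autoImplicit false

namespace Pool.Agent.Lib.MP_ed661f_ag.Z

/-- a stage of positive level, between `z0` and `n` -/
theorem stage1 {δ n z0 z k p M : ℕ} {u U : ℝ} (hk : 1 ≤ k) (hp : 1 ≤ p) (hM : 1 ≤ M)
    (h0 : 1 ≤ z0) (hz : z0 ≤ z) (hn : z + M * (2 ^ k * p) ≤ n) (hs : side k p ≤ z0)
    (hu : Cn δ z u) (huU : u ≤ U) (hU : U ≤ ck (k - 1) * p ^ k / (n : ℝ) ^ k)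
    (hh : ck k * p ^ (k + 1) / (z0 : ℝ) ^ (k + 1) ≤ ck (k - 1) * p ^ k / (n : ℝ) ^ k)
    (hMU : U ≤ M * (ck k * p ^ (k + 1) / (n : ℝ) ^ (k + 1))) :
    ∃ u', Cn δ (z + M * (2 ^ k * p)) u' ∧ u' ≤ ck k * p ^ (k + 1) / (z0 : ℝ) ^ (k + 1) := by
  have hpR : (1 : ℝ) ≤ p := by exact_mod_cast hp
  have hMR : (1 : ℝ) ≤ M := by exact_mod_cast hM
  have h0R : (1 : ℝ) ≤ z0 := by exact_mod_cast h0
  have hzR : (z0 : ℝ) ≤ z := by exact_mod_cast hz
  have hnR : (z : ℝ) + M * (2 ^ k * p) ≤ n := by exact_mod_cast hn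
  obtain ⟨j, rfl⟩ : ∃ j, k = j + 1 := ⟨k - 1, by omega⟩
  rw [Nat.add_sub_cancel] at hU hh
  obtain ⟨B, hB⟩ : ∃ B : ℝ, B = n - 2 ^ (j + 1) * p := ⟨_, rfl⟩
  have hBz : (z : ℝ) + (M - 1) * (2 ^ (j + 1) * p) ≤ B := by
    rw [hB]
    linarith
  have hB0 : 1 ≤ B := by
    have : 0 ≤ ((M : ℝ) - 1) * (2 ^ (j + 1) * p) := mul_nonneg (by linarith) (by positivity)
    linarith
  have hnpos : (0 : ℝ) < n := by
    have : (0 : ℝ) < 2 ^ (j + 1) * p := by positivity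
    linarith
  have hlo : ck j * (p : ℝ) ^ (j + 1) / (n : ℝ) ^ (j + 1) ≤ loR j p B := by
    unfold loR
    apply div_le_div_of_nonneg_left (by positivity) (by positivity)
    apply pow_le_pow_left₀ (by positivity)
    rw [hB, pow_succ]
    have : (0 : ℝ) < 2 ^ j * p := by positivity
    nlinarith
  have hhi : hiR (j + 1) p z ≤ ck (j + 1) * (p : ℝ) ^ (j + 1 + 1) / (z0 : ℝ) ^ (j + 1 + 1) := by
    unfold hiR
    apply div_le_div_of_nonneg_left (by positivity) (by positivity)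
    exact pow_le_pow_left₀ (by positivity) hzR _
  have hloM : loR (j + 1) p B = ck (j + 1) * (p : ℝ) ^ (j + 1 + 1) / (n : ℝ) ^ (j + 1 + 1) := by
    unfold loR
    rw [hB, sub_add_cancel]
  obtain ⟨u', h1, h2⟩ := stage (k := j + 1) (B := B) hp hM (by omega) (by omega) hBz hu huU
    (Or.inr ⟨by
      rw [Nat.add_sub_cancel]
      exact hU.trans hlo, by
      rw [Nat.add_sub_cancel]
      exact hhi.trans (hh.trans hlo)⟩)
  refine ⟨u', h1, h2.trans (max_le ?_ hhi)⟩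
  rw [hloM]
  have : (0 : ℝ) ≤ ck (j + 1) * (p : ℝ) ^ (j + 1 + 1) / (z0 : ℝ) ^ (j + 1 + 1) := by positivity
  linarith

/-- one level: first blocks with the step `P`, then blocks with the step `1` -/
theorem level {δ n z0 z k P MA MB : ℕ} {R u : ℝ} (hk : 1 ≤ k) (hP : 1 ≤ P) (hMA : 1 ≤ MA)
    (hMB : 1 ≤ MB) (h0 : 1 ≤ z0) (hR1 : 1 ≤ R) (hR : (n : ℝ) ≤ R * z0) (hRP : R ≤ P)
    (hb : (k : ℝ) * 2 ^ (k - 1) * P ^ (k + 1) * R ^ k ≤ z0)
    (hc : R ^ k * n ≤ MA * (k * 2 ^ (k - 1) * P ^ (k + 1)))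
    (hd : (P * R) ^ (k + 1) ≤ MB) (hs : side k P ≤ z0) (hz : z0 ≤ z)
    (hn : z + (MA * (2 ^ k * P) + MB * 2 ^ k) ≤ n) (hu : Cn δ z u)
    (huU : u ≤ ck (k - 1) / (z0 : ℝ) ^ k) :
    ∃ u', Cn δ (z + (MA * (2 ^ k * P) + MB * 2 ^ k)) u' ∧
      u' ≤ ck k / (z0 : ℝ) ^ (k + 1) := by
  have hPR : (1 : ℝ) ≤ P := by exact_mod_cast hP
  have h0R : (1 : ℝ) ≤ z0 := by exact_mod_cast h0
  have hR0 : 0 < R := by linarith
  have hkR : (1 : ℝ) ≤ k := by exact_mod_cast hk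
  have hz0n : z0 ≤ n := by omega
  have hnR : (z0 : ℝ) ≤ n := by exact_mod_cast hz0n
  have hnpos : (0 : ℝ) < n := by linarith
  obtain ⟨j, rfl⟩ : ∃ j, k = j + 1 := ⟨k - 1, by omega⟩
  rw [Nat.add_sub_cancel] at hb hc huU
  have hck : (ck (j + 1) : ℝ) = ck j * (((j + 1 : ℕ) : ℝ) * 2 ^ j) := by
    rw [ck_succ]
    push_cast
    ring
  have hc0 : (0 : ℝ) < ck j := by exact_mod_cast ck_pos j
  have hpowR : (n : ℝ) ^ (j + 1) ≤ R ^ (j + 1) * (z0 : ℝ) ^ (j + 1) := by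
    rw [← mul_pow]
    exact pow_le_pow_left₀ hnpos.le hR _
  have hpowR2 : (n : ℝ) ^ (j + 1 + 1) ≤ R ^ (j + 1 + 1) * (z0 : ℝ) ^ (j + 1 + 1) := by
    rw [← mul_pow]
    exact pow_le_pow_left₀ hnpos.le hR _
  -- the step `P`
  obtain ⟨u1, h1, h1'⟩ := stage1 (n := n) (k := j + 1) (p := P) (M := MA) (U := ck j / (z0 : ℝ) ^ (j + 1))
    hk hP hMA h0 hz (by omega) hs hu huU (by
      rw [Nat.add_sub_cancel, div_le_div_iff₀ (by positivity) (by positivity), mul_assoc]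
      refine mul_le_mul_of_nonneg_left (hpowR.trans ?_) hc0.le
      exact mul_le_mul_of_nonneg_right (pow_le_pow_left₀ hR0.le hRP _) (by positivity)) (by
      rw [Nat.add_sub_cancel, div_le_div_iff₀ (by positivity) (by positivity), hck]
      calc (ck j : ℝ) * (((j + 1 : ℕ) : ℝ) * 2 ^ j) * P ^ (j + 1 + 1) * n ^ (j + 1) ≤
            (ck j : ℝ) * (((j + 1 : ℕ) : ℝ) * 2 ^ j) * P ^ (j + 1 + 1) *
              (R ^ (j + 1) * (z0 : ℝ) ^ (j + 1)) :=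
            mul_le_mul_of_nonneg_left hpowR (by positivity)
        _ = (ck j : ℝ) * (z0 : ℝ) ^ (j + 1) *
              (((j + 1 : ℕ) : ℝ) * 2 ^ j * P ^ (j + 1 + 1) * R ^ (j + 1)) := by ring
        _ ≤ (ck j : ℝ) * (z0 : ℝ) ^ (j + 1) * (1 * z0) := by
            apply mul_le_mul_of_nonneg_left _ (by positivity)
            linarith
        _ ≤ (ck j : ℝ) * (z0 : ℝ) ^ (j + 1) * ((P : ℝ) ^ (j + 1) * z0) := by
            apply mul_le_mul_of_nonneg_left _ (by positivity)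
            exact mul_le_mul_of_nonneg_right (one_le_pow₀ hPR) (by linarith)
        _ = _ := by ring) (by
      rw [mul_div_assoc', div_le_div_iff₀ (by positivity) (by positivity), hck]
      calc (ck j : ℝ) * n ^ (j + 1 + 1) = (ck j : ℝ) * n * n ^ (j + 1) := by ring
        _ ≤ (ck j : ℝ) * n * (R ^ (j + 1) * (z0 : ℝ) ^ (j + 1)) :=
            mul_le_mul_of_nonneg_left hpowR (by positivity)
        _ = (ck j : ℝ) * (z0 : ℝ) ^ (j + 1) * (R ^ (j + 1) * n) := by ring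
        _ ≤ (ck j : ℝ) * (z0 : ℝ) ^ (j + 1) *
              (MA * (((j + 1 : ℕ) : ℝ) * 2 ^ j * P ^ (j + 1 + 1))) :=
            mul_le_mul_of_nonneg_left hc (by positivity)
        _ = _ := by ring)
  -- the step `1`
  have hs1 : side (j + 1) 1 ≤ z0 := by
    refine le_trans ?_ hs
    unfold side
    exact Nat.mul_le_mul_left _ hP
  have hkey : ((j + 1 : ℕ) : ℝ) * 2 ^ j * P ^ (j + 1 + 1) * (n : ℝ) ^ (j + 1) ≤
      (z0 : ℝ) ^ (j + 1 + 1) := by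
    calc ((j + 1 : ℕ) : ℝ) * 2 ^ j * P ^ (j + 1 + 1) * (n : ℝ) ^ (j + 1) ≤
          ((j + 1 : ℕ) : ℝ) * 2 ^ j * P ^ (j + 1 + 1) * (R ^ (j + 1) * (z0 : ℝ) ^ (j + 1)) :=
          mul_le_mul_of_nonneg_left hpowR (by positivity)
      _ = (((j + 1 : ℕ) : ℝ) * 2 ^ j * P ^ (j + 1 + 1) * R ^ (j + 1)) * (z0 : ℝ) ^ (j + 1) := by
          ring
      _ ≤ z0 * (z0 : ℝ) ^ (j + 1) := mul_le_mul_of_nonneg_right hb (by positivity)
      _ = _ := by ring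
  obtain ⟨u2, h2, h2'⟩ := stage1 (n := n) (k := j + 1) (p := 1) (M := MB)
    (U := ck (j + 1) * P ^ (j + 1 + 1) / (z0 : ℝ) ^ (j + 1 + 1)) hk le_rfl hMB h0
    (show z0 ≤ z + MA * (2 ^ (j + 1) * P) by omega) (by
      rw [mul_one]
      omega) hs1 h1 h1' (by
      rw [Nat.add_sub_cancel, div_le_div_iff₀ (by positivity) (by positivity), hck]
      calc (ck j : ℝ) * (((j + 1 : ℕ) : ℝ) * 2 ^ j) * P ^ (j + 1 + 1) * n ^ (j + 1) =
            (ck j : ℝ) * (((j + 1 : ℕ) : ℝ) * 2 ^ j * P ^ (j + 1 + 1) * n ^ (j + 1)) := by ring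
        _ ≤ (ck j : ℝ) * (z0 : ℝ) ^ (j + 1 + 1) := mul_le_mul_of_nonneg_left hkey hc0.le
        _ = _ := by push_cast; ring) (by
      rw [Nat.add_sub_cancel, div_le_div_iff₀ (by positivity) (by positivity), hck]
      calc (ck j : ℝ) * (((j + 1 : ℕ) : ℝ) * 2 ^ j) * ((1 : ℕ) : ℝ) ^ (j + 1 + 1) *
              n ^ (j + 1) =
            (ck j : ℝ) * (((j + 1 : ℕ) : ℝ) * 2 ^ j * 1 * n ^ (j + 1)) := by push_cast; ring
        _ ≤ (ck j : ℝ) * (((j + 1 : ℕ) : ℝ) * 2 ^ j * P ^ (j + 1 + 1) * n ^ (j + 1)) := by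
            apply mul_le_mul_of_nonneg_left _ hc0.le
            apply mul_le_mul_of_nonneg_right _ (by positivity)
            exact mul_le_mul_of_nonneg_left (one_le_pow₀ hPR) (by positivity)
        _ ≤ (ck j : ℝ) * (z0 : ℝ) ^ (j + 1 + 1) := mul_le_mul_of_nonneg_left hkey hc0.le
        _ = _ := by push_cast; ring) (by
      rw [mul_div_assoc', div_le_div_iff₀ (by positivity) (by positivity)]
      calc (ck (j + 1) : ℝ) * P ^ (j + 1 + 1) * n ^ (j + 1 + 1) ≤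
            (ck (j + 1) : ℝ) * P ^ (j + 1 + 1) * (R ^ (j + 1 + 1) * (z0 : ℝ) ^ (j + 1 + 1)) :=
            mul_le_mul_of_nonneg_left hpowR2 (by positivity)
        _ = (ck (j + 1) : ℝ) * (z0 : ℝ) ^ (j + 1 + 1) * ((P * R) ^ (j + 1 + 1)) := by
            rw [mul_pow]
            ring
        _ ≤ (ck (j + 1) : ℝ) * (z0 : ℝ) ^ (j + 1 + 1) * MB :=
            mul_le_mul_of_nonneg_left hd (by positivity)
        _ = _ := by push_cast; ring)
  refine ⟨u2, ?_, ?_⟩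
  · have e : z + (MA * (2 ^ (j + 1) * P) + MB * 2 ^ (j + 1)) =
        z + MA * (2 ^ (j + 1) * P) + MB * (2 ^ (j + 1) * 1) := by ring
    rw [e]
    exact h2
  · refine h2'.trans (le_of_eq ?_)
    push_cast
    ring

end Pool.Agent.Lib.MP_ed661f_ag.Z
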