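import Pool.Agent.Lib.MP_ed661f_ag.Z.Asym1

/-! Large `n`: the levels `1, ..., K`. -/

set_option autoImplicit false

namespace Pool.Agent.Lib.MP_ed661f_ag.Z

/-- the first step of the level `k` -/
def PP (k : ℕ) : ℕ := 2 ^ (1 + 9 / k)

/-- the number of blocks with the step `PP k` -/
noncomputable def MA (n k : ℕ) : ℕ :=
  ⌈(51 / 50 : ℝ) ^ k * n / (k * 2 ^ (k - 1) * (PP k : ℝ) ^ (k + 1))⌉₊

/-- the number of blocks with the step `1` -/
noncomputable def MB (k : ℕ) : ℕ := ⌈((PP k : ℝ) * (51 / 50)) ^ (k + 1)⌉₊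

/-- the length of the level `k` -/
noncomputable def len (n k : ℕ) : ℕ := MA n k * (2 ^ k * PP k) + MB k * 2 ^ k

/-- the length of the levels `1, ..., K` -/
noncomputable def slen (n : ℕ) : ℕ → ℕ
  | 0 => 0
  | K + 1 => slen n K + len n (K + 1)

theorem PP_ge (k : ℕ) : 2 ≤ PP k := by
  unfold PP
  rw [pow_add, pow_one]
  have := Nat.one_le_two_pow (n := 9 / k)
  omega

theorem levels_chain {δ n z0 K : ℕ} (h0 : 1 ≤ z0) (hn : 1 ≤ n) (hR : (n : ℝ) ≤ 51 / 50 * z0)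
    (hb : ∀ k, 1 ≤ k → k ≤ K →
      (k : ℝ) * 2 ^ (k - 1) * (PP k : ℝ) ^ (k + 1) * (51 / 50) ^ k ≤ z0)
    (hs : ∀ k, 1 ≤ k → k ≤ K → side k (PP k) ≤ z0) :
    ∀ k ≤ K, ∀ (z : ℕ) (u : ℝ), z0 ≤ z → z + slen n k ≤ n → Cn δ z u → u ≤ 1 / z0 →
      ∃ u', Cn δ (z + slen n k) u' ∧ u' ≤ ck k / (z0 : ℝ) ^ (k + 1) := by
  intro k
  induction k with
  | zero =>
    intro _ z u hz _ hu hu1
    refine ⟨u, by simpa [slen] using hu, ?_⟩
    simpa [ck] using hu1
  | succ k ih =>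
    intro hk z u hz hzn hu hu1
    have hslen : slen n (k + 1) = slen n k + len n (k + 1) := rfl
    rw [hslen] at hzn ⊢
    obtain ⟨v, hv, hv1⟩ := ih (by omega) z u hz (by omega) hu hu1
    have hnR : (1 : ℝ) ≤ n := by exact_mod_cast hn
    have hP := PP_ge (k + 1)
    have hPR : (2 : ℝ) ≤ PP (k + 1) := by exact_mod_cast hP
    have hMA : 1 ≤ MA n (k + 1) := by
      unfold MA
      rw [Nat.one_le_ceil_iff]
      positivity
    have hMB : 1 ≤ MB (k + 1) := by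
      unfold MB
      rw [Nat.one_le_ceil_iff]
      positivity
    have hlen : len n (k + 1) = MA n (k + 1) * (2 ^ (k + 1) * PP (k + 1)) +
        MB (k + 1) * 2 ^ (k + 1) := rfl
    obtain ⟨w, hw, hw1⟩ := level (n := n) (k := k + 1) (P := PP (k + 1)) (MA := MA n (k + 1))
      (MB := MB (k + 1)) (R := 51 / 50) (by omega) (by omega) hMA hMB h0 (by norm_num) hR
      (by linarith) (hb (k + 1) (by omega) hk) (by
        have h1 : (51 / 50 : ℝ) ^ (k + 1) * n / (((k + 1 : ℕ) : ℝ) * 2 ^ (k + 1 - 1) *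
            (PP (k + 1) : ℝ) ^ (k + 1 + 1)) ≤ MA n (k + 1) := Nat.le_ceil _
        rwa [div_le_iff₀ (by positivity)] at h1) (Nat.le_ceil _) (hs (k + 1) (by omega) hk)
      (show z0 ≤ z + slen n k by omega) (by
        rw [← hlen]
        omega) hv (by
        rw [Nat.add_sub_cancel]
        exact hv1)
    rw [← hlen] at hw
    refine ⟨w, ?_, hw1⟩
    rw [← Nat.add_assoc]
    exact hw

end Pool.Agent.Lib.MP_ed661f_ag.Z
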