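import Pool.Agent.Lib.MP_ed661f_ag.Z.Asym2

/-! Large `n`: numerical bounds. -/

set_option autoImplicit false

namespace Pool.Agent.Lib.MP_ed661f_ag.Z

/-- the growth of `(102 / 25) ^ K` -/
theorem grow (K : ℕ) : 18 ≤ K → ∀ l : ℕ, 8 * K ≤ 3 * l →
    40 * (K : ℝ) * (102 / 25) ^ K ≤ 2 ^ l := by
  induction K using Nat.strong_induction_on with
  | _ K ih =>
    intro hK l hl
    rcases Nat.lt_or_ge K 21 with h | h
    · have h1 : ∀ m : ℕ, m ≤ l → (2 : ℝ) ^ m ≤ 2 ^ l := fun m hm =>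
        pow_le_pow_right₀ (by norm_num) hm
      interval_cases K
      · refine le_trans ?_ (h1 48 (by omega))
        norm_num
      · refine le_trans ?_ (h1 51 (by omega))
        norm_num
      · refine le_trans ?_ (h1 54 (by omega))
        norm_num
    · have h1 := ih (K - 3) (by omega) (by omega) (l - 8) (by omega)
      have hKR : (21 : ℝ) ≤ K := by exact_mod_cast h
      have e1 : ((K - 3 : ℕ) : ℝ) = (K : ℝ) - 3 := by
        rw [Nat.cast_sub (by omega)]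
        norm_num
      have e2 : (102 / 25 : ℝ) ^ K = (102 / 25) ^ (K - 3) * (102 / 25) ^ 3 := by
        rw [← pow_add]
        congr 1
        omega
      have e3 : (2 : ℝ) ^ l = 2 ^ (l - 8) * 2 ^ 8 := by
        rw [← pow_add]
        congr 1
        omega
      rw [e1] at h1
      rw [e2, e3]
      have hp : (0 : ℝ) < (102 / 25) ^ (K - 3) := by positivity
      calc 40 * (K : ℝ) * ((102 / 25) ^ (K - 3) * (102 / 25) ^ 3) =
            (102 / 25) ^ (K - 3) * (40 * K * (102 / 25) ^ 3) := by ring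
        _ ≤ (102 / 25) ^ (K - 3) * (40 * ((K : ℝ) - 3) * 2 ^ 8) := by
            apply mul_le_mul_of_nonneg_left _ hp.le
            nlinarith
        _ = 40 * ((K : ℝ) - 3) * (102 / 25) ^ (K - 3) * 2 ^ 8 := by ring
        _ ≤ _ := mul_le_mul_of_nonneg_right h1 (by norm_num)

theorem len_le (n : ℕ) {k : ℕ} (hk : 1 ≤ k) : (len n k : ℝ) ≤
    n * (2 * (51 / 50) ^ k / (k * (PP k : ℝ) ^ k)) +
      (2 ^ k * PP k + 2 ^ k * ((PP k : ℝ) * (51 / 50)) ^ (k + 1) + 2 ^ k) := by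
  have hP := PP_ge k
  have hPR : (2 : ℝ) ≤ PP k := by exact_mod_cast hP
  have hkR : (1 : ℝ) ≤ k := by exact_mod_cast hk
  have h1 : (MA n k : ℝ) ≤
      (51 / 50 : ℝ) ^ k * n / (k * 2 ^ (k - 1) * (PP k : ℝ) ^ (k + 1)) + 1 :=
    (Nat.ceil_lt_add_one (by positivity)).le
  have h2 : (MB k : ℝ) ≤ ((PP k : ℝ) * (51 / 50)) ^ (k + 1) + 1 :=
    (Nat.ceil_lt_add_one (by positivity)).le
  unfold len
  push_cast
  obtain ⟨j, rfl⟩ : ∃ j, k = j + 1 := ⟨k - 1, by omega⟩
  rw [Nat.add_sub_cancel] at h1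
  have h3 : (MA n (j + 1) : ℝ) * (2 ^ (j + 1) * PP (j + 1)) ≤
      ((51 / 50 : ℝ) ^ (j + 1) * n / (((j + 1 : ℕ) : ℝ) * 2 ^ j * (PP (j + 1) : ℝ) ^ (j + 1 + 1)) +
        1) * (2 ^ (j + 1) * PP (j + 1)) := mul_le_mul_of_nonneg_right h1 (by positivity)
  have h4 : (MB (j + 1) : ℝ) * 2 ^ (j + 1) ≤
      (((PP (j + 1) : ℝ) * (51 / 50)) ^ (j + 1 + 1) + 1) * 2 ^ (j + 1) :=
    mul_le_mul_of_nonneg_right h2 (by positivity)
  have h5 : ((51 / 50 : ℝ) ^ (j + 1) * n / (((j + 1 : ℕ) : ℝ) * 2 ^ j *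
      (PP (j + 1) : ℝ) ^ (j + 1 + 1)) + 1) * (2 ^ (j + 1) * PP (j + 1)) =
      n * (2 * (51 / 50) ^ (j + 1) / (((j + 1 : ℕ) : ℝ) * (PP (j + 1) : ℝ) ^ (j + 1))) +
        2 ^ (j + 1) * PP (j + 1) := by
    field_simp
    ring
  rw [h5] at h3
  push_cast at h3 h4 ⊢
  linarith

theorem slen_nine {n : ℕ} (hn : 2 ^ 48 ≤ n) : (slen n 9 : ℝ) ≤ n * (39 / 10000) := by
  have hnR : (281474976710656 : ℝ) ≤ n := by
    have : (2 : ℝ) ^ 48 ≤ n := by exact_mod_cast hn
    exact le_trans (by norm_num) this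
  have e : slen n 9 = len n 1 + len n 2 + len n 3 + len n 4 + len n 5 + len n 6 + len n 7 +
      len n 8 + len n 9 := by
    simp only [slen, Nat.zero_add]
  rw [e]
  push_cast
  have hn0 : (0 : ℝ) ≤ n := Nat.cast_nonneg n
  have h1 : (len n 1 : ℝ) ≤ n * (19922 / 10000000) + 2183927 := by
    have h := len_le n (k := 1) (by norm_num)
    rw [show PP 1 = 1024 from rfl] at h
    refine h.trans (add_le_add (mul_le_mul_of_nonneg_left ?_ hn0) ?_)
    · norm_num
    · norm_num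
  have h2 : (len n 2 : ℝ) ≤ n * (10161 / 10000000) + 139227 := by
    have h := len_le n (k := 2) (by norm_num)
    rw [show PP 2 = 32 from rfl] at h
    refine h.trans (add_le_add (mul_le_mul_of_nonneg_left ?_ hn0) ?_)
    · norm_num
    · norm_num
  have h3 : (len n 3 : ℝ) ≤ n * (1728 / 10000000) + 567643 := by
    have h := len_le n (k := 3) (by norm_num)
    rw [show PP 3 = 16 from rfl] at h
    refine h.trans (add_le_add (mul_le_mul_of_nonneg_left ?_ hn0) ?_)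
    · norm_num
    · norm_num
  have h4 : (len n 4 : ℝ) ≤ n * (1322 / 10000000) + 579001 := by
    have h := len_le n (k := 4) (by norm_num)
    rw [show PP 4 = 8 from rfl] at h
    refine h.trans (add_le_add (mul_le_mul_of_nonneg_left ?_ hn0) ?_)
    · norm_num
    · norm_num
  have h5 : (len n 5 : ℝ) ≤ n * (4313 / 10000000) + 147769 := by
    have h := len_le n (k := 5) (by norm_num)
    rw [show PP 5 = 4 from rfl] at h
    refine h.trans (add_le_add (mul_le_mul_of_nonneg_left ?_ hn0) ?_)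
    · norm_num
    · norm_num
  have h6 : (len n 6 : ℝ) ≤ n * (917 / 10000000) + 1204805 := by
    have h := len_le n (k := 6) (by norm_num)
    rw [show PP 6 = 4 from rfl] at h
    refine h.trans (add_le_add (mul_le_mul_of_nonneg_left ?_ hn0) ?_)
    · norm_num
    · norm_num
  have h7 : (len n 7 : ℝ) ≤ n * (201 / 10000000) + 9829232 := by
    have h := len_le n (k := 7) (by norm_num)
    rw [show PP 7 = 4 from rfl] at h
    refine h.trans (add_le_add (mul_le_mul_of_nonneg_left ?_ hn0) ?_)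
    · norm_num
    · norm_num
  have h8 : (len n 8 : ℝ) ≤ n * (45 / 10000000) + 80202585 := by
    have h := len_le n (k := 8) (by norm_num)
    rw [show PP 8 = 4 from rfl] at h
    refine h.trans (add_le_add (mul_le_mul_of_nonneg_left ?_ hn0) ?_)
    · norm_num
    · norm_num
  have h9 : (len n 9 : ℝ) ≤ n * (11 / 10000000) + 654445206 := by
    have h := len_le n (k := 9) (by norm_num)
    rw [show PP 9 = 4 from rfl] at h
    refine h.trans (add_le_add (mul_le_mul_of_nonneg_left ?_ hn0) ?_)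
    · norm_num
    · norm_num
  linarith

theorem slen_le {n : ℕ} (hn : 2 ^ 48 ≤ n) (K : ℕ) (hK : 9 ≤ K) :
    (slen n K : ℝ) ≤ n * (45 / 10000 - 21 / 100 * (51 / 100) ^ K) + 3 * (102 / 25) ^ K := by
  have hnR : (0 : ℝ) ≤ n := Nat.cast_nonneg n
  induction K, hK using Nat.le_induction with
  | base =>
    refine (slen_nine hn).trans ?_
    have h1 : (39 / 10000 : ℝ) ≤ 45 / 10000 - 21 / 100 * (51 / 100) ^ 9 := by norm_num
    have h2 := mul_le_mul_of_nonneg_left h1 hnR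
    have h3 : (0 : ℝ) ≤ 3 * (102 / 25) ^ 9 := by positivity
    linarith
  | succ k hk ih =>
    have e : slen n (k + 1) = slen n k + len n (k + 1) := rfl
    rw [e]
    push_cast
    have h1 := len_le n (k := k + 1) (by omega)
    have hP : PP (k + 1) = 2 := by
      unfold PP
      rw [Nat.div_eq_of_lt (by omega)]
      norm_num
    rw [hP] at h1
    have hkR : (9 : ℝ) ≤ k := by exact_mod_cast hk
    -- the term with `n`
    have h2 : (2 * (51 / 50 : ℝ) ^ (k + 1) / (((k + 1 : ℕ) : ℝ) * ((2 : ℕ) : ℝ) ^ (k + 1))) ≤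
        21 / 100 * (51 / 100) ^ k - 21 / 100 * (51 / 100) ^ (k + 1) := by
      have h3 : (51 / 50 : ℝ) ^ (k + 1) = (51 / 100) ^ (k + 1) * ((2 : ℕ) : ℝ) ^ (k + 1) := by
        rw [← mul_pow]
        norm_num
      rw [h3]
      have h4 : 2 * ((51 / 100 : ℝ) ^ (k + 1) * ((2 : ℕ) : ℝ) ^ (k + 1)) /
          (((k + 1 : ℕ) : ℝ) * ((2 : ℕ) : ℝ) ^ (k + 1)) =
          2 * (51 / 100) ^ (k + 1) / ((k + 1 : ℕ) : ℝ) := by
        field_simp
      rw [h4]
      have h5 : 2 * (51 / 100 : ℝ) ^ (k + 1) / ((k + 1 : ℕ) : ℝ) ≤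
          2 * (51 / 100) ^ (k + 1) / 10 := by
        apply div_le_div_of_nonneg_left (by positivity) (by norm_num)
        push_cast
        linarith
      refine h5.trans ?_
      rw [pow_succ]
      have : (0 : ℝ) < (51 / 100) ^ k := by positivity
      linarith
    have h3 := mul_le_mul_of_nonneg_left h2 hnR
    -- the other terms
    have h4 : (2 : ℝ) ^ (k + 1) * ((2 : ℕ) : ℝ) + 2 ^ (k + 1) * (((2 : ℕ) : ℝ) * (51 / 50)) ^
        (k + 1 + 1) + 2 ^ (k + 1) ≤ 3 * (102 / 25) ^ (k + 1) - 3 * (102 / 25) ^ k := by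
      have h5 : (2 : ℝ) ^ (k + 1) * (((2 : ℕ) : ℝ) * (51 / 50)) ^ (k + 1 + 1) =
          51 / 25 * (102 / 25) ^ (k + 1) := by
        rw [pow_succ (((2 : ℕ) : ℝ) * (51 / 50)), ← mul_assoc, ← mul_pow]
        norm_num
        ring
      rw [h5]
      have h6 : (2 : ℝ) ^ (k + 1) ≤ 1 / 100 * (102 / 25) ^ (k + 1) := by
        have h7 : (102 / 25 : ℝ) ^ (k + 1) = 2 ^ (k + 1) * (51 / 25) ^ (k + 1) := by
          rw [← mul_pow]
          norm_num
        rw [h7]
        have h8 : (100 : ℝ) ≤ (51 / 25) ^ (k + 1) := by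
          calc (100 : ℝ) ≤ (51 / 25) ^ 10 := by norm_num
            _ ≤ _ := pow_le_pow_right₀ (by norm_num) (by omega)
        have h9 : (0 : ℝ) < 2 ^ (k + 1) := by positivity
        nlinarith
      have h7 : (102 / 25 : ℝ) ^ (k + 1) = 102 / 25 * (102 / 25) ^ k := by
        rw [pow_succ]
        ring
      have h8 : (0 : ℝ) < (102 / 25) ^ k := by positivity
      push_cast
      rw [h7] at h6 ⊢
      linarith
    have h5 : (n : ℝ) * (45 / 10000 - 21 / 100 * (51 / 100) ^ (k + 1)) =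
        n * (45 / 10000 - 21 / 100 * (51 / 100) ^ k) +
          n * (21 / 100 * (51 / 100) ^ k - 21 / 100 * (51 / 100) ^ (k + 1)) := by ring
    rw [h5]
    linarith

/-- the condition on the levels -/
theorem cond_le {n z0 K : ℕ} (hn : 2 ^ 48 ≤ n) (hR : (n : ℝ) ≤ 51 / 50 * z0) (hK : 18 ≤ K)
    (hg : 40 * (K : ℝ) * (102 / 25) ^ K ≤ n) (k : ℕ) (hk : 1 ≤ k) (hkK : k ≤ K) :
    (k : ℝ) * 2 ^ (k - 1) * (PP k : ℝ) ^ (k + 1) * (51 / 50) ^ k ≤ z0 := by
  have hnR : (2 : ℝ) ^ 48 ≤ n := by exact_mod_cast hn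
  rcases Nat.lt_or_ge k 10 with h | h
  · have hz : (2 : ℝ) ^ 47 ≤ z0 := by
      have h1 : (281474976710656 : ℝ) ≤ n := le_trans (by norm_num) hnR
      have h2 : (2 : ℝ) ^ 47 ≤ 140737488355328 := by norm_num
      linarith
    refine le_trans ?_ hz
    have p1 : PP 1 = 1024 := rfl
    have p2 : PP 2 = 32 := rfl
    have p3 : PP 3 = 16 := rfl
    have p4 : PP 4 = 8 := rfl
    have p5 : PP 5 = 4 := rfl
    have p6 : PP 6 = 4 := rfl
    have p7 : PP 7 = 4 := rfl
    have p8 : PP 8 = 4 := rfl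
    have p9 : PP 9 = 4 := rfl
    interval_cases k
    · rw [p1]; norm_num
    · rw [p2]; norm_num
    · rw [p3]; norm_num
    · rw [p4]; norm_num
    · rw [p5]; norm_num
    · rw [p6]; norm_num
    · rw [p7]; norm_num
    · rw [p8]; norm_num
    · rw [p9]; norm_num
  · have hP : PP k = 2 := by
      unfold PP
      rw [Nat.div_eq_of_lt (by omega)]
      norm_num
    rw [hP]
    obtain ⟨j, rfl⟩ : ∃ j, k = j + 1 := ⟨k - 1, by omega⟩
    rw [Nat.add_sub_cancel]
    have e : ((j + 1 : ℕ) : ℝ) * 2 ^ j * ((2 : ℕ) : ℝ) ^ (j + 1 + 1) * (51 / 50) ^ (j + 1) =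
        ((j + 1 : ℕ) : ℝ) * (102 / 25) ^ (j + 1) := by
      have h1 : (102 / 25 : ℝ) ^ (j + 1) = 2 ^ (j + 1) * 2 ^ (j + 1) * (51 / 50) ^ (j + 1) := by
        rw [← mul_pow, ← mul_pow]
        norm_num
      rw [h1, pow_succ ((2 : ℕ) : ℝ) (j + 1), pow_succ (2 : ℝ) j]
      push_cast
      ring
    rw [e]
    have h1 : (((j + 1 : ℕ) : ℝ)) ≤ K := by exact_mod_cast hkK
    have h2 : (102 / 25 : ℝ) ^ (j + 1) ≤ (102 / 25) ^ K :=
      pow_le_pow_right₀ (by norm_num) hkK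
    have h3 : ((j + 1 : ℕ) : ℝ) * (102 / 25) ^ (j + 1) ≤ K * (102 / 25) ^ K :=
      mul_le_mul h1 h2 (by positivity) (by positivity)
    linarith

theorem side_le_cond {k : ℕ} (hk : 1 ≤ k) : (side k (PP k) : ℝ) ≤
    (k : ℝ) * 2 ^ (k - 1) * (PP k : ℝ) ^ (k + 1) * (51 / 50) ^ k := by
  have hP := PP_ge k
  have hPR : (2 : ℝ) ≤ PP k := by exact_mod_cast hP
  have hkR : (1 : ℝ) ≤ k := by exact_mod_cast hk
  rcases Nat.lt_or_ge k 2 with h | h
  · have : k = 1 := by omega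
    subst this
    have e : side 1 (PP 1) = 0 := by
      unfold side
      norm_num
    rw [e]
    push_cast
    positivity
  · obtain ⟨j, rfl⟩ : ∃ j, k = j + 2 := ⟨k - 2, by omega⟩
    have e1 : side (j + 2) (PP (j + 2)) = 3 * (j + 1) * 2 ^ j * PP (j + 2) := by
      unfold side
      norm_num
    have e2 : j + 2 - 1 = j + 1 := by omega
    rw [e1, e2]
    generalize PP (j + 2) = P at *
    have h1 : (1 : ℝ) ≤ (51 / 50) ^ (j + 2) := one_le_pow₀ (by norm_num)
    have h2 : (2 : ℝ) ≤ (P : ℝ) ^ (j + 2) := by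
      calc (2 : ℝ) ≤ P := hPR
        _ = (P : ℝ) ^ 1 := (pow_one _).symm
        _ ≤ _ := pow_le_pow_right₀ (by linarith) (by omega)
    push_cast
    have h3 : (3 : ℝ) * (j + 1) * 2 ^ j * P ≤ ((j : ℝ) + 2) * 2 ^ (j + 1) * (P * 2) := by
      rw [pow_succ]
      have h4 : (0 : ℝ) < 2 ^ j * P := by positivity
      have h5 : (0 : ℝ) ≤ j := Nat.cast_nonneg j
      nlinarith
    calc (3 : ℝ) * (j + 1) * 2 ^ j * P ≤ ((j : ℝ) + 2) * 2 ^ (j + 1) * (P * 2) := h3
      _ ≤ ((j : ℝ) + 2) * 2 ^ (j + 1) * (P * (P : ℝ) ^ (j + 2)) := by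
          apply mul_le_mul_of_nonneg_left _ (by positivity)
          exact mul_le_mul_of_nonneg_left h2 (by positivity)
      _ = ((j : ℝ) + 2) * 2 ^ (j + 1) * (P : ℝ) ^ (j + 2 + 1) * 1 := by ring
      _ ≤ _ := mul_le_mul_of_nonneg_left h1 (by positivity)

end Pool.Agent.Lib.MP_ed661f_ag.Z
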