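import Pool.Agent.Lib.MP_ed661f_ag.Z.Run

/-! Blocks of level `k` and their iteration. -/

set_option autoImplicit false

namespace Pool.Agent.Lib.MP_ed661f_ag.Z

theorem ck_pos (k : ℕ) : 0 < ck k := Nat.mul_pos (Nat.factorial_pos k) (by positivity)

theorem ck_succ (k : ℕ) : ck (k + 1) = ck k * ((k + 1) * 2 ^ k) := by
  unfold ck
  rw [Nat.factorial_succ]
  have h : (k + 1) * (k + 1 - 1) / 2 = k * (k - 1) / 2 + k := by
    rw [Nat.add_sub_cancel]
    rcases Nat.eq_zero_or_pos k with rfl | hk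
    · rfl
    · obtain ⟨j, rfl⟩ : ∃ j, k = j + 1 := ⟨k - 1, by omega⟩
      rw [Nat.add_sub_cancel]
      have e : (j + 1 + 1) * (j + 1) = (j + 1) * j + (j + 1) * 2 := by ring
      rw [e, Nat.add_mul_div_right _ _ (by norm_num)]
  rw [h, pow_add]
  ring

theorem hsl_nonneg (p k : ℕ) : ∀ t ∈ hsl p k, 0 ≤ t := by
  induction k with
  | zero => simp [hsl]
  | succ k ih =>
    intro t ht
    rw [hsl, List.mem_cons] at ht
    rcases ht with rfl | ht
    · positivity
    · exact ih t ht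

theorem hsl_prod (p k : ℕ) : (hsl p k).prod = p ^ (k + 1) * 2 ^ (k * (k - 1) / 2) := by
  induction k with
  | zero => simp [hsl]
  | succ k ih =>
    rw [hsl, List.prod_cons, ih]
    have h : (k + 1) * (k + 1 - 1) / 2 = k * (k - 1) / 2 + k := by
      rw [Nat.add_sub_cancel]
      rcases Nat.eq_zero_or_pos k with rfl | hk
      · rfl
      · obtain ⟨j, rfl⟩ : ∃ j, k = j + 1 := ⟨k - 1, by omega⟩
        rw [Nat.add_sub_cancel]
        have e : (j + 1 + 1) * (j + 1) = (j + 1) * j + (j + 1) * 2 := by ring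
        rw [e, Nat.add_mul_div_right _ _ (by norm_num)]
    rw [h, pow_add]
    ring

theorem hsl_sum (p k : ℕ) : (hsl p k).sum = 2 ^ k * p := by
  induction k with
  | zero => simp [hsl]
  | succ k ih =>
    rw [hsl, List.sum_cons, ih]
    ring

theorem hsl_length (p k : ℕ) : (hsl p k).length = k + 1 := by
  induction k with
  | zero => rfl
  | succ k ih => rw [hsl, List.length_cons, ih]

theorem E_bounds (k p : ℕ) {z : ℝ} (hz : 0 < z) : loR k p z ≤ E k p z ∧ E k p z ≤ hiR k p z := by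
  obtain ⟨t, hs, h⟩ : ∃ t hs, hsl p k = t :: hs := by
    cases k with
    | zero => exact ⟨_, _, rfl⟩
    | succ k => exact ⟨_, _, rfl⟩
  have h0 := hsl_nonneg p k
  have hl := hsl_length p k
  have hp := hsl_prod p k
  have hS := hsl_sum p k
  rw [h] at h0 hl hp hS
  have hlen : hs.length = k := by
    rw [List.length_cons] at hl
    omega
  obtain ⟨h1, h2⟩ := G.dl_log_bounds (h0 t List.mem_cons_self)
    (fun t' ht' => h0 t' (List.mem_cons_of_mem _ ht')) hz
  rw [hlen, hp, hS] at h1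
  rw [hlen, hp] at h2
  have e : ((k.factorial : ℕ) : ℝ) * ((p : ℝ) ^ (k + 1) * 2 ^ (k * (k - 1) / 2)) =
      (ck k : ℝ) * p ^ (k + 1) := by
    unfold ck
    push_cast
    ring
  rw [e] at h1 h2
  unfold E loR hiR
  rw [h]
  exact ⟨h1, h2⟩

theorem E_succ (k p : ℕ) (z : ℝ) : E (k + 1) p z = E k p z - E k p (z + 2 ^ k * p) := by
  unfold E
  rw [hsl, G.dl]
  ring

theorem E_zero (p : ℕ) {z : ℝ} (hz : 0 < z) : E 0 p z = Real.log ((z + p) / z) := by
  unfold E
  rw [hsl, G.dl, G.dl, G.dl, Real.log_div (by positivity) (by positivity)]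
  ring

theorem loR_nonneg (k p : ℕ) {z : ℝ} (hz : 0 ≤ z) : 0 ≤ loR k p z := by
  unfold loR
  positivity

theorem E_nonneg (k p : ℕ) {z : ℝ} (hz : 0 < z) : 0 ≤ E k p z :=
  (loR_nonneg k p hz.le).trans (E_bounds k p hz).1

theorem loR_anti (k p : ℕ) {z z' : ℝ} (hz : 0 < z) (h : z ≤ z') : loR k p z' ≤ loR k p z := by
  unfold loR
  apply div_le_div_of_nonneg_left (by positivity) (by positivity)
  apply pow_le_pow_left₀ (by positivity)
  linarith

theorem hiR_anti (k p : ℕ) {z z' : ℝ} (hz : 0 < z) (h : z ≤ z') : hiR k p z' ≤ hiR k p z := by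
  unfold hiR
  apply div_le_div_of_nonneg_left (by positivity) (by positivity)
  exact pow_le_pow_left₀ hz.le h _

/-- the effect of a block of level `k + 1` is smaller than that of the next block of level `k` -/
theorem side_le (k p : ℕ) {z : ℝ} (hp : 1 ≤ p) (hz : 3 * ((k : ℝ) + 1) * (2 ^ k * p) ≤ z) :
    E (k + 1) p z ≤ E k p (z + 2 ^ (k + 1) * p) := by
  have hpR : (1 : ℝ) ≤ p := by exact_mod_cast hp
  obtain ⟨y, hy⟩ : ∃ y : ℝ, y = 2 ^ k * p := ⟨_, rfl⟩
  have hy0 : 0 < y := by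
    rw [hy]
    positivity
  have hk0 : (0 : ℝ) ≤ k := Nat.cast_nonneg k
  rw [← hy] at hz
  have hz0 : 0 < z := lt_of_lt_of_le (by positivity) hz
  refine (E_bounds (k + 1) p hz0).2.trans (le_trans ?_ (E_bounds k p (by positivity)).1)
  unfold hiR loR
  have e1 : z + 2 ^ (k + 1) * (p : ℝ) + 2 ^ k * p = z + 3 * y := by
    rw [hy]
    ring
  rw [e1, div_le_div_iff₀ (by positivity) (by positivity), ck_succ]
  push_cast
  have hc : (0 : ℝ) < ck k := by exact_mod_cast ck_pos k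
  -- the main inequality
  have h1 : (z + 3 * y) ^ (k + 1) ≤ 3 * z ^ (k + 1) := by
    have h2 : z + 3 * y ≤ z * (1 + 1 / ((k : ℝ) + 1)) := by
      have h3 : 3 * y ≤ z * (1 / ((k : ℝ) + 1)) := by
        rw [mul_one_div, le_div_iff₀ (by positivity)]
        linarith
      linarith
    have h4 : (z + 3 * y) ^ (k + 1) ≤ (z * (1 + 1 / ((k : ℝ) + 1))) ^ (k + 1) :=
      pow_le_pow_left₀ (by positivity) h2 _
    have h5 : (1 + 1 / ((k : ℝ) + 1)) ^ (k + 1) ≤ 3 := by
      have h6 : 1 + 1 / ((k : ℝ) + 1) ≤ Real.exp (1 / ((k : ℝ) + 1)) := by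
        linarith [Real.add_one_le_exp (1 / ((k : ℝ) + 1))]
      have h7 : (1 + 1 / ((k : ℝ) + 1)) ^ (k + 1) ≤ Real.exp (1 / ((k : ℝ) + 1)) ^ (k + 1) :=
        pow_le_pow_left₀ (by positivity) h6 _
      have h8 : Real.exp (1 / ((k : ℝ) + 1)) ^ (k + 1) = Real.exp 1 := by
        rw [← Real.exp_nat_mul]
        congr 1
        push_cast
        field_simp
      rw [h8] at h7
      have := Real.exp_one_lt_d9
      linarith
    calc (z + 3 * y) ^ (k + 1) ≤ (z * (1 + 1 / ((k : ℝ) + 1))) ^ (k + 1) := h4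
      _ = z ^ (k + 1) * (1 + 1 / ((k : ℝ) + 1)) ^ (k + 1) := mul_pow _ _ _
      _ ≤ z ^ (k + 1) * 3 := mul_le_mul_of_nonneg_left h5 (by positivity)
      _ = _ := by ring
  have h2 : ((k : ℝ) + 1) * y * (z + 3 * y) ^ (k + 1) ≤ z ^ (k + 2) := by
    calc ((k : ℝ) + 1) * y * (z + 3 * y) ^ (k + 1) ≤ ((k : ℝ) + 1) * y * (3 * z ^ (k + 1)) :=
          mul_le_mul_of_nonneg_left h1 (by positivity)
      _ = (3 * ((k : ℝ) + 1) * y) * z ^ (k + 1) := by ring
      _ ≤ z * z ^ (k + 1) := mul_le_mul_of_nonneg_right hz (by positivity)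
      _ = z ^ (k + 2) := by ring
  calc (ck k : ℝ) * (((k : ℝ) + 1) * 2 ^ k) * p ^ (k + 1 + 1) * (z + 3 * y) ^ (k + 1) =
        (ck k : ℝ) * p ^ (k + 1) * (((k : ℝ) + 1) * y * (z + 3 * y) ^ (k + 1)) := by
          rw [hy]
          ring
    _ ≤ (ck k : ℝ) * p ^ (k + 1) * z ^ (k + 2) :=
        mul_le_mul_of_nonneg_left h2 (by positivity)
    _ = _ := by ring

theorem Cn.nonneg {δ z : ℕ} {u : ℝ} (h : Cn δ z u) : 0 ≤ u := h.1

/-- **blocks** of positive level -/
theorem block (δ p : ℕ) (hp : 1 ≤ p) (k : ℕ) : ∀ (z : ℕ) (u : ℝ), 1 ≤ z → Cn δ z u →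
    side (k + 1) p ≤ z → u ≤ E k p z →
    Cn δ (z + 2 ^ (k + 1) * p) |u - E (k + 1) p z| := by
  induction k with
  | zero =>
    intro z u hz h _ hu
    have hzR : (0 : ℝ) < z := by exact_mod_cast hz
    have h1 := h.run hz hp
    rw [← E_zero p hzR] at h1
    have h2 := h1.run (by omega) hp
    have e : (((z + p : ℕ) : ℝ) + p) / ((z + p : ℕ) : ℝ) = (((z : ℝ) + p) + p) / ((z : ℝ) + p) := by
      push_cast
      rfl
    rw [e, ← E_zero p (z := (z : ℝ) + p) (by positivity), abs_of_nonpos (sub_nonpos.2 hu)] at h2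
    have e2 : z + 2 ^ (0 + 1) * p = z + p + p := by ring
    rw [e2, E_succ]
    convert h2 using 1
    rw [← abs_neg]
    congr 1
    simp only [pow_zero, one_mul]
    ring
  | succ k ih =>
    intro z u hz h hs hu
    have hzR : (0 : ℝ) < z := by exact_mod_cast hz
    have hs1 : side (k + 1) p ≤ z := by
      refine le_trans ?_ hs
      unfold side
      apply Nat.mul_le_mul_right
      apply Nat.mul_le_mul
      · omega
      · exact Nat.pow_le_pow_right (by norm_num) (by omega)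
    have hle : E (k + 1) p z ≤ E k p z := by
      rw [E_succ]
      have := E_nonneg k p (z := (z : ℝ) + 2 ^ k * p) (by positivity)
      linarith
    have h1 := ih z u hz h hs1 (hu.trans hle)
    rw [abs_of_nonpos (sub_nonpos.2 hu)] at h1
    have hside : E (k + 1) p z ≤ E k p (z + 2 ^ (k + 1) * p) := by
      apply side_le k p hp
      have h2 : 3 * (k + 1) * (2 ^ k * p) ≤ z := by
        refine le_trans (le_of_eq ?_) hs
        unfold side
        rw [show k + 1 + 1 - 1 = k + 1 by omega, show k + 1 + 1 - 2 = k by omega]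
        ring
      exact_mod_cast h2
    have hu0 := h.nonneg
    have h2 := ih (z + 2 ^ (k + 1) * p) _ (by omega) h1 (by omega) (by
      push_cast
      linarith)
    have e2 : z + 2 ^ (k + 1 + 1) * p = z + 2 ^ (k + 1) * p + 2 ^ (k + 1) * p := by ring
    rw [e2, E_succ]
    convert h2 using 1
    rw [← abs_neg]
    congr 1
    push_cast
    ring

/-- abstract iteration -/
theorem iter {δ z L M : ℕ} {U l h V : ℝ} (hU : U ≤ V) (hh : h ≤ V) (hl : 0 ≤ l)
    (F : ∀ i < M, ∀ u, Cn δ (z + i * L) u → u ≤ V →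
      ∃ e, l ≤ e ∧ e ≤ h ∧ Cn δ (z + i * L + L) |u - e|) :
    ∀ i ≤ M, ∀ u, Cn δ z u → u ≤ U → ∃ u', Cn δ (z + i * L) u' ∧ u' ≤ max (U - i * l) h := by
  intro i
  induction i with
  | zero =>
    intro _ u hu hu1
    refine ⟨u, by simpa using hu, ?_⟩
    simp [hu1]
  | succ i ih =>
    intro hi u hu hu1
    obtain ⟨v, hv, hv1⟩ := ih (by omega) u hu hu1
    have hvV : v ≤ V := by
      refine hv1.trans (max_le ?_ hh)
      have : 0 ≤ (i : ℝ) * l := by positivity
      linarith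
    obtain ⟨e, he1, he2, he3⟩ := F i (by omega) v hv hvV
    refine ⟨|v - e|, ?_, ?_⟩
    · have e2 : z + (i + 1) * L = z + i * L + L := by ring
      rw [e2]
      exact he3
    · have hv0 := hv.nonneg
      rcases le_total e v with h1 | h1
      · rw [abs_of_nonneg (by linarith)]
        rcases le_total (U - i * l) h with h2 | h2
        · rw [max_eq_right h2] at hv1
          exact le_max_of_le_right (by linarith)
        · rw [max_eq_left h2] at hv1
          apply le_max_of_le_left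
          push_cast
          linarith
      · rw [abs_of_nonpos (by linarith)]
        exact le_max_of_le_right (by linarith)

/-- **stages**: `M` blocks of level `k` and step `p` -/
theorem stage {δ z k p M : ℕ} {u U B : ℝ} (hp : 1 ≤ p) (hM : 1 ≤ M) (hz : 1 ≤ z)
    (hs : side k p ≤ z) (hB : (z : ℝ) + (M - 1) * (2 ^ k * p) ≤ B) (hu : Cn δ z u) (huU : u ≤ U)
    (hV : k = 0 ∨ (U ≤ loR (k - 1) p B ∧ hiR k p z ≤ loR (k - 1) p B)) :
    ∃ u', Cn δ (z + M * (2 ^ k * p)) u' ∧ u' ≤ max (U - M * loR k p B) (hiR k p z) := by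
  have hzR : (1 : ℝ) ≤ z := by exact_mod_cast hz
  have hMR : (1 : ℝ) ≤ M := by exact_mod_cast hM
  have hB0 : 0 < B := by
    refine lt_of_lt_of_le ?_ hB
    have : 0 ≤ ((M : ℝ) - 1) * (2 ^ k * p) := mul_nonneg (by linarith) (by positivity)
    linarith
  have hpos : ∀ i < M, ((z + i * (2 ^ k * p) : ℕ) : ℝ) ≤ B := by
    intro i hi
    refine le_trans ?_ hB
    push_cast
    have h1 : (i : ℝ) ≤ M - 1 := by
      have : (i : ℝ) + 1 ≤ M := by exact_mod_cast hi
      linarith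
    have h2 : (i : ℝ) * (2 ^ k * p) ≤ (M - 1) * (2 ^ k * p) :=
      mul_le_mul_of_nonneg_right h1 (by positivity)
    linarith
  have hpos1 : ∀ i, (1 : ℝ) ≤ ((z + i * (2 ^ k * p) : ℕ) : ℝ) := by
    intro i
    have : 1 ≤ z + i * (2 ^ k * p) := by omega
    exact_mod_cast this
  have hpos2 : ∀ i, (z : ℝ) ≤ ((z + i * (2 ^ k * p) : ℕ) : ℝ) := by
    intro i
    have : z ≤ z + i * (2 ^ k * p) := by omega
    exact_mod_cast this
  have hbd : ∀ i < M, loR k p B ≤ E k p ((z + i * (2 ^ k * p) : ℕ) : ℝ) ∧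
      E k p ((z + i * (2 ^ k * p) : ℕ) : ℝ) ≤ hiR k p z := by
    intro i hi
    have h1 := hpos1 i
    obtain ⟨h2, h3⟩ := E_bounds k p (z := ((z + i * (2 ^ k * p) : ℕ) : ℝ)) (by linarith)
    exact ⟨(loR_anti k p (by linarith) (hpos i hi)).trans h2,
      h3.trans (hiR_anti k p (by linarith) (hpos2 i))⟩
  rcases Nat.eq_zero_or_pos k with rfl | hk
  · refine iter (L := 2 ^ 0 * p) (V := max U (hiR 0 p z)) (le_max_left _ _) (le_max_right _ _)
      (loR_nonneg 0 p hB0.le) (fun i hi v hv _ => ?_) M le_rfl u hu huU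
    refine ⟨E 0 p ((z + i * (2 ^ 0 * p) : ℕ) : ℝ), (hbd i hi).1, (hbd i hi).2, ?_⟩
    have h1 := hv.run (by omega) hp
    rw [← E_zero p (by linarith [hpos1 i])] at h1
    have e2 : z + i * (2 ^ 0 * p) + 2 ^ 0 * p = z + i * (2 ^ 0 * p) + p := by ring
    rw [e2]
    exact h1
  · obtain ⟨j, rfl⟩ : ∃ j, k = j + 1 := ⟨k - 1, by omega⟩
    obtain ⟨hV1, hV2⟩ := hV.resolve_left (by omega)
    rw [Nat.add_sub_cancel] at hV1 hV2
    refine iter (L := 2 ^ (j + 1) * p) (V := loR j p B) hV1 hV2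
      (loR_nonneg (j + 1) p hB0.le) (fun i hi v hv hvV => ?_) M le_rfl u hu huU
    refine ⟨E (j + 1) p ((z + i * (2 ^ (j + 1) * p) : ℕ) : ℝ), (hbd i hi).1, (hbd i hi).2, ?_⟩
    refine block δ p hp j _ v (by omega) hv (by omega) (hvV.trans ?_)
    exact (loR_anti j p (by linarith [hpos1 i]) (hpos i hi)).trans
      (E_bounds j p (by linarith [hpos1 i])).1

end Pool.Agent.Lib.MP_ed661f_ag.Z
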