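import Pool.Agent.Lib.MP_ed661f_ag.Z.Defs
import Pool.Agent.Lib.MP_ed661f_ag.H.PChain

/-! Chains with strict steps: independence of the conditions (like `H/PChain`). -/

set_option autoImplicit false

open Polynomial

namespace Pool.Agent.Lib.MP_ed661f_ag.Z

open Pool.Agent.Lib.MP_ed661f_ag.H

/-- copy of `H.chain_aux` for `RchS` -/
theorem chain_auxS {δ σ : ℕ} {x : ℝ} (h : RchS δ σ x) (hδ : 1 ≤ δ) (C : ℕ) :
    0 < x ∧ (0 : ℝ) < σ ∧ x ^ 2 * 0 < 1 ∧ ∃ M : ℝ, 0 < M ∧ ∀ (κ : ℕ), 1 ≤ κ → ∀ (n m : ℕ)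
      (S₀ : Finset (ℕ × ℕ)),
      (∀ b ≤ κ, δ * (κ - b) ≤ (S₀.filter fun s => s.2 = b).card + C) →
      (∀ S, Low σ (x * (κ * √δ)) (κ * √δ / x) M S → Ind n m S σ) →
      ∃ (μ : ℂ) (ξ : ℂ[X]), μ ≠ 0 ∧ Sur S₀ (1 + Polynomial.C μ * X) ξ (I0 n m) := by
  have hδR : (1 : ℝ) ≤ δ := by exact_mod_cast hδ
  have hs : 0 < √(δ : ℝ) := Real.sqrt_pos.2 (by linarith)
  have hss : √(δ : ℝ) * √δ = δ := Real.mul_self_sqrt (by linarith)
  induction h with
  | start ρ hρ =>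
    have hρR : (δ : ℝ) < ρ := by exact_mod_cast hρ
    have hρ0 : (0 : ℝ) < ρ := by linarith
    have hx : 0 < ρ / √(δ : ℝ) := by positivity
    refine ⟨hx, hρ0, by norm_num, ρ / δ * ((C + 1) + (ρ - δ)), ?_, ?_⟩
    · have h1 : (0 : ℝ) < ρ - δ := by linarith
      have h2 : (0 : ℝ) ≤ C := Nat.cast_nonneg C
      positivity
    intro κ hκ n m S₀ hS₀ H
    have hκR : (1 : ℝ) ≤ κ := by exact_mod_cast hκ
    apply Ind.back_zero (ρ := ρ)
    apply H
    have h0 : Low 0 (δ * κ) κ (C + 1) (G.Psi S₀) := by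
      intro D b _ h2
      rw [mul_div_cancel_right₀ _ (by positivity : (κ : ℝ) ≠ 0), sub_zero] at h2
      have hD : (0 : ℝ) ≤ D := Nat.cast_nonneg D
      have hC : (0 : ℝ) ≤ C := Nat.cast_nonneg C
      have hb : b ≤ κ := by
        have h3 : (δ : ℝ) * b ≤ δ * κ := by linarith
        have h4 : (b : ℝ) ≤ κ := le_of_mul_le_mul_left h3 (by linarith)
        exact_mod_cast h4
      rw [G.mem_Psi]
      simp only
      have h3 := hS₀ b hb
      have h4 : D + δ * b + C + 1 ≤ δ * κ := by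
        have : (D : ℝ) + δ * b + C + 1 ≤ δ * κ := by linarith
        exact_mod_cast this
      have h5 : δ * (κ - b) = δ * κ - δ * b := Nat.mul_sub _ _ _
      omega
    have h1 := h0.phi (ρ := ρ) le_rfl (by positivity) (by positivity) (by positivity) (by
      rw [zero_add]
      exact mul_lt_mul_of_pos_right hρR (by linarith))
    rw [zero_add] at h1
    convert h1 using 1
    · field_simp
    · field_simp
      linear_combination hss
    · field_simp
  | @step σ x σ' hr h1 h2 ih =>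
    obtain ⟨hx, hσ, -, M, hM, ih⟩ := ih
    have hσ' : (0 : ℝ) < σ' := by
      have : (σ : ℝ) < σ' := by exact_mod_cast h1
      linarith
    have h3 : 0 < (σ' : ℝ) - x ^ 2 := by linarith
    refine ⟨by positivity, hσ', by norm_num, σ' / x ^ 2 * (M + (σ' - x ^ 2)), by positivity, ?_⟩
    intro κ hκ n m S₀ hS₀ H
    have hκR : (1 : ℝ) ≤ κ := by exact_mod_cast hκ
    refine ih κ hκ n m S₀ hS₀ fun S hS => ?_
    obtain ⟨ρ, rfl⟩ := Nat.exists_eq_add_of_le h1.le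
    apply Ind.back (ρ := ρ)
    apply H
    have hY : (0 : ℝ) < κ * √δ := by positivity
    generalize (κ : ℝ) * √δ = Y at hS hY
    push_cast at hσ' h3
    have h4 := hS.phi (ρ := ρ) hσ.le (by positivity) (by positivity) hM.le (by
      rw [mul_div_assoc', lt_div_iff₀ hx]
      nlinarith)
    have e1 : x * Y / (Y / x) = x ^ 2 := by
      field_simp
    rw [e1] at h4
    convert h4 using 1
    · push_cast; rfl
    · push_cast
      field_simp
    · push_cast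
      field_simp
    · push_cast
      field_simp

theorem sur_of_rchS {δ n σ : ℕ} {x : ℝ} (h : RchS δ σ x) (hδ : 1 ≤ δ) (hx : √n ≤ x) (hn : 1 ≤ n)
    (C : ℕ) : ∃ M : ℝ, ∀ κ m : ℕ, x ^ 2 * m ≤ x * (κ * √δ) - M → ∀ S : Finset (ℕ × ℕ),
      (∀ b ≤ κ, δ * (κ - b) ≤ (S.filter fun s => s.2 = b).card + C) →
      ∃ (μ : ℂ) (ξ : ℂ[X]), μ ≠ 0 ∧ Sur S (1 + Polynomial.C μ * X) ξ (I0 n m) := by
  obtain ⟨hx0, -, -, M, hM, H⟩ := chain_auxS h hδ C
  refine ⟨M, fun κ m hm S hS => ?_⟩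
  have hδR : (1 : ℝ) ≤ δ := by exact_mod_cast hδ
  have hs : 0 < √(δ : ℝ) := Real.sqrt_pos.2 (by linarith)
  have hκ : 1 ≤ κ := by
    rcases Nat.eq_zero_or_pos κ with h0 | h0
    · rw [h0, Nat.cast_zero, zero_mul, mul_zero] at hm
      have : (0 : ℝ) ≤ x ^ 2 * m := by positivity
      linarith
    · exact h0
  have hκR : (1 : ℝ) ≤ κ := by exact_mod_cast hκ
  refine H κ hκ n m S hS fun S' hS' => ?_
  have hxn : (n : ℝ) ≤ x ^ 2 := by
    have h1 := pow_le_pow_left₀ (Real.sqrt_nonneg _) hx 2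
    rwa [Real.sq_sqrt (Nat.cast_nonneg n)] at h1
  exact ind_final hx0 hxn (by positivity) hn hm hS'

end Pool.Agent.Lib.MP_ed661f_ag.Z
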