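import Pool.Agent.Lib.MP_ed661f_ag.Z.Plan

/-! Plan data. -/

set_option autoImplicit false
set_option maxRecDepth 100000

namespace Pool.Agent.Lib.MP_ed661f_ag.Z

def dataA : List PlanD := [
  ⟨47, 50, 43, 685, rep [(0, 1, 9), (1, 6, 1), (1, 5, 2), (1, 4, 2), (1, 3, 1), (1, 2, 3), (1, 1,
    4)], 130, 133, 226, 443⟩,
  ⟨48, 51, 43, 692, rep [(0, 1, 9), (1, 6, 1), (1, 5, 2), (1, 4, 2), (1, 3, 1), (1, 2, 3), (1, 1,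
    5)], 133, 136, 227, 447⟩,
  ⟨49, 52, 44, 700, rep [(0, 1, 9), (1, 6, 1), (1, 5, 2), (1, 4, 2), (1, 3, 1), (1, 2, 3), (1, 1,
    6)], 136, 139, 228, 451⟩,
  ⟨49, 51, 44, 700, rep [(0, 1, 10), (1, 6, 1), (1, 5, 2), (1, 4, 1), (1, 3, 2), (1, 2, 2), (1,
    1, 6), (2, 2, 1)], 139, 141, 229, 455⟩,
  ⟨50, 53, 44, 707, rep [(0, 1, 9), (1, 6, 1), (1, 5, 2), (1, 4, 2), (1, 3, 1), (1, 2, 3), (1, 1,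
    4), (2, 2, 1)], 141, 144, 230, 459⟩,
  ⟨51, 53, 44, 714, rep [(0, 1, 8), (1, 6, 1), (1, 5, 2), (1, 4, 1), (1, 3, 2), (1, 2, 2), (1, 1,
    5), (2, 2, 2)], 145, 147, 231, 463⟩,
  ⟨52, 54, 44, 721, rep [(0, 1, 8), (1, 6, 1), (1, 5, 2), (1, 4, 1), (1, 3, 2), (1, 2, 3), (1, 1,
    4), (2, 2, 2)], 148, 150, 232, 467⟩,
  ⟨53, 54, 44, 728, rep [(0, 1, 8), (1, 6, 1), (1, 5, 2), (1, 4, 1), (1, 3, 2), (1, 2, 2), (1, 1,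
    7), (2, 2, 2)], 151, 152, 232, 467⟩,
  ⟨54, 56, 44, 734, rep [(0, 1, 8), (1, 6, 1), (1, 5, 2), (1, 4, 2), (1, 3, 1), (1, 2, 2), (1, 1,
    6), (2, 2, 2)], 152, 154, 233, 471⟩,
  ⟨54, 55, 44, 734, rep [(0, 1, 8), (1, 6, 1), (1, 5, 2), (1, 4, 1), (1, 3, 2), (1, 2, 2), (1, 1,
    4), (2, 2, 3)], 154, 155, 233, 471⟩,
  ⟨54, 54, 44, 734, rep [(0, 1, 8), (1, 6, 1), (1, 5, 2), (1, 4, 1), (1, 3, 1), (1, 2, 3), (1, 1,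
    6), (2, 2, 3)], 156, 156, 234, 475⟩,
  ⟨55, 56, 44, 741, rep [(0, 1, 8), (1, 6, 1), (1, 5, 2), (1, 4, 1), (1, 3, 2), (1, 2, 2), (1, 1,
    7), (2, 3, 1), (2, 2, 1)], 157, 158, 234, 475⟩,
  ⟨55, 55, 44, 741, rep [(0, 1, 8), (1, 6, 1), (1, 5, 2), (1, 4, 1), (1, 3, 2), (1, 2, 2), (1, 1,
    6), (2, 2, 3)], 159, 159, 235, 479⟩,
  ⟨56, 57, 44, 748, rep [(0, 1, 8), (1, 6, 1), (1, 5, 2), (1, 4, 1), (1, 3, 2), (1, 2, 3), (1, 1,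
    4), (2, 2, 3)], 160, 161, 235, 479⟩,
  ⟨57, 58, 45, 754, rep [(0, 1, 11), (1, 6, 2), (1, 5, 1), (1, 4, 1), (1, 3, 2), (1, 2, 2), (1,
    1, 4), (2, 2, 3)], 162, 163, 236, 483⟩,
  ⟨57, 59, 45, 754, rep [(0, 1, 8), (1, 6, 2), (1, 5, 1), (1, 4, 1), (1, 3, 2), (1, 2, 3), (1, 1,
    4), (2, 2, 3)], 163, 165, 236, 483⟩,
  ⟨58, 58, 45, 761, rep [(0, 1, 8), (1, 6, 2), (1, 5, 1), (1, 4, 1), (1, 3, 2), (1, 2, 2), (1, 1,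
    5), (2, 3, 1), (2, 2, 2)], 166, 166, 237, 487⟩,
  ⟨58, 59, 45, 761, rep [(0, 1, 9), (1, 6, 2), (1, 5, 1), (1, 4, 1), (1, 3, 2), (1, 2, 2), (1, 1,
    5), (2, 3, 1), (2, 2, 2)], 167, 168, 237, 487⟩,
  ⟨59, 60, 45, 768, rep [(0, 1, 9), (1, 6, 2), (1, 5, 1), (1, 4, 1), (1, 3, 2), (1, 2, 2), (1, 1,
    5), (2, 3, 1), (2, 2, 2)], 168, 169, 237, 487⟩,
  ⟨59, 60, 45, 768, rep [(0, 1, 9), (1, 6, 2), (1, 5, 1), (1, 4, 1), (1, 3, 2), (1, 2, 2), (1, 1,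
    4), (2, 2, 4)], 170, 171, 238, 491⟩,
  ⟨60, 62, 45, 774, rep [(0, 1, 9), (1, 6, 2), (1, 5, 1), (1, 4, 1), (1, 3, 2), (1, 2, 2), (1, 1,
    6), (2, 3, 1), (2, 2, 2)], 171, 173, 238, 491⟩,
  ⟨61, 62, 45, 781, rep [(0, 1, 9), (1, 6, 2), (1, 5, 1), (1, 4, 1), (1, 3, 2), (1, 2, 2), (1, 1,
    5), (2, 2, 4)], 174, 175, 239, 495⟩,
  ⟨61, 63, 45, 781, rep [(0, 1, 10), (1, 6, 2), (1, 5, 1), (1, 4, 2), (1, 3, 1), (1, 2, 2), (1,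
    1, 6), (2, 3, 1), (2, 2, 2)], 175, 177, 239, 495⟩,
  ⟨62, 63, 45, 787, rep [(0, 1, 10), (1, 6, 2), (1, 5, 1), (1, 4, 1), (1, 3, 2), (1, 2, 2), (1,
    1, 4), (2, 3, 1), (2, 2, 3)], 178, 179, 240, 500⟩,
  ⟨63, 64, 45, 793, rep [(0, 1, 9), (1, 6, 2), (1, 5, 1), (1, 4, 1), (1, 3, 2), (1, 2, 2), (1, 1,
    5), (2, 3, 1), (2, 2, 3)], 180, 181, 240, 500⟩,
  ⟨63, 64, 45, 793, rep [(0, 1, 9), (1, 6, 2), (1, 5, 1), (1, 4, 1), (1, 3, 2), (1, 2, 2), (1, 1,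
    6), (2, 3, 1), (2, 2, 3)], 182, 183, 241, 504⟩,
  ⟨64, 66, 45, 800, rep [(0, 1, 9), (1, 6, 2), (1, 5, 1), (1, 4, 2), (1, 3, 1), (1, 2, 2), (1, 1,
    5), (2, 3, 1), (2, 2, 3)], 183, 185, 242, 508⟩,
  ⟨65, 67, 45, 806, rep [(0, 1, 9), (1, 6, 2), (1, 5, 1), (1, 4, 2), (1, 3, 1), (1, 2, 2), (1, 1,
    6), (2, 3, 1), (2, 2, 3)], 186, 188, 242, 508⟩,
  ⟨66, 69, 46, 812, rep [(0, 1, 10), (1, 6, 2), (1, 5, 2), (1, 4, 1), (1, 3, 1), (1, 2, 2), (1,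
    1, 5), (2, 3, 1), (2, 2, 3)], 188, 191, 243, 512⟩,
  ⟨67, 69, 46, 818, rep [(0, 1, 10), (1, 6, 2), (1, 5, 2), (1, 4, 1), (1, 3, 1), (1, 2, 2), (1,
    1, 6), (2, 3, 1), (2, 2, 3)], 191, 193, 243, 512⟩,
  ⟨68, 72, 46, 824, rep [(0, 1, 9), (1, 7, 1), (1, 6, 1), (1, 5, 2), (1, 4, 1), (1, 3, 1), (1, 2,
    2), (1, 1, 6), (2, 3, 1), (2, 2, 3)], 193, 197, 244, 516⟩,
  ⟨69, 73, 46, 830, rep [(0, 1, 10), (1, 7, 1), (1, 6, 1), (1, 5, 1), (1, 4, 2), (1, 3, 1), (1,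
    2, 3), (1, 1, 6), (2, 3, 1), (2, 2, 3)], 197, 201, 245, 521⟩,
  ⟨71, 75, 46, 842, rep [(0, 1, 10), (1, 7, 1), (1, 6, 1), (1, 5, 1), (1, 4, 2), (1, 3, 1), (1,
    2, 2), (1, 1, 9), (2, 3, 1), (2, 2, 3)], 201, 205, 246, 525⟩,
  ⟨72, 77, 46, 848, rep [(0, 1, 11), (1, 7, 1), (1, 6, 1), (1, 5, 2), (1, 4, 1), (1, 3, 1), (1,
    2, 2), (1, 1, 5), (2, 3, 1), (2, 2, 4)], 205, 210, 247, 529⟩,
  ⟨74, 80, 46, 860, rep [(0, 1, 10), (1, 7, 1), (1, 6, 2), (1, 5, 1), (1, 4, 1), (1, 3, 1), (1,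
    2, 2), (1, 1, 6), (2, 3, 1), (2, 2, 4)], 210, 216, 249, 538⟩,
  ⟨77, 85, 46, 877, rep [(0, 1, 11), (1, 7, 2), (1, 6, 1), (1, 5, 1), (1, 4, 1), (1, 3, 1), (1,
    2, 3), (1, 1, 4), (2, 3, 1), (2, 2, 4)], 216, 224, 250, 542⟩,
  ⟨80, 89, 47, 894, rep [(0, 1, 12), (1, 7, 2), (1, 6, 1), (1, 5, 1), (1, 4, 1), (1, 3, 1), (1,
    2, 3), (1, 1, 6), (2, 3, 1), (2, 2, 4)], 224, 233, 252, 551⟩,
  ⟨83, 92, 47, 911, rep [(0, 1, 12), (1, 7, 2), (1, 6, 1), (1, 5, 1), (1, 4, 1), (1, 3, 2), (1,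
    2, 2), (1, 1, 4), (2, 3, 1), (2, 2, 5)], 233, 242, 254, 559⟩,
  ⟨86, 95, 47, 927, rep [(0, 1, 16), (1, 8, 1), (1, 7, 1), (1, 6, 1), (1, 5, 1), (1, 4, 1), (1,
    3, 1), (1, 2, 2), (1, 1, 5), (2, 3, 1), (2, 2, 5), (2, 1, 1)], 242, 251, 256, 568⟩,
  ⟨90, 102, 48, 948, rep [(0, 1, 13), (1, 8, 1), (1, 7, 1), (1, 6, 1), (1, 5, 1), (1, 4, 1), (1,
    3, 2), (1, 2, 2), (1, 1, 4), (2, 3, 1), (2, 2, 6)], 251, 263, 258, 577⟩,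
  ⟨94, 106, 48, 969, rep [(0, 1, 13), (1, 8, 1), (1, 7, 1), (1, 6, 1), (1, 5, 1), (1, 4, 2), (1,
    3, 1), (1, 2, 2), (1, 1, 5), (2, 3, 2), (2, 2, 5)], 263, 275, 260, 586⟩,
  ⟨99, 115, 48, 994, rep [(0, 1, 12), (1, 8, 1), (1, 7, 1), (1, 6, 2), (1, 5, 1), (1, 4, 1), (1,
    3, 1), (1, 2, 2), (1, 1, 7), (2, 3, 2), (2, 2, 5)], 275, 291, 262, 595⟩,
  ⟨106, 126, 49, 1029, rep [(0, 1, 13), (1, 8, 2), (1, 7, 1), (1, 6, 1), (1, 5, 1), (1, 4, 1),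
    (1, 3, 1), (1, 2, 2), (1, 1, 7), (2, 3, 2), (2, 2, 5), (2, 1, 1)], 291, 311, 265, 609⟩,
  ⟨114, 138, 49, 1067, rep [(0, 1, 15), (1, 9, 1), (1, 8, 1), (1, 7, 1), (1, 6, 1), (1, 5, 1),
    (1, 4, 1), (1, 3, 1), (1, 2, 2), (1, 1, 7), (2, 3, 3), (2, 2, 5)], 311, 335, 269, 627⟩,
  ⟨123, 150, 50, 1109, rep [(0, 1, 14), (1, 9, 1), (1, 8, 1), (1, 7, 1), (1, 6, 1), (1, 5, 2),
    (1, 4, 1), (1, 3, 1), (1, 2, 2), (1, 1, 6), (2, 3, 3), (2, 2, 5), (2, 1, 2)], 335, 362, 272,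
    642⟩,
  ⟨133, 163, 50, 1153, rep [(0, 1, 15), (1, 9, 2), (1, 7, 1), (1, 6, 2), (1, 5, 1), (1, 4, 1),
    (1, 3, 1), (1, 2, 2), (1, 1, 6), (2, 3, 3), (2, 2, 5), (2, 1, 5)], 362, 392, 276, 661⟩,
  ⟨145, 182, 51, 1204, rep [(0, 1, 17), (1, 10, 1), (1, 9, 1), (1, 8, 1), (1, 6, 2), (1, 5, 1),
    (1, 4, 1), (1, 3, 1), (1, 2, 2), (1, 1, 6), (2, 3, 4), (2, 2, 5), (2, 1, 5)], 392, 429, 280,
    680⟩,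
  ⟨159, 200, 52, 1260, rep [(0, 1, 16), (1, 10, 2), (1, 8, 1), (1, 7, 1), (1, 6, 1), (1, 5, 1),
    (1, 4, 2), (1, 3, 1), (1, 2, 2), (1, 1, 6), (2, 3, 4), (2, 2, 5), (2, 1, 8)], 429, 470, 285,
    704⟩,
  ⟨176, 227, 52, 1326, rep [(0, 1, 18), (1, 11, 1), (1, 10, 1), (1, 9, 1), (1, 7, 1), (1, 6, 1),
    (1, 5, 1), (1, 4, 2), (1, 3, 1), (1, 2, 2), (1, 1, 7), (2, 3, 5), (2, 2, 5), (2, 1, 9)], 470,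
    521, 289, 724⟩,
  ⟨197, 261, 53, 1403, rep [(0, 1, 20), (1, 12, 1), (1, 10, 1), (1, 9, 1), (1, 8, 1), (1, 7, 1),
    (1, 6, 1), (1, 5, 1), (1, 4, 1), (1, 3, 1), (1, 2, 3), (1, 1, 6), (2, 4, 1), (2, 3, 4), (2, 2,
    5), (2, 1, 12)], 521, 585, 295, 755⟩,
  ⟨224, 305, 54, 1496, rep [(0, 1, 21), (1, 13, 1), (1, 11, 1), (1, 10, 1), (1, 9, 1), (1, 7, 1),
    (1, 6, 1), (1, 5, 1), (1, 4, 2), (1, 3, 1), (1, 2, 3), (1, 1, 6), (2, 4, 1), (2, 3, 5), (2, 2,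
    5), (2, 1, 14)], 585, 666, 301, 785⟩,
  ⟨262, 376, 55, 1618, rep [(0, 1, 24), (1, 14, 1), (1, 12, 1), (1, 11, 1), (1, 10, 1), (1, 8,
    1), (1, 7, 1), (1, 6, 1), (1, 5, 1), (1, 4, 1), (1, 3, 2), (1, 2, 2), (1, 1, 7), (2, 4, 2), (2,
    3, 4), (2, 2, 6), (2, 1, 16)], 666, 780, 308, 822⟩,
  ⟨305, 433, 56, 1746, rep [(0, 1, 25), (1, 15, 1), (1, 13, 1), (1, 12, 1), (1, 10, 1), (1, 9,
    1), (1, 7, 1), (1, 6, 1), (1, 5, 1), (1, 4, 1), (1, 3, 2), (1, 2, 3), (1, 1, 6), (2, 4, 3), (2,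
    3, 4), (2, 2, 6), (2, 1, 15), (3, 2, 3)], 780, 908, 315, 860⟩,
  ⟨353, 497, 58, 1878, rep [(0, 1, 27), (1, 16, 1), (1, 14, 1), (1, 12, 1), (1, 10, 1), (1, 9,
    1), (1, 8, 1), (1, 6, 1), (1, 5, 1), (1, 4, 2), (1, 3, 1), (1, 2, 3), (1, 1, 7), (2, 4, 3), (2,
    3, 4), (2, 2, 6), (2, 1, 16), (3, 2, 7)], 908, 1052, 322, 899⟩,
  ⟨407, 569, 59, 2017, rep [(0, 1, 29), (1, 17, 1), (1, 15, 1), (1, 13, 1), (1, 11, 1), (1, 9,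
    1), (1, 8, 1), (1, 6, 1), (1, 5, 1), (1, 4, 2), (1, 3, 1), (1, 2, 3), (1, 1, 5), (2, 4, 4), (2,
    3, 3), (2, 2, 7), (2, 1, 14), (3, 2, 12)], 1052, 1214, 328, 933⟩,
  ⟨475, 679, 60, 2179, rep [(0, 1, 33), (1, 18, 1), (1, 16, 1), (1, 14, 1), (1, 12, 1), (1, 11,
    1), (1, 9, 1), (1, 7, 1), (1, 6, 1), (1, 5, 1), (1, 4, 2), (1, 3, 1), (1, 2, 3), (1, 1, 6), (2,
    5, 1), (2, 4, 3), (2, 3, 3), (2, 2, 7), (2, 1, 16), (3, 2, 15)], 1214, 1418, 336, 979⟩,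
  ⟨561, 818, 61, 2368, rep [(0, 1, 35), (1, 20, 1), (1, 18, 1), (1, 15, 1), (1, 13, 1), (1, 11,
    1), (1, 9, 1), (1, 8, 1), (1, 7, 1), (1, 5, 2), (1, 4, 1), (1, 3, 2), (1, 2, 2), (1, 1, 8), (2,
    5, 2), (2, 4, 3), (2, 3, 4), (2, 2, 6), (2, 1, 15), (3, 3, 1), (3, 2, 17), (3, 1, 2)], 1418,
    1675, 343, 1020⟩,
  ⟨669, 994, 63, 2586, rep [(0, 1, 40), (1, 22, 1), (1, 19, 1), (1, 17, 1), (1, 15, 1), (1, 12,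
    1), (1, 11, 1), (1, 9, 1), (1, 7, 1), (1, 6, 1), (1, 5, 1), (1, 4, 2), (1, 3, 1), (1, 2, 3),
    (1, 1, 7), (2, 5, 3), (2, 4, 3), (2, 3, 4), (2, 2, 6), (2, 1, 17), (3, 3, 1), (3, 2, 17), (3,
    1, 13)], 1675, 2000, 351, 1068⟩,
  ⟨791, 1156, 64, 2812, rep [(0, 1, 43), (1, 24, 1), (1, 21, 1), (1, 18, 1), (1, 15, 1), (1, 13,
    1), (1, 11, 1), (1, 9, 1), (1, 7, 1), (1, 6, 1), (1, 5, 1), (1, 4, 1), (1, 3, 2), (1, 2, 3),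
    (1, 1, 6), (2, 6, 1), (2, 5, 2), (2, 4, 3), (2, 3, 4), (2, 2, 6), (2, 1, 16), (3, 3, 2), (3, 2,
    16), (3, 1, 36)], 2000, 2365, 359, 1117⟩,
  ⟨944, 1405, 66, 3072, rep [(0, 1, 47), (1, 26, 1), (1, 23, 1), (1, 20, 1), (1, 17, 1), (1, 14,
    1), (1, 12, 1), (1, 10, 1), (1, 8, 1), (1, 7, 1), (1, 5, 2), (1, 4, 1), (1, 3, 1), (1, 2, 4),
    (1, 1, 7), (2, 6, 1), (2, 5, 3), (2, 4, 3), (2, 3, 4), (2, 2, 6), (2, 1, 18), (3, 3, 3), (3, 2,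
    16), (3, 1, 51)], 2365, 2826, 367, 1167⟩,
  ⟨1162, 1816, 68, 3408, rep [(0, 1, 54), (1, 29, 1), (1, 26, 1), (1, 22, 1), (1, 20, 1), (1, 17,
    1), (1, 14, 1), (1, 12, 1), (1, 10, 1), (1, 9, 1), (1, 7, 1), (1, 6, 1), (1, 5, 1), (1, 4, 2),
    (1, 3, 1), (1, 2, 4), (1, 1, 7), (2, 6, 3), (2, 5, 2), (2, 4, 4), (2, 3, 4), (2, 2, 7), (2, 1,
    19), (3, 3, 4), (3, 2, 18), (3, 1, 58)], 2826, 3480, 377, 1232⟩,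
  ⟨1472, 2401, 70, 3836, rep [(0, 1, 64), (1, 33, 1), (1, 30, 1), (1, 26, 1), (1, 23, 1), (1, 20,
    1), (1, 17, 1), (1, 14, 1), (1, 12, 1), (1, 10, 1), (1, 9, 1), (1, 8, 1), (1, 6, 2), (1, 5, 1),
    (1, 4, 1), (1, 3, 2), (1, 2, 3), (1, 1, 9), (2, 7, 1), (2, 6, 3), (2, 5, 3), (2, 4, 3), (2, 3,
    5), (2, 2, 7), (2, 1, 23), (3, 3, 7), (3, 2, 19), (4, 4, 2), (3, 1, 47), (4, 2, 2)], 3480,
    4409, 388, 1305⟩,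
  ⟨1864, 3039, 73, 4317, rep [(0, 1, 71), (1, 37, 1), (1, 33, 1), (1, 29, 1), (1, 25, 1), (1, 22,
    1), (1, 19, 1), (1, 16, 1), (1, 14, 1), (1, 12, 1), (1, 10, 1), (1, 8, 1), (1, 7, 1), (1, 6,
    1), (1, 5, 1), (1, 4, 2), (1, 3, 2), (1, 2, 3), (1, 1, 8), (2, 7, 3), (2, 6, 2), (2, 5, 3), (2,
    4, 3), (2, 3, 5), (2, 2, 8), (2, 1, 22), (3, 3, 10), (3, 2, 19), (3, 1, 65), (4, 2, 13)], 4409,
    5584, 399, 1380⟩,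
  ⟨2359, 3845, 75, 4856, rep [(0, 1, 81), (1, 42, 1), (1, 37, 1), (1, 32, 1), (1, 28, 1), (1, 24,
    1), (1, 21, 1), (1, 18, 1), (1, 15, 1), (1, 13, 1), (1, 11, 1), (1, 9, 1), (1, 7, 1), (1, 6,
    2), (1, 5, 1), (1, 4, 1), (1, 3, 2), (1, 2, 4), (1, 1, 8), (2, 8, 1), (2, 7, 3), (2, 6, 2), (2,
    5, 3), (2, 4, 3), (2, 3, 5), (2, 2, 8), (2, 1, 23), (3, 4, 1), (3, 3, 12), (3, 2, 19), (3, 1,
    63), (4, 2, 29)], 5584, 7070, 410, 1457⟩,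
  ⟨3063, 5176, 78, 5534, rep [(0, 1, 95), (1, 48, 1), (1, 43, 1), (1, 37, 1), (1, 33, 1), (1, 29,
    1), (1, 25, 1), (1, 21, 1), (1, 18, 1), (1, 16, 1), (1, 13, 1), (1, 12, 1), (1, 10, 1), (1, 8,
    1), (1, 7, 1), (1, 6, 1), (1, 5, 2), (1, 4, 1), (1, 3, 3), (1, 2, 3), (1, 1, 9), (2, 9, 1), (2,
    8, 2), (2, 7, 2), (2, 6, 2), (2, 5, 4), (2, 4, 4), (2, 3, 5), (2, 2, 9), (2, 1, 24), (3, 4, 2),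
    (3, 3, 14), (3, 2, 21), (3, 1, 74), (4, 2, 40)], 7070, 9183, 422, 1543⟩,
  ⟨3768, 5881, 80, 6138, rep [(0, 1, 97), (1, 52, 1), (1, 45, 1), (1, 39, 1), (1, 33, 1), (1, 28,
    1), (1, 24, 1), (1, 20, 1), (1, 17, 1), (1, 15, 1), (1, 12, 1), (1, 10, 1), (1, 9, 1), (1, 7,
    1), (1, 6, 1), (1, 5, 2), (1, 4, 1), (1, 3, 2), (1, 2, 3), (1, 1, 8), (2, 9, 2), (2, 8, 1), (2,
    7, 2), (2, 6, 2), (2, 5, 3), (2, 4, 4), (2, 3, 4), (2, 2, 8), (2, 1, 21), (3, 4, 3), (3, 3,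
    10), (3, 2, 18), (3, 1, 63), (4, 2, 63), (4, 1, 59)], 9183, 11296, 431, 1610⟩,
  ⟨4560, 6937, 82, 6752, rep [(0, 1, 104), (1, 57, 1), (1, 49, 1), (1, 41, 1), (1, 35, 1), (1,
    30, 1), (1, 25, 1), (1, 21, 1), (1, 17, 1), (1, 14, 1), (1, 12, 1), (1, 10, 1), (1, 9, 1), (1,
    7, 1), (1, 6, 1), (1, 5, 1), (1, 4, 1), (1, 3, 3), (1, 2, 3), (1, 1, 7), (2, 10, 1), (2, 9, 1),
    (2, 8, 2), (2, 7, 1), (2, 6, 3), (2, 5, 2), (2, 4, 3), (2, 3, 5), (2, 2, 7), (2, 1, 21), (3, 4,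
    4), (3, 3, 10), (3, 2, 17), (3, 1, 60), (4, 2, 53), (4, 1, 160)], 11296, 13673, 440, 1678⟩,
  ⟨5688, 9072, 84, 7541, rep [(0, 1, 121), (1, 64, 1), (1, 56, 1), (1, 48, 1), (1, 41, 1), (1,
    35, 1), (1, 30, 1), (1, 26, 1), (1, 22, 1), (1, 18, 1), (1, 15, 1), (1, 13, 1), (1, 11, 1), (1,
    10, 1), (1, 8, 1), (1, 7, 1), (1, 6, 1), (1, 5, 1), (1, 4, 1), (1, 3, 2), (1, 2, 4), (1, 1, 7),
    (2, 10, 2), (2, 9, 2), (2, 8, 1), (2, 7, 2), (2, 6, 3), (2, 5, 2), (2, 4, 4), (2, 3, 5), (2, 2,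
    8), (2, 1, 23), (3, 4, 7), (3, 3, 12), (3, 2, 19), (3, 1, 70), (4, 3, 1), (4, 2, 56), (4, 1,
    22), (5, 4, 3), (4, 1, 150)], 13673, 17057, 450, 1755⟩,
  ⟨7494, 12913, 88, 8656, rep [(0, 1, 151), (1, 75, 1), (1, 66, 1), (1, 58, 1), (1, 51, 1), (1,
    45, 1), (1, 39, 1), (1, 33, 1), (1, 29, 1), (1, 25, 1), (1, 22, 1), (1, 19, 1), (1, 16, 1), (1,
    14, 1), (1, 12, 1), (1, 10, 1), (1, 8, 1), (1, 7, 1), (1, 6, 2), (1, 5, 1), (1, 4, 2), (1, 3,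
    2), (1, 2, 4), (1, 1, 10), (2, 12, 1), (2, 11, 1), (2, 10, 2), (2, 9, 2), (2, 8, 2), (2, 7, 2),
    (2, 6, 3), (2, 5, 3), (2, 4, 4), (2, 3, 6), (2, 2, 10), (2, 1, 28), (3, 5, 2), (3, 4, 10), (3,
    3, 14), (3, 2, 24), (3, 1, 87), (4, 3, 4), (4, 2, 66), (5, 4, 5), (4, 1, 159), (5, 2, 2)],
    17057, 22476, 463, 1858⟩,
  ⟨10066, 17781, 91, 10032, rep [(0, 1, 178), (1, 88, 1), (1, 78, 1), (1, 68, 1), (1, 60, 1), (1,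
    53, 1), (1, 46, 1), (1, 40, 1), (1, 35, 1), (1, 30, 1), (1, 26, 1), (1, 23, 1), (1, 19, 1), (1,
    17, 1), (1, 15, 1), (1, 13, 1), (1, 11, 1), (1, 9, 1), (1, 8, 1), (1, 7, 1), (1, 6, 2), (1, 5,
    1), (1, 4, 2), (1, 3, 2), (1, 2, 4), (1, 1, 9), (2, 13, 1), (2, 12, 2), (2, 11, 1), (2, 10, 2),
    (2, 9, 2), (2, 8, 2), (2, 7, 2), (2, 6, 4), (2, 5, 3), (2, 4, 5), (2, 3, 6), (2, 2, 11), (2, 1,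
    32), (3, 5, 5), (3, 4, 11), (3, 3, 15), (3, 2, 27), (3, 1, 96), (4, 3, 9), (4, 2, 72), (5, 4,
    12), (4, 1, 113), (5, 2, 26)], 22476, 30191, 477, 1972⟩,
  ⟨13727, 24710, 95, 11716, rep [(0, 1, 212), (1, 103, 1), (1, 91, 1), (1, 81, 1), (1, 71, 1),
    (1, 62, 1), (1, 55, 1), (1, 48, 1), (1, 42, 1), (1, 36, 1), (1, 32, 1), (1, 28, 1), (1, 24, 1),
    (1, 21, 1), (1, 18, 1), (1, 16, 1), (1, 14, 1), (1, 12, 1), (1, 10, 1), (1, 9, 1), (1, 8, 1),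
    (1, 7, 1), (1, 6, 1), (1, 5, 1), (1, 4, 2), (1, 3, 2), (1, 2, 5), (1, 1, 11), (2, 14, 2), (2,
    13, 1), (2, 12, 2), (2, 11, 1), (2, 10, 2), (2, 9, 2), (2, 8, 3), (2, 7, 2), (2, 6, 3), (2, 5,
    4), (2, 4, 5), (2, 3, 8), (2, 2, 11), (2, 1, 34), (3, 5, 10), (3, 4, 12), (3, 3, 17), (3, 2,
    30), (3, 1, 105), (4, 3, 17), (4, 2, 76), (5, 4, 25), (4, 1, 83), (5, 2, 49)], 30191, 41174,
    491, 2089⟩,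
  ⟨18360, 32259, 98, 13549, rep [(0, 1, 240), (1, 118, 1), (1, 104, 1), (1, 91, 1), (1, 80, 1),
    (1, 70, 1), (1, 61, 1), (1, 53, 1), (1, 46, 1), (1, 40, 1), (1, 34, 1), (1, 30, 1), (1, 26, 1),
    (1, 22, 1), (1, 19, 1), (1, 17, 1), (1, 14, 1), (1, 13, 1), (1, 11, 1), (1, 9, 1), (1, 8, 1),
    (1, 7, 1), (1, 6, 2), (1, 5, 1), (1, 4, 2), (1, 3, 2), (1, 2, 4), (1, 1, 9), (2, 16, 1), (2,
    15, 1), (2, 14, 1), (2, 13, 1), (2, 12, 2), (2, 11, 2), (2, 10, 1), (2, 9, 2), (2, 8, 3), (2,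
    7, 2), (2, 6, 3), (2, 5, 4), (2, 4, 4), (2, 3, 7), (2, 2, 12), (2, 1, 32), (3, 6, 3), (3, 5,
    8), (3, 4, 12), (3, 3, 16), (3, 2, 29), (3, 1, 103), (4, 3, 25), (4, 2, 72), (4, 1, 324), (5,
    2, 130)], 41174, 55073, 504, 2201⟩,
  ⟨48464, 53310, 99, 22014, [(0, 1, 243), (1, 88, 7), (1, 65, 2), (1, 48, 2), (1, 35, 2), (1, 26,
    1), (1, 19, 2), (1, 14, 2), (1, 10, 2), (1, 8, 1), (1, 6, 1), (1, 5, 1), (1, 4, 1), (1, 3, 1),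
    (1, 2, 2), (1, 1, 4), (2, 14, 5), (2, 10, 3), (2, 8, 2), (2, 6, 2), (2, 5, 1), (2, 4, 2), (2,
    3, 2), (2, 2, 4), (2, 1, 10), (3, 6, 4), (3, 5, 2), (3, 4, 3), (3, 3, 4), (3, 2, 6), (3, 1,
    22), (4, 4, 1), (4, 3, 6), (4, 2, 11), (4, 1, 54), (5, 2, 20)], 55067, 59913, 508, 2236⟩,
  ⟨47032, 53146, 101, 21686, [(0, 1, 246), (1, 88, 7), (1, 65, 2), (1, 48, 2), (1, 35, 2), (1,
    26, 2), (1, 19, 2), (1, 14, 2), (1, 10, 2), (1, 8, 1), (1, 6, 1), (1, 5, 1), (1, 4, 1), (1, 3,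
    1), (1, 2, 2), (1, 1, 4), (2, 19, 2), (2, 14, 3), (2, 10, 3), (2, 8, 2), (2, 6, 2), (2, 5, 2),
    (2, 4, 2), (2, 3, 2), (2, 2, 4), (2, 1, 10), (3, 6, 4), (3, 5, 2), (3, 4, 3), (3, 3, 4), (3, 2,
    7), (3, 1, 25), (4, 4, 2), (4, 3, 6), (4, 2, 13), (4, 1, 62), (5, 8, 1), (5, 6, 12), (5, 5, 6),
    (5, 4, 7), (5, 3, 11), (5, 2, 25)], 59838, 65952, 513, 2281⟩,
  ⟨57708, 66335, 102, 24022, [(0, 1, 277), (1, 160, 2), (1, 119, 2), (1, 88, 2), (1, 65, 2), (1,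
    48, 2), (1, 35, 2), (1, 26, 2), (1, 19, 2), (1, 14, 2), (1, 10, 2), (1, 8, 1), (1, 6, 2), (1,
    5, 1), (1, 4, 1), (1, 3, 2), (1, 2, 2), (1, 1, 4), (2, 19, 2), (2, 14, 3), (2, 10, 3), (2, 8,
    2), (2, 6, 3), (2, 5, 2), (2, 4, 2), (2, 3, 3), (2, 2, 4), (2, 1, 11), (3, 8, 1), (3, 6, 4),
    (3, 5, 2), (3, 4, 3), (3, 3, 4), (3, 2, 7), (3, 1, 26), (4, 4, 2), (4, 3, 7), (4, 2, 14), (4,
    1, 66), (5, 3, 1), (5, 2, 26)], 65743, 74370, 518, 2325⟩,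
  ⟨65074, 73537, 103, 25509, [(0, 1, 289), (1, 119, 5), (1, 88, 2), (1, 65, 2), (1, 48, 2), (1,
    35, 2), (1, 26, 2), (1, 19, 2), (1, 14, 2), (1, 10, 2), (1, 8, 1), (1, 6, 1), (1, 5, 1), (1, 4,
    1), (1, 3, 1), (1, 2, 2), (1, 1, 4), (2, 19, 3), (2, 14, 3), (2, 10, 3), (2, 8, 2), (2, 6, 2),
    (2, 5, 2), (2, 4, 2), (2, 3, 2), (2, 2, 4), (2, 1, 10), (3, 8, 1), (3, 6, 4), (3, 5, 2), (3, 4,
    3), (3, 3, 4), (3, 2, 7), (3, 1, 25), (4, 4, 3), (4, 3, 6), (4, 2, 13), (4, 1, 60), (5, 3, 1),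
    (5, 2, 23)], 72901, 81364, 522, 2361⟩,
  ⟨63464, 72956, 105, 25192, [(0, 1, 291), (1, 119, 5), (1, 88, 2), (1, 65, 2), (1, 48, 2), (1,
    35, 2), (1, 26, 2), (1, 19, 2), (1, 14, 2), (1, 10, 2), (1, 8, 1), (1, 6, 2), (1, 5, 1), (1, 4,
    1), (1, 3, 2), (1, 2, 2), (1, 1, 4), (2, 19, 3), (2, 14, 3), (2, 10, 3), (2, 8, 2), (2, 6, 3),
    (2, 5, 2), (2, 4, 2), (2, 3, 3), (2, 2, 4), (2, 1, 11), (3, 8, 1), (3, 6, 4), (3, 5, 2), (3, 4,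
    3), (3, 3, 4), (3, 2, 7), (3, 1, 26), (4, 4, 3), (4, 3, 7), (4, 2, 14), (4, 1, 66), (5, 3, 1),
    (5, 2, 26), (5, 1, 299)], 81295, 90787, 528, 2416⟩,
  ⟨71268, 83526, 106, 26696, [(0, 1, 314), (1, 119, 6), (1, 88, 2), (1, 65, 2), (1, 48, 2), (1,
    35, 2), (1, 26, 2), (1, 19, 2), (1, 14, 2), (1, 10, 2), (1, 8, 1), (1, 6, 2), (1, 5, 1), (1, 4,
    1), (1, 3, 2), (1, 2, 2), (1, 1, 5), (2, 19, 3), (2, 14, 3), (2, 10, 3), (2, 8, 2), (2, 6, 3),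
    (2, 5, 2), (2, 4, 2), (2, 3, 3), (2, 2, 4), (2, 1, 12), (3, 8, 1), (3, 6, 5), (3, 5, 3), (3, 4,
    3), (3, 3, 4), (3, 2, 8), (3, 1, 28), (4, 4, 3), (4, 3, 8), (4, 2, 15), (4, 1, 72), (5, 3, 2),
    (5, 2, 29), (5, 1, 319)], 90590, 102848, 533, 2462⟩,
  ⟨72508, 88721, 108, 26927, [(0, 1, 331), (1, 160, 3), (1, 119, 2), (1, 88, 2), (1, 65, 2), (1,
    48, 2), (1, 35, 2), (1, 26, 2), (1, 19, 2), (1, 14, 2), (1, 10, 2), (1, 8, 1), (1, 6, 2), (1,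
    5, 1), (1, 4, 1), (1, 3, 2), (1, 2, 2), (1, 1, 5), (2, 19, 4), (2, 14, 3), (2, 10, 4), (2, 8,
    2), (2, 6, 3), (2, 5, 2), (2, 4, 2), (2, 3, 3), (2, 2, 5), (2, 1, 13), (3, 8, 2), (3, 6, 5),
    (3, 5, 3), (3, 4, 4), (3, 3, 5), (3, 2, 9), (3, 1, 33), (4, 4, 4), (4, 3, 9), (4, 2, 18), (4,
    1, 89), (5, 8, 1), (5, 6, 18), (5, 5, 9), (5, 4, 10), (5, 3, 16), (5, 2, 37), (5, 1, 377)],
    102783, 118996, 540, 2527⟩,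
  ⟨86272, 108457, 111, 29372, [(0, 1, 370), (1, 160, 4), (1, 119, 2), (1, 88, 2), (1, 65, 2), (1,
    48, 2), (1, 35, 2), (1, 26, 2), (1, 19, 2), (1, 14, 2), (1, 10, 2), (1, 8, 1), (1, 6, 2), (1,
    5, 1), (1, 4, 1), (1, 3, 2), (1, 2, 2), (1, 1, 5), (2, 19, 5), (2, 14, 3), (2, 10, 4), (2, 8,
    2), (2, 6, 3), (2, 5, 2), (2, 4, 2), (2, 3, 3), (2, 2, 5), (2, 1, 14), (3, 8, 3), (3, 6, 6),
    (3, 5, 3), (3, 4, 4), (3, 3, 6), (3, 2, 10), (3, 1, 37), (4, 4, 6), (4, 3, 10), (4, 2, 21), (4,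
    1, 100), (5, 6, 1), (5, 5, 8), (5, 4, 12), (5, 3, 20), (5, 2, 46), (5, 1, 494)], 118898,
    141083, 548, 2602⟩,
  ⟨106518, 138018, 114, 32637, [(0, 1, 424), (1, 160, 6), (1, 119, 2), (1, 88, 2), (1, 65, 2),
    (1, 48, 2), (1, 35, 2), (1, 26, 2), (1, 19, 2), (1, 14, 2), (1, 10, 2), (1, 8, 1), (1, 6, 2),
    (1, 5, 1), (1, 4, 1), (1, 3, 2), (1, 2, 3), (1, 1, 5), (2, 26, 2), (2, 19, 4), (2, 14, 4), (2,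
    10, 4), (2, 8, 3), (2, 6, 3), (2, 5, 2), (2, 4, 3), (2, 3, 3), (2, 2, 6), (2, 1, 15), (3, 8,
    4), (3, 6, 6), (3, 5, 3), (3, 4, 4), (3, 3, 6), (3, 2, 11), (3, 1, 41), (4, 4, 9), (4, 3, 12),
    (4, 2, 24), (4, 1, 115), (5, 3, 5), (5, 2, 51), (5, 1, 628)], 140986, 172486, 557, 2689⟩,
  ⟨147476, 185419, 116, 38402, [(0, 1, 484), (1, 217, 4), (1, 160, 2), (1, 119, 2), (1, 88, 2),
    (1, 65, 2), (1, 48, 2), (1, 35, 2), (1, 26, 2), (1, 19, 2), (1, 14, 2), (1, 10, 2), (1, 8, 1),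
    (1, 6, 2), (1, 5, 1), (1, 4, 1), (1, 3, 2), (1, 2, 2), (1, 1, 5), (2, 26, 3), (2, 19, 4), (2,
    14, 3), (2, 10, 4), (2, 8, 2), (2, 6, 3), (2, 5, 2), (2, 4, 2), (2, 3, 3), (2, 2, 5), (2, 1,
    14), (3, 10, 1), (3, 8, 4), (3, 6, 6), (3, 5, 3), (3, 4, 4), (3, 3, 6), (3, 2, 10), (3, 1, 37),
    (4, 5, 2), (4, 4, 7), (4, 3, 10), (4, 2, 21), (4, 1, 98), (5, 3, 7), (5, 2, 42), (5, 1, 341)],
    172476, 210419, 566, 2776⟩,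
  ⟨192534, 222255, 118, 43878, [(0, 1, 508), (1, 293, 2), (1, 217, 2), (1, 160, 2), (1, 119, 2),
    (1, 88, 2), (1, 65, 2), (1, 48, 2), (1, 35, 2), (1, 26, 2), (1, 19, 2), (1, 14, 2), (1, 10, 2),
    (1, 8, 1), (1, 6, 2), (1, 5, 1), (1, 4, 1), (1, 3, 2), (1, 2, 2), (1, 1, 4), (2, 26, 3), (2,
    19, 3), (2, 14, 3), (2, 10, 3), (2, 8, 2), (2, 6, 3), (2, 5, 2), (2, 4, 2), (2, 3, 3), (2, 2,
    4), (2, 1, 11), (3, 10, 2), (3, 8, 3), (3, 6, 4), (3, 5, 2), (3, 4, 3), (3, 3, 4), (3, 2, 8),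
    (3, 1, 27), (4, 5, 3), (4, 4, 5), (4, 3, 7), (4, 2, 14), (4, 1, 64), (5, 3, 6), (5, 2, 26), (5,
    1, 172)], 209924, 239645, 572, 2835⟩,
  ⟨220474, 246000, 119, 46954, [(0, 1, 525), (1, 293, 2), (1, 217, 2), (1, 160, 2), (1, 119, 2),
    (1, 88, 2), (1, 65, 2), (1, 48, 2), (1, 35, 2), (1, 26, 2), (1, 19, 2), (1, 14, 2), (1, 10, 2),
    (1, 8, 1), (1, 6, 1), (1, 5, 1), (1, 4, 1), (1, 3, 1), (1, 2, 2), (1, 1, 4), (2, 35, 1), (2,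
    26, 2), (2, 19, 3), (2, 14, 3), (2, 10, 3), (2, 8, 2), (2, 6, 2), (2, 5, 2), (2, 4, 2), (2, 3,
    2), (2, 2, 4), (2, 1, 10), (3, 10, 2), (3, 8, 3), (3, 6, 4), (3, 5, 2), (3, 4, 3), (3, 3, 4),
    (3, 2, 7), (3, 1, 24), (4, 5, 3), (4, 4, 4), (4, 3, 6), (4, 2, 12), (4, 1, 54), (5, 3, 6), (5,
    2, 21), (5, 1, 136)], 236011, 261537, 576, 2875⟩,
  ⟨245845, 267192, 121, 49582, [(0, 1, 540), (1, 395, 1), (1, 293, 1), (1, 217, 1), (1, 160, 1),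
    (1, 119, 1), (1, 88, 1), (1, 65, 1), (1, 48, 1), (1, 35, 2), (1, 26, 1), (1, 19, 2), (1, 14,
    1), (1, 10, 2), (1, 8, 1), (1, 6, 1), (1, 5, 1), (1, 4, 1), (1, 3, 1), (1, 2, 2), (1, 1, 4),
    (2, 35, 1), (2, 26, 2), (2, 19, 3), (2, 14, 2), (2, 10, 3), (2, 8, 2), (2, 6, 2), (2, 5, 1),
    (2, 4, 2), (2, 3, 2), (2, 2, 4), (2, 1, 9), (3, 10, 2), (3, 8, 3), (3, 6, 4), (3, 5, 2), (3, 4,
    3), (3, 3, 4), (3, 2, 6), (3, 1, 21), (4, 5, 3), (4, 4, 4), (4, 3, 5), (4, 2, 11), (4, 1, 48),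
    (5, 3, 6), (5, 2, 18), (5, 1, 114), (6, 2, 20)], 261495, 282842, 580, 2915⟩,
  ⟨241830, 269128, 122, 49176, [(0, 1, 548), (1, 217, 6), (1, 160, 2), (1, 119, 2), (1, 88, 2),
    (1, 65, 2), (1, 48, 2), (1, 35, 2), (1, 26, 2), (1, 19, 2), (1, 14, 2), (1, 10, 2), (1, 8, 1),
    (1, 6, 1), (1, 5, 1), (1, 4, 1), (1, 3, 1), (1, 2, 2), (1, 1, 4), (2, 35, 1), (2, 26, 2), (2,
    19, 3), (2, 14, 3), (2, 10, 3), (2, 8, 2), (2, 6, 2), (2, 5, 1), (2, 4, 2), (2, 3, 2), (2, 2,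
    4), (2, 1, 10), (3, 10, 2), (3, 8, 3), (3, 6, 4), (3, 5, 2), (3, 4, 3), (3, 3, 4), (3, 2, 7),
    (3, 1, 23), (4, 5, 3), (4, 4, 4), (4, 3, 6), (4, 2, 12), (4, 1, 54), (5, 3, 7), (5, 2, 21), (5,
    1, 132), (6, 10, 1), (6, 8, 9), (6, 6, 18), (6, 5, 7), (6, 4, 9), (6, 3, 15), (6, 2, 38)],
    282342, 309640, 584, 2956⟩,
  ⟨264743, 299110, 123, 51453, [(0, 1, 582), (1, 293, 3), (1, 217, 2), (1, 160, 2), (1, 119, 2),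
    (1, 88, 2), (1, 65, 2), (1, 48, 2), (1, 35, 2), (1, 26, 2), (1, 19, 2), (1, 14, 2), (1, 10, 2),
    (1, 8, 1), (1, 6, 1), (1, 5, 1), (1, 4, 1), (1, 3, 1), (1, 2, 2), (1, 1, 4), (2, 35, 1), (2,
    26, 3), (2, 19, 3), (2, 14, 3), (2, 10, 3), (2, 8, 2), (2, 6, 2), (2, 5, 2), (2, 4, 2), (2, 3,
    2), (2, 2, 4), (2, 1, 11), (3, 10, 3), (3, 8, 3), (3, 6, 4), (3, 5, 2), (3, 4, 3), (3, 3, 4),
    (3, 2, 7), (3, 1, 25), (4, 5, 4), (4, 4, 4), (4, 3, 6), (4, 2, 13), (4, 1, 58), (5, 3, 8), (5,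
    2, 22), (5, 1, 144), (6, 10, 1), (6, 8, 10), (6, 6, 20), (6, 5, 8), (6, 4, 10), (6, 3, 16), (6,
    2, 41)], 308687, 343054, 589, 3006⟩,
  ⟨293312, 337100, 125, 54158, [(0, 1, 624), (1, 293, 4), (1, 217, 2), (1, 160, 2), (1, 119, 2),
    (1, 88, 2), (1, 65, 2), (1, 48, 2), (1, 35, 2), (1, 26, 2), (1, 19, 2), (1, 14, 2), (1, 10, 2),
    (1, 8, 1), (1, 6, 2), (1, 5, 1), (1, 4, 1), (1, 3, 2), (1, 2, 2), (1, 1, 4), (2, 26, 5), (2,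
    19, 3), (2, 14, 3), (2, 10, 3), (2, 8, 2), (2, 6, 3), (2, 5, 2), (2, 4, 2), (2, 3, 3), (2, 2,
    4), (2, 1, 11), (3, 10, 3), (3, 8, 3), (3, 6, 4), (3, 5, 2), (3, 4, 3), (3, 3, 4), (3, 2, 8),
    (3, 1, 26), (4, 6, 1), (4, 5, 3), (4, 4, 5), (4, 3, 7), (4, 2, 14), (4, 1, 63), (5, 3, 10), (5,
    2, 25), (5, 1, 158), (6, 10, 1), (6, 8, 11), (6, 6, 22), (6, 5, 9), (6, 4, 11), (6, 3, 18), (6,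
    2, 46)], 341982, 385770, 594, 3058⟩,
  ⟨329834, 386460, 127, 57431, [(0, 1, 674), (1, 293, 4), (1, 217, 2), (1, 160, 2), (1, 119, 2),
    (1, 88, 2), (1, 65, 2), (1, 48, 2), (1, 35, 2), (1, 26, 2), (1, 19, 2), (1, 14, 2), (1, 10, 2),
    (1, 8, 1), (1, 6, 2), (1, 5, 1), (1, 4, 1), (1, 3, 2), (1, 2, 2), (1, 1, 5), (2, 35, 2), (2,
    26, 3), (2, 19, 3), (2, 14, 3), (2, 10, 3), (2, 8, 2), (2, 6, 3), (2, 5, 2), (2, 4, 2), (2, 3,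
    3), (2, 2, 4), (2, 1, 12), (3, 10, 4), (3, 8, 3), (3, 6, 5), (3, 5, 3), (3, 4, 3), (3, 3, 5),
    (3, 2, 8), (3, 1, 28), (4, 6, 1), (4, 5, 4), (4, 4, 5), (4, 3, 8), (4, 2, 15), (4, 1, 69), (5,
    3, 13), (5, 2, 28), (5, 1, 177), (6, 10, 1), (6, 8, 13), (6, 6, 25), (6, 5, 10), (6, 4, 12),
    (6, 3, 20), (6, 2, 52)], 384088, 440714, 600, 3120⟩,
  ⟨330536, 395795, 129, 57492, [(0, 1, 690), (1, 395, 2), (1, 293, 2), (1, 217, 2), (1, 160, 2),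
    (1, 119, 2), (1, 88, 2), (1, 65, 2), (1, 48, 2), (1, 35, 2), (1, 26, 2), (1, 19, 2), (1, 14,
    2), (1, 10, 2), (1, 8, 1), (1, 6, 2), (1, 5, 1), (1, 4, 1), (1, 3, 2), (1, 2, 2), (1, 1, 5),
    (2, 35, 2), (2, 26, 3), (2, 19, 3), (2, 14, 3), (2, 10, 3), (2, 8, 2), (2, 6, 3), (2, 5, 2),
    (2, 4, 2), (2, 3, 3), (2, 2, 5), (2, 1, 12), (3, 10, 4), (3, 8, 3), (3, 6, 5), (3, 5, 3), (3,
    4, 3), (3, 3, 5), (3, 2, 9), (3, 1, 31), (4, 6, 1), (4, 5, 4), (4, 4, 5), (4, 3, 8), (4, 2,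
    17), (4, 1, 76), (5, 3, 15), (5, 2, 32), (5, 1, 202), (6, 14, 1), (6, 10, 58), (6, 8, 33), (6,
    6, 31), (6, 5, 10), (6, 4, 12), (6, 3, 20), (6, 2, 51)], 436478, 501737, 606, 3182⟩,
  ⟨381320, 456605, 131, 61751, [(0, 1, 741), (1, 293, 6), (1, 217, 2), (1, 160, 2), (1, 119, 2),
    (1, 88, 2), (1, 65, 2), (1, 48, 2), (1, 35, 2), (1, 26, 2), (1, 19, 2), (1, 14, 2), (1, 10, 2),
    (1, 8, 1), (1, 6, 2), (1, 5, 1), (1, 4, 1), (1, 3, 2), (1, 2, 2), (1, 1, 5), (2, 35, 3), (2,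
    26, 3), (2, 19, 3), (2, 14, 3), (2, 10, 3), (2, 8, 2), (2, 6, 3), (2, 5, 2), (2, 4, 2), (2, 3,
    3), (2, 2, 5), (2, 1, 12), (3, 10, 5), (3, 8, 3), (3, 6, 5), (3, 5, 3), (3, 4, 3), (3, 3, 5),
    (3, 2, 9), (3, 1, 31), (4, 6, 2), (4, 5, 4), (4, 4, 5), (4, 3, 8), (4, 2, 17), (4, 1, 76), (5,
    4, 1), (5, 3, 14), (5, 2, 31), (5, 1, 199), (6, 10, 1), (6, 8, 14), (6, 6, 29), (6, 5, 11), (6,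
    4, 14), (6, 3, 23), (6, 2, 59), (6, 1, 901)], 500489, 575774, 613, 3256⟩,
  ⟨437589, 536943, 134, 66150, [(0, 1, 813), (1, 395, 3), (1, 293, 2), (1, 217, 2), (1, 160, 2),
    (1, 119, 2), (1, 88, 2), (1, 65, 2), (1, 48, 2), (1, 35, 2), (1, 26, 2), (1, 19, 2), (1, 14,
    2), (1, 10, 2), (1, 8, 1), (1, 6, 2), (1, 5, 1), (1, 4, 1), (1, 3, 2), (1, 2, 2), (1, 1, 5),
    (2, 35, 3), (2, 26, 3), (2, 19, 3), (2, 14, 3), (2, 10, 4), (2, 8, 2), (2, 6, 3), (2, 5, 2),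
    (2, 4, 2), (2, 3, 3), (2, 2, 5), (2, 1, 13), (3, 10, 7), (3, 8, 4), (3, 6, 5), (3, 5, 3), (3,
    4, 4), (3, 3, 5), (3, 2, 10), (3, 1, 34), (4, 6, 3), (4, 5, 5), (4, 4, 6), (4, 3, 9), (4, 2,
    19), (4, 1, 86), (5, 4, 2), (5, 3, 16), (5, 2, 36), (5, 1, 230), (6, 10, 1), (6, 8, 17), (6, 6,
    34), (6, 5, 13), (6, 4, 16), (6, 3, 27), (6, 2, 69), (6, 1, 1034)], 574508, 673862, 620, 3331⟩,
  ⟨512135, 645857, 136, 71563, [(0, 1, 904), (1, 395, 4), (1, 293, 2), (1, 217, 2), (1, 160, 2),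
    (1, 119, 2), (1, 88, 2), (1, 65, 2), (1, 48, 2), (1, 35, 2), (1, 26, 2), (1, 19, 2), (1, 14,
    2), (1, 10, 2), (1, 8, 1), (1, 6, 2), (1, 5, 1), (1, 4, 1), (1, 3, 2), (1, 2, 2), (1, 1, 5),
    (2, 35, 5), (2, 26, 3), (2, 19, 4), (2, 14, 3), (2, 10, 4), (2, 8, 2), (2, 6, 3), (2, 5, 2),
    (2, 4, 2), (2, 3, 3), (2, 2, 5), (2, 1, 14), (3, 10, 9), (3, 8, 4), (3, 6, 6), (3, 5, 3), (3,
    4, 4), (3, 3, 6), (3, 2, 11), (3, 1, 38), (4, 6, 4), (4, 5, 5), (4, 4, 7), (4, 3, 11), (4, 2,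
    21), (4, 1, 98), (5, 4, 3), (5, 3, 19), (5, 2, 42), (5, 1, 269), (6, 10, 1), (6, 8, 20), (6, 6,
    41), (6, 5, 16), (6, 4, 19), (6, 3, 32), (6, 2, 82), (6, 1, 1195)], 672015, 805737, 628, 3418⟩]

theorem dataA_ok : chkPlans dataA 130 805738 = true := by decide +kernel

end Pool.Agent.Lib.MP_ed661f_ag.Z
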