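import Pool.Agent.Lib.MP_ed661f_ag.Z.Plan

/-! Plan data. -/

set_option autoImplicit false
set_option maxRecDepth 100000

namespace Pool.Agent.Lib.MP_ed661f_ag.Z

def dataB : List PlanD := [
  ⟨616389, 801474, 140, 78510, [(0, 1, 1022), (1, 534, 2), (1, 395, 2), (1, 293, 2), (1, 217, 2),
    (1, 160, 2), (1, 119, 2), (1, 88, 2), (1, 65, 2), (1, 48, 2), (1, 35, 2), (1, 26, 2), (1, 19,
    2), (1, 14, 2), (1, 10, 2), (1, 8, 1), (1, 6, 2), (1, 5, 1), (1, 4, 1), (1, 3, 2), (1, 2, 3),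
    (1, 1, 6), (2, 48, 1), (2, 35, 4), (2, 26, 4), (2, 19, 4), (2, 14, 4), (2, 10, 4), (2, 8, 3),
    (2, 6, 3), (2, 5, 2), (2, 4, 3), (2, 3, 3), (2, 2, 6), (2, 1, 16), (3, 14, 2), (3, 10, 9), (3,
    8, 5), (3, 6, 7), (3, 5, 4), (3, 4, 5), (3, 3, 7), (3, 2, 12), (3, 1, 43), (4, 6, 6), (4, 5,
    6), (4, 4, 8), (4, 3, 12), (4, 2, 25), (4, 1, 114), (5, 4, 5), (5, 3, 22), (5, 2, 51), (5, 1,
    321), (6, 8, 1), (6, 6, 44), (6, 5, 20), (6, 4, 24), (6, 3, 40), (6, 2, 103), (6, 1, 1611)],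
    805457, 990542, 638, 3527⟩,
  ⟨851866, 1107658, 143, 92296, [(0, 1, 1201), (1, 534, 4), (1, 395, 2), (1, 293, 2), (1, 217,
    2), (1, 160, 2), (1, 119, 2), (1, 88, 2), (1, 65, 2), (1, 48, 2), (1, 35, 2), (1, 26, 2), (1,
    19, 2), (1, 14, 2), (1, 10, 2), (1, 8, 1), (1, 6, 2), (1, 5, 1), (1, 4, 1), (1, 3, 2), (1, 2,
    3), (1, 1, 6), (2, 48, 3), (2, 35, 4), (2, 26, 4), (2, 19, 4), (2, 14, 4), (2, 10, 4), (2, 8,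
    3), (2, 6, 3), (2, 5, 2), (2, 4, 3), (2, 3, 3), (2, 2, 6), (2, 1, 16), (3, 14, 3), (3, 10, 9),
    (3, 8, 5), (3, 6, 7), (3, 5, 4), (3, 4, 5), (3, 3, 7), (3, 2, 12), (3, 1, 43), (4, 6, 10), (4,
    5, 6), (4, 4, 8), (4, 3, 12), (4, 2, 25), (4, 1, 114), (5, 4, 8), (5, 3, 22), (5, 2, 50), (5,
    1, 314), (6, 3, 8), (6, 2, 104), (6, 1, 1313)], 989185, 1244977, 648, 3639⟩,
  ⟨1157829, 1418577, 146, 107602, [(0, 1, 1319), (1, 721, 2), (1, 534, 2), (1, 395, 2), (1, 293,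
    2), (1, 217, 2), (1, 160, 2), (1, 119, 2), (1, 88, 2), (1, 65, 2), (1, 48, 2), (1, 35, 2), (1,
    26, 2), (1, 19, 2), (1, 14, 2), (1, 10, 2), (1, 8, 1), (1, 6, 2), (1, 5, 1), (1, 4, 1), (1, 3,
    2), (1, 2, 2), (1, 1, 5), (2, 48, 4), (2, 35, 3), (2, 26, 3), (2, 19, 3), (2, 14, 3), (2, 10,
    4), (2, 8, 2), (2, 6, 3), (2, 5, 2), (2, 4, 2), (2, 3, 3), (2, 2, 5), (2, 1, 13), (3, 14, 4),
    (3, 10, 7), (3, 8, 4), (3, 6, 5), (3, 5, 3), (3, 4, 4), (3, 3, 5), (3, 2, 10), (3, 1, 34), (4,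
    8, 1), (4, 6, 9), (4, 5, 5), (4, 4, 6), (4, 3, 9), (4, 2, 19), (4, 1, 85), (5, 4, 9), (5, 3,
    16), (5, 2, 35), (5, 1, 217), (6, 3, 8), (6, 2, 68), (6, 1, 643)], 1242348, 1503096, 657, 3740⟩,
  ⟨1412911, 1603827, 148, 118865, [(0, 1, 1350), (1, 534, 6), (1, 395, 2), (1, 293, 2), (1, 217,
    2), (1, 160, 2), (1, 119, 2), (1, 88, 2), (1, 65, 2), (1, 48, 2), (1, 35, 2), (1, 26, 2), (1,
    19, 2), (1, 14, 2), (1, 10, 2), (1, 8, 1), (1, 6, 1), (1, 5, 1), (1, 4, 1), (1, 3, 1), (1, 2,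
    2), (1, 1, 4), (2, 48, 4), (2, 35, 3), (2, 26, 3), (2, 19, 3), (2, 14, 3), (2, 10, 3), (2, 8,
    2), (2, 6, 2), (2, 5, 2), (2, 4, 2), (2, 3, 2), (2, 2, 4), (2, 1, 11), (3, 14, 4), (3, 10, 5),
    (3, 8, 3), (3, 6, 4), (3, 5, 2), (3, 4, 3), (3, 3, 4), (3, 2, 7), (3, 1, 25), (4, 8, 1), (4, 6,
    7), (4, 5, 3), (4, 4, 4), (4, 3, 7), (4, 2, 13), (4, 1, 59), (5, 5, 1), (5, 4, 6), (5, 3, 10),
    (5, 2, 23), (5, 1, 137), (6, 3, 6), (6, 2, 40), (6, 1, 340)], 1469577, 1660493, 662, 3798⟩,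
  ⟨1519352, 1724651, 150, 123261, [(0, 1, 1400), (1, 534, 6), (1, 395, 2), (1, 293, 2), (1, 217,
    2), (1, 160, 2), (1, 119, 2), (1, 88, 2), (1, 65, 2), (1, 48, 2), (1, 35, 2), (1, 26, 2), (1,
    19, 2), (1, 14, 2), (1, 10, 2), (1, 8, 1), (1, 6, 2), (1, 5, 1), (1, 4, 1), (1, 3, 2), (1, 2,
    2), (1, 1, 4), (2, 48, 4), (2, 35, 3), (2, 26, 3), (2, 19, 3), (2, 14, 3), (2, 10, 3), (2, 8,
    2), (2, 6, 2), (2, 5, 2), (2, 4, 2), (2, 3, 2), (2, 2, 4), (2, 1, 11), (3, 14, 4), (3, 10, 5),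
    (3, 8, 3), (3, 6, 4), (3, 5, 2), (3, 4, 3), (3, 3, 4), (3, 2, 7), (3, 1, 25), (4, 8, 1), (4, 6,
    7), (4, 5, 3), (4, 4, 4), (4, 3, 7), (4, 2, 13), (4, 1, 59), (5, 5, 1), (5, 4, 6), (5, 3, 10),
    (5, 2, 23), (5, 1, 137), (6, 3, 7), (6, 2, 40), (6, 1, 338), (7, 10, 1), (7, 8, 15), (7, 6,
    29), (7, 5, 11), (7, 4, 14), (7, 3, 26), (7, 2, 73)], 1657942, 1863241, 667, 3855⟩,
  ⟨1621020, 1872912, 152, 127319, [(0, 1, 1472), (1, 721, 3), (1, 534, 2), (1, 395, 2), (1, 293,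
    2), (1, 217, 2), (1, 160, 2), (1, 119, 2), (1, 88, 2), (1, 65, 2), (1, 48, 2), (1, 35, 2), (1,
    26, 2), (1, 19, 2), (1, 14, 2), (1, 10, 2), (1, 8, 1), (1, 6, 2), (1, 5, 1), (1, 4, 1), (1, 3,
    2), (1, 2, 2), (1, 1, 4), (2, 65, 1), (2, 48, 3), (2, 35, 3), (2, 26, 3), (2, 19, 3), (2, 14,
    3), (2, 10, 3), (2, 8, 2), (2, 6, 3), (2, 5, 2), (2, 4, 2), (2, 3, 3), (2, 2, 4), (2, 1, 11),
    (3, 14, 5), (3, 10, 6), (3, 8, 3), (3, 6, 4), (3, 5, 2), (3, 4, 3), (3, 3, 4), (3, 2, 8), (3,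
    1, 27), (4, 8, 2), (4, 6, 7), (4, 5, 4), (4, 4, 5), (4, 3, 7), (4, 2, 14), (4, 1, 64), (5, 5,
    1), (5, 4, 7), (5, 3, 11), (5, 2, 25), (5, 1, 152), (6, 3, 9), (6, 2, 45), (6, 1, 383), (7, 14,
    1), (7, 10, 57), (7, 8, 24), (7, 6, 33), (7, 5, 12), (7, 4, 16), (7, 3, 28), (7, 2, 79)],
    1854912, 2106804, 673, 3925⟩,
  ⟨1832920, 2160462, 154, 135385, [(0, 1, 1597), (1, 721, 4), (1, 534, 2), (1, 395, 2), (1, 293,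
    2), (1, 217, 2), (1, 160, 2), (1, 119, 2), (1, 88, 2), (1, 65, 2), (1, 48, 2), (1, 35, 2), (1,
    26, 2), (1, 19, 2), (1, 14, 2), (1, 10, 2), (1, 8, 1), (1, 6, 2), (1, 5, 1), (1, 4, 1), (1, 3,
    2), (1, 2, 2), (1, 1, 5), (2, 65, 2), (2, 48, 3), (2, 35, 3), (2, 26, 3), (2, 19, 3), (2, 14,
    3), (2, 10, 3), (2, 8, 2), (2, 6, 3), (2, 5, 2), (2, 4, 2), (2, 3, 3), (2, 2, 4), (2, 1, 12),
    (3, 14, 6), (3, 10, 6), (3, 8, 3), (3, 6, 5), (3, 5, 3), (3, 4, 3), (3, 3, 5), (3, 2, 8), (3,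
    1, 29), (4, 8, 2), (4, 6, 8), (4, 5, 4), (4, 4, 5), (4, 3, 8), (4, 2, 15), (4, 1, 71), (5, 5,
    2), (5, 4, 8), (5, 3, 13), (5, 2, 28), (5, 1, 171), (6, 3, 12), (6, 2, 52), (6, 1, 439), (7,
    14, 1), (7, 10, 67), (7, 8, 28), (7, 6, 38), (7, 5, 13), (7, 4, 18), (7, 3, 32), (7, 2, 90)],
    2102261, 2429803, 679, 3995⟩,
  ⟨2101780, 2533706, 157, 144975, [(0, 1, 1749), (1, 973, 2), (1, 721, 2), (1, 534, 2), (1, 395,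
    2), (1, 293, 2), (1, 217, 2), (1, 160, 2), (1, 119, 2), (1, 88, 2), (1, 65, 2), (1, 48, 2), (1,
    35, 2), (1, 26, 2), (1, 19, 2), (1, 14, 2), (1, 10, 2), (1, 8, 1), (1, 6, 2), (1, 5, 1), (1, 4,
    1), (1, 3, 2), (1, 2, 2), (1, 1, 5), (2, 65, 2), (2, 48, 3), (2, 35, 3), (2, 26, 3), (2, 19,
    3), (2, 14, 3), (2, 10, 4), (2, 8, 2), (2, 6, 3), (2, 5, 2), (2, 4, 2), (2, 3, 3), (2, 2, 5),
    (2, 1, 13), (3, 19, 1), (3, 14, 6), (3, 10, 6), (3, 8, 4), (3, 6, 5), (3, 5, 3), (3, 4, 4), (3,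
    3, 5), (3, 2, 9), (3, 1, 32), (4, 8, 3), (4, 6, 9), (4, 5, 4), (4, 4, 6), (4, 3, 9), (4, 2,
    17), (4, 1, 79), (5, 5, 3), (5, 4, 9), (5, 3, 15), (5, 2, 32), (5, 1, 195), (6, 3, 16), (6, 2,
    61), (6, 1, 513), (7, 14, 1), (7, 10, 80), (7, 8, 34), (7, 6, 45), (7, 5, 16), (7, 4, 21), (7,
    3, 38), (7, 2, 106)], 2419325, 2851251, 687, 4090⟩,
  ⟨2651664, 3125753, 159, 162839, [(0, 1, 1921), (1, 721, 6), (1, 534, 2), (1, 395, 2), (1, 293,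
    2), (1, 217, 2), (1, 160, 2), (1, 119, 2), (1, 88, 2), (1, 65, 2), (1, 48, 2), (1, 35, 2), (1,
    26, 2), (1, 19, 2), (1, 14, 2), (1, 10, 2), (1, 8, 1), (1, 6, 2), (1, 5, 1), (1, 4, 1), (1, 3,
    2), (1, 2, 2), (1, 1, 5), (2, 65, 3), (2, 48, 3), (2, 35, 3), (2, 26, 3), (2, 19, 3), (2, 14,
    3), (2, 10, 3), (2, 8, 2), (2, 6, 3), (2, 5, 2), (2, 4, 2), (2, 3, 3), (2, 2, 4), (2, 1, 12),
    (3, 19, 2), (3, 14, 5), (3, 10, 6), (3, 8, 3), (3, 6, 5), (3, 5, 3), (3, 4, 3), (3, 3, 5), (3,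
    2, 8), (3, 1, 29), (4, 8, 4), (4, 6, 8), (4, 5, 4), (4, 4, 5), (4, 3, 8), (4, 2, 15), (4, 1,
    71), (5, 5, 4), (5, 4, 8), (5, 3, 13), (5, 2, 28), (5, 1, 170), (6, 3, 18), (6, 2, 52), (6, 1,
    426), (7, 2, 94)], 2751321, 3225410, 692, 4150⟩,
  ⟨2548074, 3140313, 162, 159626, [(0, 1, 1968), (1, 721, 6), (1, 534, 2), (1, 395, 2), (1, 293,
    2), (1, 217, 2), (1, 160, 2), (1, 119, 2), (1, 88, 2), (1, 65, 2), (1, 48, 2), (1, 35, 2), (1,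
    26, 2), (1, 19, 2), (1, 14, 2), (1, 10, 2), (1, 8, 1), (1, 6, 2), (1, 5, 1), (1, 4, 1), (1, 3,
    2), (1, 2, 2), (1, 1, 5), (2, 65, 3), (2, 48, 3), (2, 35, 3), (2, 26, 3), (2, 19, 3), (2, 14,
    3), (2, 10, 4), (2, 8, 2), (2, 6, 3), (2, 5, 2), (2, 4, 2), (2, 3, 3), (2, 2, 5), (2, 1, 14),
    (3, 19, 2), (3, 14, 6), (3, 10, 7), (3, 8, 4), (3, 6, 5), (3, 5, 3), (3, 4, 4), (3, 3, 5), (3,
    2, 10), (3, 1, 35), (4, 8, 5), (4, 6, 10), (4, 5, 5), (4, 4, 6), (4, 3, 10), (4, 2, 19), (4, 1,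
    88), (5, 5, 4), (5, 4, 10), (5, 3, 17), (5, 2, 37), (5, 1, 222), (6, 3, 23), (6, 2, 71), (6, 1,
    594), (7, 14, 1), (7, 10, 94), (7, 8, 40), (7, 6, 53), (7, 5, 18), (7, 4, 24), (7, 3, 44), (7,
    2, 124), (7, 1, 2368)], 3221450, 3813689, 700, 4246⟩,
  ⟨2974678, 3769780, 166, 172472, [(0, 1, 2187), (1, 973, 4), (1, 721, 2), (1, 534, 2), (1, 395,
    2), (1, 293, 2), (1, 217, 2), (1, 160, 2), (1, 119, 2), (1, 88, 2), (1, 65, 2), (1, 48, 2), (1,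
    35, 2), (1, 26, 2), (1, 19, 2), (1, 14, 2), (1, 10, 2), (1, 8, 1), (1, 6, 2), (1, 5, 1), (1, 4,
    1), (1, 3, 2), (1, 2, 3), (1, 1, 5), (2, 65, 4), (2, 48, 4), (2, 35, 4), (2, 26, 3), (2, 19,
    4), (2, 14, 4), (2, 10, 4), (2, 8, 2), (2, 6, 3), (2, 5, 2), (2, 4, 2), (2, 3, 3), (2, 2, 5),
    (2, 1, 15), (3, 19, 3), (3, 14, 7), (3, 10, 8), (3, 8, 4), (3, 6, 6), (3, 5, 3), (3, 4, 4), (3,
    3, 6), (3, 2, 11), (3, 1, 39), (4, 8, 7), (4, 6, 11), (4, 5, 5), (4, 4, 7), (4, 3, 11), (4, 2,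
    22), (4, 1, 101), (5, 5, 6), (5, 4, 12), (5, 3, 19), (5, 2, 43), (5, 1, 262), (6, 3, 33), (6,
    2, 86), (6, 1, 720), (7, 14, 1), (7, 10, 117), (7, 8, 50), (7, 6, 65), (7, 5, 22), (7, 4, 30),
    (7, 3, 54), (7, 2, 151), (7, 1, 2918)], 3802269, 4597371, 709, 4356⟩,
  ⟨3562963, 4658159, 170, 188758, [(0, 1, 2469), (1, 1314, 2), (1, 973, 2), (1, 721, 2), (1, 534,
    2), (1, 395, 2), (1, 293, 2), (1, 217, 2), (1, 160, 2), (1, 119, 2), (1, 88, 2), (1, 65, 2),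
    (1, 48, 2), (1, 35, 2), (1, 26, 2), (1, 19, 2), (1, 14, 2), (1, 10, 2), (1, 8, 1), (1, 6, 2),
    (1, 5, 1), (1, 4, 1), (1, 3, 2), (1, 2, 3), (1, 1, 6), (2, 88, 1), (2, 65, 4), (2, 48, 4), (2,
    35, 4), (2, 26, 4), (2, 19, 4), (2, 14, 4), (2, 10, 4), (2, 8, 3), (2, 6, 4), (2, 5, 2), (2, 4,
    3), (2, 3, 4), (2, 2, 6), (2, 1, 16), (3, 19, 4), (3, 14, 7), (3, 10, 9), (3, 8, 5), (3, 6, 7),
    (3, 5, 4), (3, 4, 5), (3, 3, 7), (3, 2, 12), (3, 1, 44), (4, 10, 1), (4, 8, 8), (4, 6, 13), (4,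
    5, 6), (4, 4, 8), (4, 3, 13), (4, 2, 25), (4, 1, 118), (5, 5, 10), (5, 4, 14), (5, 3, 23), (5,
    2, 52), (5, 1, 315), (6, 4, 2), (6, 3, 42), (6, 2, 106), (6, 1, 894), (7, 14, 1), (7, 10, 151),
    (7, 8, 65), (7, 6, 82), (7, 5, 28), (7, 4, 37), (7, 3, 66), (7, 2, 187), (7, 1, 3622)],
    4597122, 5692318, 719, 4480⟩,
  ⟨4354624, 5893945, 174, 208677, [(0, 1, 2826), (1, 1314, 3), (1, 973, 2), (1, 721, 2), (1, 534,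
    2), (1, 395, 2), (1, 293, 2), (1, 217, 2), (1, 160, 2), (1, 119, 2), (1, 88, 2), (1, 65, 2),
    (1, 48, 2), (1, 35, 2), (1, 26, 2), (1, 19, 2), (1, 14, 2), (1, 10, 2), (1, 8, 2), (1, 6, 2),
    (1, 5, 1), (1, 4, 2), (1, 3, 2), (1, 2, 3), (1, 1, 6), (2, 88, 2), (2, 65, 4), (2, 48, 4), (2,
    35, 4), (2, 26, 4), (2, 19, 4), (2, 14, 4), (2, 10, 5), (2, 8, 3), (2, 6, 4), (2, 5, 2), (2, 4,
    3), (2, 3, 4), (2, 2, 6), (2, 1, 18), (3, 19, 7), (3, 14, 8), (3, 10, 10), (3, 8, 5), (3, 6,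
    8), (3, 5, 4), (3, 4, 5), (3, 3, 8), (3, 2, 14), (3, 1, 50), (4, 10, 2), (4, 8, 10), (4, 6,
    15), (4, 5, 7), (4, 4, 10), (4, 3, 15), (4, 2, 30), (4, 1, 140), (5, 6, 2), (5, 5, 13), (5, 4,
    18), (5, 3, 29), (5, 2, 64), (5, 1, 387), (6, 4, 4), (6, 3, 54), (6, 2, 135), (6, 1, 1137), (7,
    14, 1), (7, 10, 200), (7, 8, 87), (7, 6, 106), (7, 5, 36), (7, 4, 47), (7, 3, 84), (7, 2, 237),
    (7, 1, 4568)], 5676240, 7215561, 730, 4618⟩,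
  ⟨6746550, 8535184, 178, 259741, [(0, 1, 3287), (1, 1774, 2), (1, 1314, 2), (1, 973, 2), (1,
    721, 2), (1, 534, 2), (1, 395, 2), (1, 293, 2), (1, 217, 2), (1, 160, 2), (1, 119, 2), (1, 88,
    2), (1, 65, 2), (1, 48, 2), (1, 35, 2), (1, 26, 2), (1, 19, 2), (1, 14, 2), (1, 10, 2), (1, 8,
    1), (1, 6, 2), (1, 5, 1), (1, 4, 1), (1, 3, 2), (1, 2, 2), (1, 1, 5), (2, 88, 4), (2, 65, 3),
    (2, 48, 3), (2, 35, 4), (2, 26, 3), (2, 19, 4), (2, 14, 4), (2, 10, 4), (2, 8, 2), (2, 6, 3),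
    (2, 5, 2), (2, 4, 2), (2, 3, 3), (2, 2, 5), (2, 1, 15), (3, 26, 1), (3, 19, 7), (3, 14, 7), (3,
    10, 8), (3, 8, 4), (3, 6, 6), (3, 5, 3), (3, 4, 4), (3, 3, 6), (3, 2, 11), (3, 1, 39), (4, 10,
    4), (4, 8, 7), (4, 6, 11), (4, 5, 5), (4, 4, 7), (4, 3, 11), (4, 2, 22), (4, 1, 100), (5, 6,
    4), (5, 5, 9), (5, 4, 12), (5, 3, 19), (5, 2, 43), (5, 1, 258), (6, 4, 7), (6, 3, 34), (6, 2,
    84), (6, 1, 678), (7, 3, 10), (7, 2, 164), (7, 1, 2167)], 7194445, 8983079, 740, 4745⟩,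
  ⟨8444095, 10123108, 180, 290587, [(0, 1, 3485), (1, 1314, 6), (1, 973, 2), (1, 721, 2), (1,
    534, 2), (1, 395, 2), (1, 293, 2), (1, 217, 2), (1, 160, 2), (1, 119, 2), (1, 88, 2), (1, 65,
    2), (1, 48, 2), (1, 35, 2), (1, 26, 2), (1, 19, 2), (1, 14, 2), (1, 10, 2), (1, 8, 1), (1, 6,
    2), (1, 5, 1), (1, 4, 1), (1, 3, 2), (1, 2, 2), (1, 1, 5), (2, 88, 4), (2, 65, 3), (2, 48, 3),
    (2, 35, 3), (2, 26, 3), (2, 19, 3), (2, 14, 3), (2, 10, 3), (2, 8, 2), (2, 6, 3), (2, 5, 2),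
    (2, 4, 2), (2, 3, 3), (2, 2, 5), (2, 1, 13), (3, 26, 2), (3, 19, 6), (3, 14, 5), (3, 10, 6),
    (3, 8, 3), (3, 6, 5), (3, 5, 3), (3, 4, 3), (3, 3, 5), (3, 2, 9), (3, 1, 31), (4, 10, 5), (4,
    8, 6), (4, 6, 8), (4, 5, 4), (4, 4, 6), (4, 3, 8), (4, 2, 17), (4, 1, 77), (5, 6, 4), (5, 5,
    6), (5, 4, 9), (5, 3, 14), (5, 2, 31), (5, 1, 187), (6, 4, 7), (6, 3, 24), (6, 2, 58), (6, 1,
    460), (7, 3, 9), (7, 2, 106), (7, 1, 1236)], 8735636, 10414649, 746, 4822⟩,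
  ⟨9164892, 10750324, 183, 302735, [(0, 1, 3552), (1, 1314, 6), (1, 973, 2), (1, 721, 2), (1,
    534, 2), (1, 395, 2), (1, 293, 2), (1, 217, 2), (1, 160, 2), (1, 119, 2), (1, 88, 2), (1, 65,
    2), (1, 48, 2), (1, 35, 2), (1, 26, 2), (1, 19, 2), (1, 14, 2), (1, 10, 2), (1, 8, 1), (1, 6,
    2), (1, 5, 1), (1, 4, 1), (1, 3, 2), (1, 2, 2), (1, 1, 5), (2, 88, 4), (2, 65, 3), (2, 48, 3),
    (2, 35, 3), (2, 26, 3), (2, 19, 3), (2, 14, 3), (2, 10, 3), (2, 8, 2), (2, 6, 3), (2, 5, 2),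
    (2, 4, 2), (2, 3, 3), (2, 2, 4), (2, 1, 12), (3, 26, 2), (3, 19, 5), (3, 14, 5), (3, 10, 6),
    (3, 8, 3), (3, 6, 5), (3, 5, 3), (3, 4, 3), (3, 3, 5), (3, 2, 8), (3, 1, 29), (4, 10, 5), (4,
    8, 5), (4, 6, 8), (4, 5, 4), (4, 4, 5), (4, 3, 8), (4, 2, 15), (4, 1, 69), (5, 6, 4), (5, 5,
    6), (5, 4, 8), (5, 3, 12), (5, 2, 27), (5, 1, 164), (6, 4, 6), (6, 3, 20), (6, 2, 50), (6, 1,
    394), (7, 3, 8), (7, 2, 89), (7, 1, 1009), (8, 19, 1), (8, 14, 74), (8, 10, 130), (8, 8, 37),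
    (8, 6, 53), (8, 5, 18), (8, 4, 25), (8, 3, 48), (8, 2, 150)], 10336912, 11922344, 753, 4913⟩,
  ⟨10491663, 12578855, 186, 323908, [(0, 1, 3885), (1, 1774, 4), (1, 1314, 2), (1, 973, 2), (1,
    721, 2), (1, 534, 2), (1, 395, 2), (1, 293, 2), (1, 217, 2), (1, 160, 2), (1, 119, 2), (1, 88,
    2), (1, 65, 2), (1, 48, 2), (1, 35, 2), (1, 26, 2), (1, 19, 2), (1, 14, 2), (1, 10, 2), (1, 8,
    1), (1, 6, 2), (1, 5, 1), (1, 4, 1), (1, 3, 2), (1, 2, 2), (1, 1, 5), (2, 119, 1), (2, 88, 3),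
    (2, 65, 3), (2, 48, 3), (2, 35, 3), (2, 26, 3), (2, 19, 3), (2, 14, 3), (2, 10, 3), (2, 8, 2),
    (2, 6, 3), (2, 5, 2), (2, 4, 2), (2, 3, 3), (2, 2, 5), (2, 1, 13), (3, 26, 2), (3, 19, 6), (3,
    14, 5), (3, 10, 6), (3, 8, 3), (3, 6, 5), (3, 5, 3), (3, 4, 3), (3, 3, 5), (3, 2, 9), (3, 1,
    31), (4, 10, 6), (4, 8, 6), (4, 6, 8), (4, 5, 4), (4, 4, 6), (4, 3, 8), (4, 2, 17), (4, 1, 77),
    (5, 6, 6), (5, 5, 6), (5, 4, 9), (5, 3, 14), (5, 2, 31), (5, 1, 187), (6, 4, 9), (6, 3, 24),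
    (6, 2, 58), (6, 1, 458), (7, 3, 12), (7, 2, 106), (7, 1, 1203), (8, 19, 1), (8, 14, 91), (8,
    10, 162), (8, 8, 45), (8, 6, 63), (8, 5, 21), (8, 4, 30), (8, 3, 57), (8, 2, 178)], 11912432,
    13999624, 760, 5005⟩,
  ⟨13159647, 15777603, 189, 362762, [(0, 1, 4350), (1, 2395, 2), (1, 1774, 2), (1, 1314, 2), (1,
    973, 2), (1, 721, 2), (1, 534, 2), (1, 395, 2), (1, 293, 2), (1, 217, 2), (1, 160, 2), (1, 119,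
    2), (1, 88, 2), (1, 65, 2), (1, 48, 2), (1, 35, 2), (1, 26, 2), (1, 19, 2), (1, 14, 2), (1, 10,
    2), (1, 8, 1), (1, 6, 2), (1, 5, 1), (1, 4, 1), (1, 3, 2), (1, 2, 2), (1, 1, 5), (2, 119, 2),
    (2, 88, 3), (2, 65, 3), (2, 48, 3), (2, 35, 3), (2, 26, 3), (2, 19, 3), (2, 14, 3), (2, 10, 4),
    (2, 8, 2), (2, 6, 3), (2, 5, 2), (2, 4, 2), (2, 3, 3), (2, 2, 5), (2, 1, 13), (3, 26, 3), (3,
    19, 6), (3, 14, 5), (3, 10, 6), (3, 8, 3), (3, 6, 5), (3, 5, 3), (3, 4, 3), (3, 3, 5), (3, 2,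
    9), (3, 1, 31), (4, 10, 8), (4, 8, 6), (4, 6, 8), (4, 5, 4), (4, 4, 6), (4, 3, 8), (4, 2, 17),
    (4, 1, 77), (5, 6, 8), (5, 5, 6), (5, 4, 9), (5, 3, 14), (5, 2, 31), (5, 1, 187), (6, 4, 12),
    (6, 3, 24), (6, 2, 58), (6, 1, 457), (7, 3, 16), (7, 2, 106), (7, 1, 1176), (8, 2, 140)],
    13528089, 16146045, 767, 5098⟩,
  ⟨15177283, 18649525, 192, 389580, [(0, 1, 4788), (1, 1774, 6), (1, 1314, 2), (1, 973, 2), (1,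
    721, 2), (1, 534, 2), (1, 395, 2), (1, 293, 2), (1, 217, 2), (1, 160, 2), (1, 119, 2), (1, 88,
    2), (1, 65, 2), (1, 48, 2), (1, 35, 2), (1, 26, 2), (1, 19, 2), (1, 14, 2), (1, 10, 2), (1, 8,
    1), (1, 6, 2), (1, 5, 1), (1, 4, 1), (1, 3, 2), (1, 2, 2), (1, 1, 5), (2, 119, 3), (2, 88, 3),
    (2, 65, 3), (2, 48, 3), (2, 35, 3), (2, 26, 3), (2, 19, 3), (2, 14, 3), (2, 10, 4), (2, 8, 2),
    (2, 6, 3), (2, 5, 2), (2, 4, 2), (2, 3, 3), (2, 2, 5), (2, 1, 13), (3, 26, 5), (3, 19, 6), (3,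
    14, 6), (3, 10, 7), (3, 8, 4), (3, 6, 5), (3, 5, 3), (3, 4, 4), (3, 3, 5), (3, 2, 10), (3, 1,
    35), (4, 10, 11), (4, 8, 6), (4, 6, 9), (4, 5, 5), (4, 4, 6), (4, 3, 9), (4, 2, 19), (4, 1,
    87), (5, 6, 11), (5, 5, 7), (5, 4, 10), (5, 3, 16), (5, 2, 36), (5, 1, 217), (6, 4, 17), (6, 3,
    28), (6, 2, 68), (6, 1, 542), (7, 3, 23), (7, 2, 129), (7, 1, 1433), (8, 10, 1), (8, 8, 42),
    (8, 6, 85), (8, 5, 28), (8, 4, 41), (8, 3, 78), (8, 2, 244)], 16015619, 19487861, 775, 5205⟩,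
  ⟨15103093, 19076653, 196, 388626, [(0, 1, 4910), (1, 2395, 3), (1, 1774, 2), (1, 1314, 2), (1,
    973, 2), (1, 721, 2), (1, 534, 2), (1, 395, 2), (1, 293, 2), (1, 217, 2), (1, 160, 2), (1, 119,
    2), (1, 88, 2), (1, 65, 2), (1, 48, 2), (1, 35, 2), (1, 26, 2), (1, 19, 2), (1, 14, 2), (1, 10,
    2), (1, 8, 1), (1, 6, 2), (1, 5, 1), (1, 4, 1), (1, 3, 2), (1, 2, 2), (1, 1, 5), (2, 119, 3),
    (2, 88, 3), (2, 65, 3), (2, 48, 3), (2, 35, 4), (2, 26, 3), (2, 19, 4), (2, 14, 4), (2, 10, 4),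
    (2, 8, 2), (2, 6, 3), (2, 5, 2), (2, 4, 2), (2, 3, 3), (2, 2, 5), (2, 1, 15), (3, 26, 5), (3,
    19, 7), (3, 14, 7), (3, 10, 8), (3, 8, 4), (3, 6, 6), (3, 5, 3), (3, 4, 4), (3, 3, 6), (3, 2,
    11), (3, 1, 39), (4, 10, 12), (4, 8, 7), (4, 6, 11), (4, 5, 5), (4, 4, 7), (4, 3, 11), (4, 2,
    22), (4, 1, 100), (5, 6, 13), (5, 5, 9), (5, 4, 12), (5, 3, 19), (5, 2, 43), (5, 1, 256), (6,
    4, 20), (6, 3, 34), (6, 2, 83), (6, 1, 659), (7, 3, 28), (7, 2, 161), (7, 1, 1819), (8, 19, 1),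
    (8, 14, 144), (8, 10, 264), (8, 8, 72), (8, 6, 96), (8, 5, 31), (8, 4, 45), (8, 3, 86), (8, 2,
    268), (8, 1, 8280)], 19435833, 23409393, 784, 5326⟩,
  ⟨20483219, 25872267, 200, 452583, [(0, 1, 5718), (1, 3234, 2), (1, 2395, 2), (1, 1774, 2), (1,
    1314, 2), (1, 973, 2), (1, 721, 2), (1, 534, 2), (1, 395, 2), (1, 293, 2), (1, 217, 2), (1,
    160, 2), (1, 119, 2), (1, 88, 2), (1, 65, 2), (1, 48, 2), (1, 35, 2), (1, 26, 2), (1, 19, 2),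
    (1, 14, 2), (1, 10, 2), (1, 8, 1), (1, 6, 2), (1, 5, 1), (1, 4, 1), (1, 3, 2), (1, 2, 2), (1,
    1, 5), (2, 160, 1), (2, 119, 3), (2, 88, 3), (2, 65, 3), (2, 48, 3), (2, 35, 4), (2, 26, 3),
    (2, 19, 4), (2, 14, 4), (2, 10, 4), (2, 8, 2), (2, 6, 3), (2, 5, 2), (2, 4, 2), (2, 3, 3), (2,
    2, 5), (2, 1, 15), (3, 26, 7), (3, 19, 7), (3, 14, 7), (3, 10, 8), (3, 8, 4), (3, 6, 6), (3, 5,
    3), (3, 4, 4), (3, 3, 6), (3, 2, 11), (3, 1, 39), (4, 14, 1), (4, 10, 15), (4, 8, 7), (4, 6,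
    11), (4, 5, 5), (4, 4, 7), (4, 3, 11), (4, 2, 22), (4, 1, 100), (5, 6, 19), (5, 5, 9), (5, 4,
    12), (5, 3, 19), (5, 2, 43), (5, 1, 256), (6, 5, 2), (6, 4, 20), (6, 3, 34), (6, 2, 83), (6, 1,
    656), (7, 3, 40), (7, 2, 161), (7, 1, 1768), (8, 3, 2), (8, 2, 312), (8, 1, 8974)], 23384561,
    28773609, 793, 5449⟩,
  ⟨24457568, 31857453, 205, 494545, [(0, 1, 6443), (1, 2395, 6), (1, 1774, 2), (1, 1314, 2), (1,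
    973, 2), (1, 721, 2), (1, 534, 2), (1, 395, 2), (1, 293, 2), (1, 217, 2), (1, 160, 2), (1, 119,
    2), (1, 88, 2), (1, 65, 2), (1, 48, 2), (1, 35, 2), (1, 26, 2), (1, 19, 2), (1, 14, 2), (1, 10,
    2), (1, 8, 1), (1, 6, 2), (1, 5, 1), (1, 4, 1), (1, 3, 2), (1, 2, 3), (1, 1, 6), (2, 119, 6),
    (2, 88, 4), (2, 65, 4), (2, 48, 4), (2, 35, 4), (2, 26, 4), (2, 19, 4), (2, 14, 4), (2, 10, 4),
    (2, 8, 3), (2, 6, 4), (2, 5, 2), (2, 4, 3), (2, 3, 4), (2, 2, 6), (2, 1, 16), (3, 35, 2), (3,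
    26, 7), (3, 19, 8), (3, 14, 7), (3, 10, 9), (3, 8, 5), (3, 6, 7), (3, 5, 4), (3, 4, 5), (3, 3,
    7), (3, 2, 12), (3, 1, 44), (4, 14, 2), (4, 10, 17), (4, 8, 8), (4, 6, 13), (4, 5, 6), (4, 4,
    8), (4, 3, 13), (4, 2, 25), (4, 1, 116), (5, 8, 1), (5, 6, 23), (5, 5, 10), (5, 4, 14), (5, 3,
    23), (5, 2, 51), (5, 1, 307), (6, 5, 5), (6, 4, 24), (6, 3, 42), (6, 2, 103), (6, 1, 813), (7,
    3, 62), (7, 2, 206), (7, 1, 2264), (8, 10, 1), (8, 8, 70), (8, 6, 141), (8, 5, 47), (8, 4, 68),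
    (8, 3, 129), (8, 2, 404), (8, 1, 11161)], 28670521, 36070406, 804, 5601⟩,
  ⟨26331397, 36688277, 209, 513141, [(0, 1, 7151), (1, 3234, 3), (1, 2395, 2), (1, 1774, 2), (1,
    1314, 2), (1, 973, 2), (1, 721, 2), (1, 534, 2), (1, 395, 2), (1, 293, 2), (1, 217, 2), (1,
    160, 2), (1, 119, 2), (1, 88, 2), (1, 65, 2), (1, 48, 2), (1, 35, 2), (1, 26, 2), (1, 19, 2),
    (1, 14, 2), (1, 10, 2), (1, 8, 2), (1, 6, 2), (1, 5, 1), (1, 4, 2), (1, 3, 2), (1, 2, 3), (1,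
    1, 6), (2, 160, 2), (2, 119, 4), (2, 88, 4), (2, 65, 4), (2, 48, 5), (2, 35, 5), (2, 26, 4),
    (2, 19, 5), (2, 14, 5), (2, 10, 5), (2, 8, 3), (2, 6, 4), (2, 5, 2), (2, 4, 3), (2, 3, 4), (2,
    2, 7), (2, 1, 19), (3, 35, 2), (3, 26, 9), (3, 19, 10), (3, 14, 9), (3, 10, 11), (3, 8, 6), (3,
    6, 9), (3, 5, 5), (3, 4, 6), (3, 3, 9), (3, 2, 16), (3, 1, 57), (4, 14, 3), (4, 10, 23), (4, 8,
    11), (4, 6, 17), (4, 5, 8), (4, 4, 11), (4, 3, 17), (4, 2, 35), (4, 1, 163), (5, 8, 2), (5, 6,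
    34), (5, 5, 15), (5, 4, 21), (5, 3, 34), (5, 2, 76), (5, 1, 460), (6, 5, 8), (6, 4, 39), (6, 3,
    66), (6, 2, 164), (6, 1, 1306), (7, 3, 116), (7, 2, 353), (7, 1, 4020), (8, 19, 1), (8, 14,
    361), (8, 10, 769), (8, 8, 191), (8, 6, 202), (8, 5, 63), (8, 4, 89), (8, 3, 170), (8, 2, 533),
    (8, 1, 16620)], 36038114, 46394994, 815, 5756⟩,
  ⟨43611295, 56476458, 215, 660388, [(0, 1, 8553), (1, 3234, 6), (1, 2395, 2), (1, 1774, 2), (1,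
    1314, 2), (1, 973, 2), (1, 721, 2), (1, 534, 2), (1, 395, 2), (1, 293, 2), (1, 217, 2), (1,
    160, 2), (1, 119, 2), (1, 88, 2), (1, 65, 2), (1, 48, 2), (1, 35, 2), (1, 26, 2), (1, 19, 2),
    (1, 14, 2), (1, 10, 2), (1, 8, 1), (1, 6, 2), (1, 5, 1), (1, 4, 1), (1, 3, 2), (1, 2, 3), (1,
    1, 6), (2, 160, 4), (2, 119, 4), (2, 88, 4), (2, 65, 4), (2, 48, 4), (2, 35, 4), (2, 26, 4),
    (2, 19, 4), (2, 14, 4), (2, 10, 4), (2, 8, 3), (2, 6, 3), (2, 5, 2), (2, 4, 3), (2, 3, 3), (2,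
    2, 6), (2, 1, 16), (3, 35, 5), (3, 26, 7), (3, 19, 8), (3, 14, 7), (3, 10, 8), (3, 8, 5), (3,
    6, 7), (3, 5, 4), (3, 4, 5), (3, 3, 7), (3, 2, 12), (3, 1, 43), (4, 14, 6), (4, 10, 16), (4, 8,
    8), (4, 6, 12), (4, 5, 6), (4, 4, 8), (4, 3, 12), (4, 2, 24), (4, 1, 113), (5, 8, 6), (5, 6,
    22), (5, 5, 10), (5, 4, 14), (5, 3, 22), (5, 2, 49), (5, 1, 297), (6, 5, 12), (6, 4, 23), (6,
    3, 40), (6, 2, 98), (6, 1, 778), (7, 4, 4), (7, 3, 71), (7, 2, 196), (7, 1, 2088), (8, 3, 13),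
    (8, 2, 387), (8, 1, 6918)], 46152234, 59017397, 827, 5926⟩,
  ⟨55476354, 67750336, 218, 744824, [(0, 1, 9097), (1, 4366, 3), (1, 3234, 2), (1, 2395, 2), (1,
    1774, 2), (1, 1314, 2), (1, 973, 2), (1, 721, 2), (1, 534, 2), (1, 395, 2), (1, 293, 2), (1,
    217, 2), (1, 160, 2), (1, 119, 2), (1, 88, 2), (1, 65, 2), (1, 48, 2), (1, 35, 2), (1, 26, 2),
    (1, 19, 2), (1, 14, 2), (1, 10, 2), (1, 8, 1), (1, 6, 2), (1, 5, 1), (1, 4, 1), (1, 3, 2), (1,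
    2, 2), (1, 1, 5), (2, 217, 1), (2, 160, 3), (2, 119, 3), (2, 88, 3), (2, 65, 3), (2, 48, 3),
    (2, 35, 3), (2, 26, 3), (2, 19, 3), (2, 14, 3), (2, 10, 4), (2, 8, 2), (2, 6, 3), (2, 5, 2),
    (2, 4, 2), (2, 3, 3), (2, 2, 5), (2, 1, 13), (3, 35, 5), (3, 26, 6), (3, 19, 6), (3, 14, 6),
    (3, 10, 7), (3, 8, 4), (3, 6, 5), (3, 5, 3), (3, 4, 4), (3, 3, 5), (3, 2, 10), (3, 1, 34), (4,
    14, 7), (4, 10, 12), (4, 8, 6), (4, 6, 9), (4, 5, 5), (4, 4, 6), (4, 3, 9), (4, 2, 18), (4, 1,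
    85), (5, 8, 6), (5, 6, 16), (5, 5, 7), (5, 4, 10), (5, 3, 16), (5, 2, 35), (5, 1, 209), (6, 5,
    11), (6, 4, 16), (6, 3, 27), (6, 2, 66), (6, 1, 516), (7, 4, 5), (7, 3, 45), (7, 2, 122), (7,
    1, 1285), (8, 3, 11), (8, 2, 228), (8, 1, 3484)], 56888467, 69162449, 834, 6027⟩,
  ⟨57059021, 69683164, 221, 755374, [(0, 1, 9226), (1, 4366, 3), (1, 3234, 2), (1, 2395, 2), (1,
    1774, 2), (1, 1314, 2), (1, 973, 2), (1, 721, 2), (1, 534, 2), (1, 395, 2), (1, 293, 2), (1,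
    217, 2), (1, 160, 2), (1, 119, 2), (1, 88, 2), (1, 65, 2), (1, 48, 2), (1, 35, 2), (1, 26, 2),
    (1, 19, 2), (1, 14, 2), (1, 10, 2), (1, 8, 1), (1, 6, 2), (1, 5, 1), (1, 4, 1), (1, 3, 2), (1,
    2, 2), (1, 1, 5), (2, 217, 1), (2, 160, 3), (2, 119, 3), (2, 88, 3), (2, 65, 3), (2, 48, 3),
    (2, 35, 3), (2, 26, 3), (2, 19, 3), (2, 14, 3), (2, 10, 4), (2, 8, 2), (2, 6, 3), (2, 5, 2),
    (2, 4, 2), (2, 3, 3), (2, 2, 5), (2, 1, 13), (3, 35, 5), (3, 26, 6), (3, 19, 6), (3, 14, 6),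
    (3, 10, 7), (3, 8, 4), (3, 6, 5), (3, 5, 3), (3, 4, 4), (3, 3, 5), (3, 2, 10), (3, 1, 34), (4,
    14, 7), (4, 10, 12), (4, 8, 6), (4, 6, 9), (4, 5, 5), (4, 4, 6), (4, 3, 9), (4, 2, 18), (4, 1,
    85), (5, 8, 6), (5, 6, 16), (5, 5, 7), (5, 4, 10), (5, 3, 16), (5, 2, 35), (5, 1, 209), (6, 5,
    12), (6, 4, 16), (6, 3, 27), (6, 2, 66), (6, 1, 516), (7, 4, 5), (7, 3, 45), (7, 2, 122), (7,
    1, 1284), (8, 3, 12), (8, 2, 228), (8, 1, 3471), (9, 35, 1), (9, 26, 185), (9, 19, 348), (9,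
    14, 273), (9, 10, 257), (9, 8, 60), (9, 6, 100), (9, 5, 31), (9, 4, 47), (9, 3, 95), (9, 2,
    328)], 68817951, 81442094, 841, 6129⟩,
  ⟨63932044, 80198540, 225, 799575, [(0, 1, 10031), (1, 4366, 4), (1, 3234, 2), (1, 2395, 2), (1,
    1774, 2), (1, 1314, 2), (1, 973, 2), (1, 721, 2), (1, 534, 2), (1, 395, 2), (1, 293, 2), (1,
    217, 2), (1, 160, 2), (1, 119, 2), (1, 88, 2), (1, 65, 2), (1, 48, 2), (1, 35, 2), (1, 26, 2),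
    (1, 19, 2), (1, 14, 2), (1, 10, 2), (1, 8, 1), (1, 6, 2), (1, 5, 1), (1, 4, 1), (1, 3, 2), (1,
    2, 2), (1, 1, 5), (2, 217, 2), (2, 160, 3), (2, 119, 3), (2, 88, 3), (2, 65, 3), (2, 48, 3),
    (2, 35, 4), (2, 26, 3), (2, 19, 4), (2, 14, 3), (2, 10, 4), (2, 8, 2), (2, 6, 3), (2, 5, 2),
    (2, 4, 2), (2, 3, 3), (2, 2, 5), (2, 1, 14), (3, 35, 7), (3, 26, 6), (3, 19, 7), (3, 14, 6),
    (3, 10, 8), (3, 8, 4), (3, 6, 6), (3, 5, 3), (3, 4, 4), (3, 3, 6), (3, 2, 11), (3, 1, 38), (4,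
    14, 9), (4, 10, 14), (4, 8, 7), (4, 6, 10), (4, 5, 5), (4, 4, 7), (4, 3, 10), (4, 2, 21), (4,
    1, 97), (5, 8, 8), (5, 6, 18), (5, 5, 8), (5, 4, 11), (5, 3, 18), (5, 2, 41), (5, 1, 246), (6,
    6, 1), (6, 5, 13), (6, 4, 19), (6, 3, 32), (6, 2, 79), (6, 1, 622), (7, 4, 8), (7, 3, 55), (7,
    2, 152), (7, 1, 1593), (8, 3, 18), (8, 2, 290), (8, 1, 4474), (9, 35, 1), (9, 26, 255), (9, 19,
    586), (9, 14, 472), (9, 10, 352), (9, 8, 71), (9, 6, 115), (9, 5, 35), (9, 4, 54), (9, 3, 109),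
    (9, 2, 376)], 81409759, 97676255, 850, 6260⟩,
  ⟨87420249, 109662947, 229, 934987, [(0, 1, 11730), (1, 4366, 6), (1, 3234, 2), (1, 2395, 2),
    (1, 1774, 2), (1, 1314, 2), (1, 973, 2), (1, 721, 2), (1, 534, 2), (1, 395, 2), (1, 293, 2),
    (1, 217, 2), (1, 160, 2), (1, 119, 2), (1, 88, 2), (1, 65, 2), (1, 48, 2), (1, 35, 2), (1, 26,
    2), (1, 19, 2), (1, 14, 2), (1, 10, 2), (1, 8, 1), (1, 6, 2), (1, 5, 1), (1, 4, 1), (1, 3, 2),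
    (1, 2, 2), (1, 1, 5), (2, 217, 3), (2, 160, 3), (2, 119, 3), (2, 88, 3), (2, 65, 3), (2, 48,
    3), (2, 35, 4), (2, 26, 3), (2, 19, 4), (2, 14, 3), (2, 10, 4), (2, 8, 2), (2, 6, 3), (2, 5,
    2), (2, 4, 2), (2, 3, 3), (2, 2, 5), (2, 1, 14), (3, 48, 1), (3, 35, 7), (3, 26, 6), (3, 19,
    7), (3, 14, 6), (3, 10, 8), (3, 8, 4), (3, 6, 6), (3, 5, 3), (3, 4, 4), (3, 3, 6), (3, 2, 11),
    (3, 1, 38), (4, 14, 13), (4, 10, 14), (4, 8, 7), (4, 6, 10), (4, 5, 5), (4, 4, 7), (4, 3, 10),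
    (4, 2, 21), (4, 1, 97), (5, 10, 1), (5, 8, 11), (5, 6, 18), (5, 5, 8), (5, 4, 11), (5, 3, 18),
    (5, 2, 41), (5, 1, 246), (6, 6, 4), (6, 5, 13), (6, 4, 19), (6, 3, 32), (6, 2, 79), (6, 1,
    621), (7, 4, 13), (7, 3, 55), (7, 2, 152), (7, 1, 1584), (8, 3, 27), (8, 2, 290), (8, 1, 4305),
    (9, 26, 1), (9, 19, 255), (9, 14, 282), (9, 10, 342), (9, 8, 86), (9, 6, 146), (9, 5, 45), (9,
    4, 69), (9, 3, 138), (9, 2, 479)], 97217259, 119459957, 859, 6394⟩,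
  ⟨90192268, 116582462, 234, 949696, [(0, 1, 12277), (1, 5894, 3), (1, 4366, 2), (1, 3234, 2),
    (1, 2395, 2), (1, 1774, 2), (1, 1314, 2), (1, 973, 2), (1, 721, 2), (1, 534, 2), (1, 395, 2),
    (1, 293, 2), (1, 217, 2), (1, 160, 2), (1, 119, 2), (1, 88, 2), (1, 65, 2), (1, 48, 2), (1, 35,
    2), (1, 26, 2), (1, 19, 2), (1, 14, 2), (1, 10, 2), (1, 8, 1), (1, 6, 2), (1, 5, 1), (1, 4, 1),
    (1, 3, 2), (1, 2, 3), (1, 1, 6), (2, 217, 3), (2, 160, 4), (2, 119, 4), (2, 88, 4), (2, 65, 4),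
    (2, 48, 4), (2, 35, 4), (2, 26, 4), (2, 19, 4), (2, 14, 4), (2, 10, 4), (2, 8, 3), (2, 6, 3),
    (2, 5, 2), (2, 4, 3), (2, 3, 3), (2, 2, 6), (2, 1, 16), (3, 48, 2), (3, 35, 8), (3, 26, 7), (3,
    19, 7), (3, 14, 7), (3, 10, 8), (3, 8, 5), (3, 6, 7), (3, 5, 3), (3, 4, 5), (3, 3, 7), (3, 2,
    12), (3, 1, 42), (4, 19, 1), (4, 14, 13), (4, 10, 16), (4, 8, 8), (4, 6, 12), (4, 5, 6), (4, 4,
    8), (4, 3, 12), (4, 2, 24), (4, 1, 112), (5, 10, 1), (5, 8, 14), (5, 6, 22), (5, 5, 10), (5, 4,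
    14), (5, 3, 22), (5, 2, 49), (5, 1, 294), (6, 6, 5), (6, 5, 16), (6, 4, 23), (6, 3, 40), (6, 2,
    97), (6, 1, 766), (7, 4, 17), (7, 3, 70), (7, 2, 192), (7, 1, 2018), (8, 3, 36), (8, 2, 379),
    (8, 1, 5765), (9, 35, 1), (9, 26, 328), (9, 19, 654), (9, 14, 500), (9, 10, 425), (9, 8, 94),
    (9, 6, 157), (9, 5, 48), (9, 4, 74), (9, 3, 149), (9, 2, 514), (9, 1, 16461)], 119320379,
    145710573, 868, 6528⟩]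

theorem dataB_ok : chkPlans dataB 805738 145710574 = true := by decide +kernel

end Pool.Agent.Lib.MP_ed661f_ag.Z
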