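import Pool.Agent.Lib.MP_ed661f_ag.Z.Plan

/-! Plan data. -/

set_option autoImplicit false
set_option maxRecDepth 100000

namespace Pool.Agent.Lib.MP_ed661f_ag.Z

def dataC : List PlanD := [
  ⟨123853987, 160093577, 239, 1112897, [(0, 1, 14386), (1, 7957, 2), (1, 5894, 2), (1, 4366, 2),
    (1, 3234, 2), (1, 2395, 2), (1, 1774, 2), (1, 1314, 2), (1, 973, 2), (1, 721, 2), (1, 534, 2),
    (1, 395, 2), (1, 293, 2), (1, 217, 2), (1, 160, 2), (1, 119, 2), (1, 88, 2), (1, 65, 2), (1,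
    48, 2), (1, 35, 2), (1, 26, 2), (1, 19, 2), (1, 14, 2), (1, 10, 2), (1, 8, 1), (1, 6, 2), (1,
    5, 1), (1, 4, 1), (1, 3, 2), (1, 2, 3), (1, 1, 6), (2, 217, 5), (2, 160, 4), (2, 119, 4), (2,
    88, 4), (2, 65, 4), (2, 48, 4), (2, 35, 4), (2, 26, 4), (2, 19, 4), (2, 14, 4), (2, 10, 4), (2,
    8, 3), (2, 6, 3), (2, 5, 2), (2, 4, 3), (2, 3, 3), (2, 2, 6), (2, 1, 16), (3, 48, 3), (3, 35,
    8), (3, 26, 7), (3, 19, 7), (3, 14, 7), (3, 10, 8), (3, 8, 5), (3, 6, 7), (3, 5, 3), (3, 4, 5),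
    (3, 3, 7), (3, 2, 12), (3, 1, 42), (4, 19, 3), (4, 14, 13), (4, 10, 16), (4, 8, 8), (4, 6, 12),
    (4, 5, 6), (4, 4, 8), (4, 3, 12), (4, 2, 24), (4, 1, 112), (5, 10, 3), (5, 8, 14), (5, 6, 22),
    (5, 5, 10), (5, 4, 14), (5, 3, 22), (5, 2, 49), (5, 1, 294), (6, 6, 8), (6, 5, 16), (6, 4, 23),
    (6, 3, 40), (6, 2, 97), (6, 1, 766), (7, 4, 26), (7, 3, 70), (7, 2, 192), (7, 1, 2009), (8, 3,
    53), (8, 2, 379), (8, 1, 5573), (9, 19, 1), (9, 14, 287), (9, 10, 459), (9, 8, 122), (9, 6,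
    209), (9, 5, 64), (9, 4, 97), (9, 3, 196), (9, 2, 680), (9, 1, 24499)], 145606911, 181846501,
    879, 6695⟩,
  ⟨149114131, 199289425, 244, 1221122, [(0, 1, 16321), (1, 5894, 6), (1, 4366, 2), (1, 3234, 2),
    (1, 2395, 2), (1, 1774, 2), (1, 1314, 2), (1, 973, 2), (1, 721, 2), (1, 534, 2), (1, 395, 2),
    (1, 293, 2), (1, 217, 2), (1, 160, 2), (1, 119, 2), (1, 88, 2), (1, 65, 2), (1, 48, 2), (1, 35,
    2), (1, 26, 2), (1, 19, 2), (1, 14, 2), (1, 10, 2), (1, 8, 2), (1, 6, 2), (1, 5, 1), (1, 4, 2),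
    (1, 3, 2), (1, 2, 3), (1, 1, 6), (2, 293, 2), (2, 217, 4), (2, 160, 4), (2, 119, 4), (2, 88,
    4), (2, 65, 4), (2, 48, 4), (2, 35, 4), (2, 26, 4), (2, 19, 4), (2, 14, 4), (2, 10, 5), (2, 8,
    3), (2, 6, 4), (2, 5, 2), (2, 4, 3), (2, 3, 4), (2, 2, 6), (2, 1, 17), (3, 48, 5), (3, 35, 9),
    (3, 26, 8), (3, 19, 8), (3, 14, 8), (3, 10, 10), (3, 8, 5), (3, 6, 7), (3, 5, 4), (3, 4, 5),
    (3, 3, 7), (3, 2, 13), (3, 1, 48), (4, 19, 4), (4, 14, 16), (4, 10, 19), (4, 8, 9), (4, 6, 14),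
    (4, 5, 7), (4, 4, 9), (4, 3, 14), (4, 2, 29), (4, 1, 132), (5, 10, 5), (5, 8, 17), (5, 6, 27),
    (5, 5, 12), (5, 4, 17), (5, 3, 27), (5, 2, 60), (5, 1, 359), (6, 6, 14), (6, 5, 20), (6, 4,
    29), (6, 3, 50), (6, 2, 123), (6, 1, 967), (7, 4, 42), (7, 3, 92), (7, 2, 251), (7, 1, 2624),
    (8, 3, 89), (8, 2, 511), (8, 1, 7572), (9, 26, 1), (9, 19, 479), (9, 14, 533), (9, 10, 632),
    (9, 8, 155), (9, 6, 260), (9, 5, 79), (9, 4, 121), (9, 3, 244), (9, 2, 845), (9, 1, 28636)],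
    181689790, 231865084, 890, 6864⟩,
  ⟨184332742, 255662614, 250, 1357691, [(0, 1, 18832), (1, 7957, 4), (1, 5894, 2), (1, 4366, 2),
    (1, 3234, 2), (1, 2395, 2), (1, 1774, 2), (1, 1314, 2), (1, 973, 2), (1, 721, 2), (1, 534, 2),
    (1, 395, 2), (1, 293, 2), (1, 217, 2), (1, 160, 2), (1, 119, 2), (1, 88, 2), (1, 65, 2), (1,
    48, 2), (1, 35, 2), (1, 26, 2), (1, 19, 2), (1, 14, 2), (1, 10, 2), (1, 8, 2), (1, 6, 2), (1,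
    5, 1), (1, 4, 2), (1, 3, 2), (1, 2, 3), (1, 1, 6), (2, 293, 3), (2, 217, 4), (2, 160, 4), (2,
    119, 4), (2, 88, 4), (2, 65, 4), (2, 48, 4), (2, 35, 5), (2, 26, 4), (2, 19, 5), (2, 14, 4),
    (2, 10, 5), (2, 8, 3), (2, 6, 4), (2, 5, 2), (2, 4, 3), (2, 3, 4), (2, 2, 7), (2, 1, 19), (3,
    48, 8), (3, 35, 10), (3, 26, 9), (3, 19, 10), (3, 14, 9), (3, 10, 11), (3, 8, 6), (3, 6, 8),
    (3, 5, 4), (3, 4, 6), (3, 3, 8), (3, 2, 16), (3, 1, 56), (4, 19, 7), (4, 14, 19), (4, 10, 23),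
    (4, 8, 11), (4, 6, 17), (4, 5, 8), (4, 4, 11), (4, 3, 17), (4, 2, 34), (4, 1, 159), (5, 10,
    10), (5, 8, 21), (5, 6, 33), (5, 5, 15), (5, 4, 20), (5, 3, 33), (5, 2, 74), (5, 1, 448), (6,
    6, 24), (6, 5, 26), (6, 4, 38), (6, 3, 64), (6, 2, 159), (6, 1, 1254), (7, 5, 1), (7, 4, 68),
    (7, 3, 123), (7, 2, 337), (7, 1, 3531), (8, 3, 158), (8, 2, 714), (8, 1, 10642), (9, 26, 1),
    (9, 19, 709), (9, 14, 819), (9, 10, 936), (9, 8, 218), (9, 6, 353), (9, 5, 107), (9, 4, 163),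
    (9, 3, 329), (9, 2, 1138), (9, 1, 41383)], 231586916, 302916788, 902, 7050⟩,
  ⟨283227197, 378577740, 256, 1682935, [(0, 1, 22496), (1, 10742, 3), (1, 7957, 2), (1, 5894, 2),
    (1, 4366, 2), (1, 3234, 2), (1, 2395, 2), (1, 1774, 2), (1, 1314, 2), (1, 973, 2), (1, 721, 2),
    (1, 534, 2), (1, 395, 2), (1, 293, 2), (1, 217, 2), (1, 160, 2), (1, 119, 2), (1, 88, 2), (1,
    65, 2), (1, 48, 2), (1, 35, 2), (1, 26, 2), (1, 19, 2), (1, 14, 2), (1, 10, 2), (1, 8, 2), (1,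
    6, 2), (1, 5, 1), (1, 4, 2), (1, 3, 2), (1, 2, 3), (1, 1, 6), (2, 293, 5), (2, 217, 4), (2,
    160, 4), (2, 119, 4), (2, 88, 4), (2, 65, 4), (2, 48, 4), (2, 35, 4), (2, 26, 4), (2, 19, 4),
    (2, 14, 4), (2, 10, 5), (2, 8, 3), (2, 6, 4), (2, 5, 2), (2, 4, 3), (2, 3, 4), (2, 2, 6), (2,
    1, 17), (3, 65, 2), (3, 48, 8), (3, 35, 9), (3, 26, 8), (3, 19, 8), (3, 14, 8), (3, 10, 10),
    (3, 8, 5), (3, 6, 7), (3, 5, 4), (3, 4, 5), (3, 3, 7), (3, 2, 13), (3, 1, 48), (4, 19, 11), (4,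
    14, 16), (4, 10, 19), (4, 8, 9), (4, 6, 14), (4, 5, 7), (4, 4, 9), (4, 3, 14), (4, 2, 29), (4,
    1, 133), (5, 10, 15), (5, 8, 17), (5, 6, 27), (5, 5, 12), (5, 4, 17), (5, 3, 27), (5, 2, 60),
    (5, 1, 359), (6, 6, 33), (6, 5, 20), (6, 4, 29), (6, 3, 50), (6, 2, 123), (6, 1, 968), (7, 5,
    7), (7, 4, 51), (7, 3, 92), (7, 2, 251), (7, 1, 2612), (8, 4, 1), (8, 3, 168), (8, 2, 512), (8,
    1, 7260), (9, 3, 22), (9, 2, 1033), (9, 1, 26321)], 300919643, 396270186, 914, 7239⟩,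
  ⟨368531273, 461582869, 260, 1919716, [(0, 1, 24045), (1, 10742, 4), (1, 7957, 2), (1, 5894, 2),
    (1, 4366, 2), (1, 3234, 2), (1, 2395, 2), (1, 1774, 2), (1, 1314, 2), (1, 973, 2), (1, 721, 2),
    (1, 534, 2), (1, 395, 2), (1, 293, 2), (1, 217, 2), (1, 160, 2), (1, 119, 2), (1, 88, 2), (1,
    65, 2), (1, 48, 2), (1, 35, 2), (1, 26, 2), (1, 19, 2), (1, 14, 2), (1, 10, 2), (1, 8, 1), (1,
    6, 2), (1, 5, 1), (1, 4, 1), (1, 3, 2), (1, 2, 2), (1, 1, 5), (2, 395, 1), (2, 293, 3), (2,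
    217, 3), (2, 160, 3), (2, 119, 3), (2, 88, 3), (2, 65, 3), (2, 48, 3), (2, 35, 4), (2, 26, 3),
    (2, 19, 4), (2, 14, 3), (2, 10, 4), (2, 8, 2), (2, 6, 3), (2, 5, 2), (2, 4, 2), (2, 3, 3), (2,
    2, 5), (2, 1, 14), (3, 65, 2), (3, 48, 6), (3, 35, 7), (3, 26, 6), (3, 19, 7), (3, 14, 6), (3,
    10, 7), (3, 8, 4), (3, 6, 6), (3, 5, 3), (3, 4, 4), (3, 3, 6), (3, 2, 10), (3, 1, 37), (4, 19,
    12), (4, 14, 12), (4, 10, 14), (4, 8, 7), (4, 6, 10), (4, 5, 5), (4, 4, 7), (4, 3, 10), (4, 2,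
    21), (4, 1, 96), (5, 10, 14), (5, 8, 11), (5, 6, 18), (5, 5, 8), (5, 4, 11), (5, 3, 18), (5, 2,
    41), (5, 1, 244), (6, 6, 29), (6, 5, 13), (6, 4, 19), (6, 3, 32), (6, 2, 78), (6, 1, 614), (7,
    5, 7), (7, 4, 31), (7, 3, 55), (7, 2, 150), (7, 1, 1548), (8, 4, 3), (8, 3, 94), (8, 2, 285),
    (8, 1, 3951), (9, 3, 17), (9, 2, 540), (9, 1, 10980)], 376616130, 469667726, 922, 7366⟩,
  ⟨399217567, 500017240, 264, 1998042, [(0, 1, 25026), (1, 10742, 4), (1, 7957, 2), (1, 5894, 2),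
    (1, 4366, 2), (1, 3234, 2), (1, 2395, 2), (1, 1774, 2), (1, 1314, 2), (1, 973, 2), (1, 721, 2),
    (1, 534, 2), (1, 395, 2), (1, 293, 2), (1, 217, 2), (1, 160, 2), (1, 119, 2), (1, 88, 2), (1,
    65, 2), (1, 48, 2), (1, 35, 2), (1, 26, 2), (1, 19, 2), (1, 14, 2), (1, 10, 2), (1, 8, 1), (1,
    6, 2), (1, 5, 1), (1, 4, 1), (1, 3, 2), (1, 2, 2), (1, 1, 5), (2, 395, 2), (2, 293, 3), (2,
    217, 3), (2, 160, 3), (2, 119, 3), (2, 88, 3), (2, 65, 3), (2, 48, 3), (2, 35, 4), (2, 26, 3),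
    (2, 19, 4), (2, 14, 3), (2, 10, 4), (2, 8, 2), (2, 6, 3), (2, 5, 2), (2, 4, 2), (2, 3, 3), (2,
    2, 5), (2, 1, 14), (3, 65, 3), (3, 48, 6), (3, 35, 7), (3, 26, 6), (3, 19, 7), (3, 14, 6), (3,
    10, 7), (3, 8, 4), (3, 6, 6), (3, 5, 3), (3, 4, 4), (3, 3, 6), (3, 2, 10), (3, 1, 37), (4, 19,
    13), (4, 14, 12), (4, 10, 14), (4, 8, 7), (4, 6, 10), (4, 5, 5), (4, 4, 7), (4, 3, 10), (4, 2,
    21), (4, 1, 96), (5, 10, 16), (5, 8, 11), (5, 6, 18), (5, 5, 8), (5, 4, 11), (5, 3, 18), (5, 2,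
    41), (5, 1, 244), (6, 6, 32), (6, 5, 13), (6, 4, 19), (6, 3, 32), (6, 2, 78), (6, 1, 614), (7,
    5, 8), (7, 4, 31), (7, 3, 55), (7, 2, 150), (7, 1, 1548), (8, 4, 4), (8, 3, 94), (8, 2, 285),
    (8, 1, 3945), (9, 3, 19), (9, 2, 540), (9, 1, 10866), (10, 48, 1), (10, 35, 537), (10, 26,
    618), (10, 19, 554), (10, 14, 368), (10, 10, 436), (10, 8, 106), (10, 6, 207), (10, 5, 58),
    (10, 4, 94), (10, 3, 200), (10, 2, 768)], 468529617, 569329290, 931, 7510⟩,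
  ⟨461156725, 595061439, 269, 2147455, [(0, 1, 27711), (1, 14502, 2), (1, 10742, 2), (1, 7957,
    2), (1, 5894, 2), (1, 4366, 2), (1, 3234, 2), (1, 2395, 2), (1, 1774, 2), (1, 1314, 2), (1,
    973, 2), (1, 721, 2), (1, 534, 2), (1, 395, 2), (1, 293, 2), (1, 217, 2), (1, 160, 2), (1, 119,
    2), (1, 88, 2), (1, 65, 2), (1, 48, 2), (1, 35, 2), (1, 26, 2), (1, 19, 2), (1, 14, 2), (1, 10,
    2), (1, 8, 1), (1, 6, 2), (1, 5, 1), (1, 4, 1), (1, 3, 2), (1, 2, 3), (1, 1, 5), (2, 395, 2),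
    (2, 293, 4), (2, 217, 4), (2, 160, 4), (2, 119, 4), (2, 88, 4), (2, 65, 4), (2, 48, 4), (2, 35,
    4), (2, 26, 4), (2, 19, 4), (2, 14, 4), (2, 10, 4), (2, 8, 3), (2, 6, 3), (2, 5, 2), (2, 4, 3),
    (2, 3, 3), (2, 2, 6), (2, 1, 16), (3, 65, 4), (3, 48, 7), (3, 35, 8), (3, 26, 7), (3, 19, 7),
    (3, 14, 7), (3, 10, 8), (3, 8, 4), (3, 6, 6), (3, 5, 3), (3, 4, 4), (3, 3, 6), (3, 2, 12), (3,
    1, 42), (4, 26, 1), (4, 19, 14), (4, 14, 13), (4, 10, 16), (4, 8, 8), (4, 6, 12), (4, 5, 6),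
    (4, 4, 8), (4, 3, 12), (4, 2, 24), (4, 1, 111), (5, 10, 22), (5, 8, 13), (5, 6, 22), (5, 5,
    10), (5, 4, 13), (5, 3, 22), (5, 2, 48), (5, 1, 291), (6, 8, 1), (6, 6, 39), (6, 5, 16), (6, 4,
    23), (6, 3, 39), (6, 2, 96), (6, 1, 757), (7, 5, 13), (7, 4, 39), (7, 3, 70), (7, 2, 190), (7,
    1, 1965), (8, 4, 8), (8, 3, 122), (8, 2, 372), (8, 1, 5165), (9, 3, 32), (9, 2, 727), (9, 1,
    14865), (10, 48, 1), (10, 35, 825), (10, 26, 1131), (10, 19, 938), (10, 14, 502), (10, 10,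
    533), (10, 8, 128), (10, 6, 248), (10, 5, 70), (10, 4, 112), (10, 3, 240), (10, 2, 922)],
    568607688, 702512402, 941, 7673⟩,
  ⟨642798848, 829446448, 275, 2535347, [(0, 1, 32716), (1, 14502, 4), (1, 10742, 2), (1, 7957,
    2), (1, 5894, 2), (1, 4366, 2), (1, 3234, 2), (1, 2395, 2), (1, 1774, 2), (1, 1314, 2), (1,
    973, 2), (1, 721, 2), (1, 534, 2), (1, 395, 2), (1, 293, 2), (1, 217, 2), (1, 160, 2), (1, 119,
    2), (1, 88, 2), (1, 65, 2), (1, 48, 2), (1, 35, 2), (1, 26, 2), (1, 19, 2), (1, 14, 2), (1, 10,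
    2), (1, 8, 1), (1, 6, 2), (1, 5, 1), (1, 4, 1), (1, 3, 2), (1, 2, 3), (1, 1, 5), (2, 395, 4),
    (2, 293, 4), (2, 217, 4), (2, 160, 4), (2, 119, 4), (2, 88, 4), (2, 65, 4), (2, 48, 4), (2, 35,
    4), (2, 26, 4), (2, 19, 4), (2, 14, 4), (2, 10, 4), (2, 8, 3), (2, 6, 3), (2, 5, 2), (2, 4, 3),
    (2, 3, 3), (2, 2, 6), (2, 1, 16), (3, 65, 6), (3, 48, 7), (3, 35, 8), (3, 26, 7), (3, 19, 7),
    (3, 14, 7), (3, 10, 8), (3, 8, 4), (3, 6, 6), (3, 5, 3), (3, 4, 4), (3, 3, 6), (3, 2, 12), (3,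
    1, 42), (4, 26, 3), (4, 19, 14), (4, 14, 13), (4, 10, 16), (4, 8, 8), (4, 6, 12), (4, 5, 6),
    (4, 4, 8), (4, 3, 12), (4, 2, 24), (4, 1, 111), (5, 14, 1), (5, 10, 31), (5, 8, 13), (5, 6,
    22), (5, 5, 10), (5, 4, 13), (5, 3, 22), (5, 2, 48), (5, 1, 291), (6, 8, 4), (6, 6, 39), (6, 5,
    16), (6, 4, 23), (6, 3, 39), (6, 2, 96), (6, 1, 757), (7, 5, 21), (7, 4, 39), (7, 3, 70), (7,
    2, 190), (7, 1, 1963), (8, 4, 14), (8, 3, 122), (8, 2, 372), (8, 1, 5136), (9, 3, 49), (9, 2,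
    727), (9, 1, 14290), (10, 35, 1), (10, 26, 473), (10, 19, 680), (10, 14, 555), (10, 10, 692),
    (10, 8, 168), (10, 6, 325), (10, 5, 91), (10, 4, 147), (10, 3, 314), (10, 2, 1207)], 702189088,
    888836688, 952, 7853⟩,
  ⟨688848433, 918870148, 280, 2624592, [(0, 1, 35011), (1, 19577, 2), (1, 14502, 2), (1, 10742,
    2), (1, 7957, 2), (1, 5894, 2), (1, 4366, 2), (1, 3234, 2), (1, 2395, 2), (1, 1774, 2), (1,
    1314, 2), (1, 973, 2), (1, 721, 2), (1, 534, 2), (1, 395, 2), (1, 293, 2), (1, 217, 2), (1,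
    160, 2), (1, 119, 2), (1, 88, 2), (1, 65, 2), (1, 48, 2), (1, 35, 2), (1, 26, 2), (1, 19, 2),
    (1, 14, 2), (1, 10, 2), (1, 8, 2), (1, 6, 2), (1, 5, 1), (1, 4, 2), (1, 3, 2), (1, 2, 3), (1,
    1, 6), (2, 395, 5), (2, 293, 4), (2, 217, 4), (2, 160, 4), (2, 119, 4), (2, 88, 4), (2, 65, 4),
    (2, 48, 4), (2, 35, 4), (2, 26, 4), (2, 19, 4), (2, 14, 4), (2, 10, 5), (2, 8, 3), (2, 6, 4),
    (2, 5, 2), (2, 4, 3), (2, 3, 4), (2, 2, 6), (2, 1, 17), (3, 65, 8), (3, 48, 8), (3, 35, 9), (3,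
    26, 8), (3, 19, 8), (3, 14, 8), (3, 10, 9), (3, 8, 5), (3, 6, 7), (3, 5, 4), (3, 4, 5), (3, 3,
    7), (3, 2, 13), (3, 1, 48), (4, 26, 4), (4, 19, 17), (4, 14, 16), (4, 10, 19), (4, 8, 9), (4,
    6, 14), (4, 5, 7), (4, 4, 9), (4, 3, 14), (4, 2, 28), (4, 1, 131), (5, 14, 1), (5, 10, 37), (5,
    8, 16), (5, 6, 26), (5, 5, 12), (5, 4, 16), (5, 3, 26), (5, 2, 59), (5, 1, 355), (6, 8, 6), (6,
    6, 49), (6, 5, 20), (6, 4, 29), (6, 3, 49), (6, 2, 121), (6, 1, 954), (7, 5, 30), (7, 4, 50),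
    (7, 3, 91), (7, 2, 247), (7, 1, 2561), (8, 4, 22), (8, 3, 165), (8, 2, 501), (8, 1, 6944), (9,
    3, 75), (9, 2, 1012), (9, 1, 20403), (10, 48, 1), (10, 35, 1114), (10, 26, 1376), (10, 19,
    1144), (10, 14, 678), (10, 10, 763), (10, 8, 184), (10, 6, 359), (10, 5, 101), (10, 4, 162),
    (10, 3, 347), (10, 2, 1331), (10, 1, 56244)], 886344298, 1116366013, 962, 8019⟩,
  ⟨965656602, 1288110682, 286, 3107501, [(0, 1, 41453), (1, 19577, 3), (1, 14502, 2), (1, 10742,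
    2), (1, 7957, 2), (1, 5894, 2), (1, 4366, 2), (1, 3234, 2), (1, 2395, 2), (1, 1774, 2), (1,
    1314, 2), (1, 973, 2), (1, 721, 2), (1, 534, 2), (1, 395, 2), (1, 293, 2), (1, 217, 2), (1,
    160, 2), (1, 119, 2), (1, 88, 2), (1, 65, 2), (1, 48, 2), (1, 35, 2), (1, 26, 2), (1, 19, 2),
    (1, 14, 2), (1, 10, 2), (1, 8, 2), (1, 6, 2), (1, 5, 1), (1, 4, 2), (1, 3, 2), (1, 2, 3), (1,
    1, 6), (2, 534, 2), (2, 395, 4), (2, 293, 4), (2, 217, 4), (2, 160, 4), (2, 119, 4), (2, 88,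
    4), (2, 65, 4), (2, 48, 4), (2, 35, 4), (2, 26, 4), (2, 19, 4), (2, 14, 4), (2, 10, 5), (2, 8,
    3), (2, 6, 4), (2, 5, 2), (2, 4, 3), (2, 3, 4), (2, 2, 6), (2, 1, 17), (3, 88, 2), (3, 65, 8),
    (3, 48, 8), (3, 35, 9), (3, 26, 8), (3, 19, 8), (3, 14, 8), (3, 10, 9), (3, 8, 5), (3, 6, 7),
    (3, 5, 4), (3, 4, 5), (3, 3, 7), (3, 2, 13), (3, 1, 48), (4, 26, 7), (4, 19, 17), (4, 14, 16),
    (4, 10, 19), (4, 8, 9), (4, 6, 14), (4, 5, 7), (4, 4, 9), (4, 3, 14), (4, 2, 28), (4, 1, 131),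
    (5, 14, 4), (5, 10, 37), (5, 8, 16), (5, 6, 27), (5, 5, 12), (5, 4, 16), (5, 3, 27), (5, 2,
    59), (5, 1, 355), (6, 8, 11), (6, 6, 49), (6, 5, 20), (6, 4, 29), (6, 3, 49), (6, 2, 121), (6,
    1, 954), (7, 6, 3), (7, 5, 34), (7, 4, 50), (7, 3, 91), (7, 2, 247), (7, 1, 2559), (8, 4, 35),
    (8, 3, 165), (8, 2, 501), (8, 1, 6910), (9, 3, 111), (9, 2, 1012), (9, 1, 19705), (10, 26, 1),
    (10, 19, 794), (10, 14, 799), (10, 10, 1042), (10, 8, 254), (10, 6, 489), (10, 5, 137), (10, 4,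
    220), (10, 3, 471), (10, 2, 1810), (10, 1, 84115)], 1115809715, 1438263795, 974, 8220⟩,
  ⟨1193758950, 1652174819, 293, 3455081, [(0, 1, 47820), (1, 26430, 2), (1, 19577, 2), (1, 14502,
    2), (1, 10742, 2), (1, 7957, 2), (1, 5894, 2), (1, 4366, 2), (1, 3234, 2), (1, 2395, 2), (1,
    1774, 2), (1, 1314, 2), (1, 973, 2), (1, 721, 2), (1, 534, 2), (1, 395, 2), (1, 293, 2), (1,
    217, 2), (1, 160, 2), (1, 119, 2), (1, 88, 2), (1, 65, 2), (1, 48, 2), (1, 35, 2), (1, 26, 2),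
    (1, 19, 2), (1, 14, 2), (1, 10, 2), (1, 8, 2), (1, 6, 2), (1, 5, 1), (1, 4, 2), (1, 3, 2), (1,
    2, 3), (1, 1, 6), (2, 534, 3), (2, 395, 4), (2, 293, 4), (2, 217, 4), (2, 160, 4), (2, 119, 4),
    (2, 88, 4), (2, 65, 4), (2, 48, 4), (2, 35, 5), (2, 26, 4), (2, 19, 5), (2, 14, 4), (2, 10, 5),
    (2, 8, 3), (2, 6, 4), (2, 5, 2), (2, 4, 3), (2, 3, 4), (2, 2, 7), (2, 1, 19), (3, 88, 3), (3,
    65, 9), (3, 48, 9), (3, 35, 10), (3, 26, 9), (3, 19, 10), (3, 14, 9), (3, 10, 11), (3, 8, 6),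
    (3, 6, 8), (3, 5, 4), (3, 4, 6), (3, 3, 8), (3, 2, 15), (3, 1, 56), (4, 26, 11), (4, 19, 20),
    (4, 14, 19), (4, 10, 23), (4, 8, 11), (4, 6, 17), (4, 5, 8), (4, 4, 11), (4, 3, 17), (4, 2,
    34), (4, 1, 158), (5, 14, 7), (5, 10, 46), (5, 8, 20), (5, 6, 33), (5, 5, 14), (5, 4, 20), (5,
    3, 33), (5, 2, 73), (5, 1, 443), (6, 8, 20), (6, 6, 64), (6, 5, 26), (6, 4, 37), (6, 3, 64),
    (6, 2, 157), (6, 1, 1235), (7, 6, 8), (7, 5, 45), (7, 4, 67), (7, 3, 121), (7, 2, 332), (7, 1,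
    3437), (8, 4, 65), (8, 3, 230), (8, 2, 698), (8, 1, 9636), (9, 3, 204), (9, 2, 1463), (9, 1,
    28760), (10, 35, 1), (10, 26, 1024), (10, 19, 1498), (10, 14, 1191), (10, 10, 1433), (10, 8,
    342), (10, 6, 653), (10, 5, 183), (10, 4, 293), (10, 3, 627), (10, 2, 2411), (10, 1, 115051)],
    1436576828, 1894992697, 987, 8441⟩,
  ⟨1468619340, 2117179229, 300, 3832256, [(0, 1, 55248), (1, 19577, 6), (1, 14502, 2), (1, 10742,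
    2), (1, 7957, 2), (1, 5894, 2), (1, 4366, 2), (1, 3234, 2), (1, 2395, 2), (1, 1774, 2), (1,
    1314, 2), (1, 973, 2), (1, 721, 2), (1, 534, 2), (1, 395, 2), (1, 293, 2), (1, 217, 2), (1,
    160, 2), (1, 119, 2), (1, 88, 2), (1, 65, 2), (1, 48, 2), (1, 35, 2), (1, 26, 2), (1, 19, 2),
    (1, 14, 2), (1, 10, 2), (1, 8, 2), (1, 6, 2), (1, 5, 1), (1, 4, 2), (1, 3, 2), (1, 2, 3), (1,
    1, 7), (2, 534, 5), (2, 395, 5), (2, 293, 5), (2, 217, 5), (2, 160, 5), (2, 119, 5), (2, 88,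
    5), (2, 65, 5), (2, 48, 5), (2, 35, 5), (2, 26, 5), (2, 19, 5), (2, 14, 5), (2, 10, 6), (2, 8,
    3), (2, 6, 5), (2, 5, 3), (2, 4, 3), (2, 3, 5), (2, 2, 8), (2, 1, 21), (3, 88, 5), (3, 65, 11),
    (3, 48, 11), (3, 35, 11), (3, 26, 10), (3, 19, 11), (3, 14, 11), (3, 10, 13), (3, 8, 7), (3, 6,
    10), (3, 5, 5), (3, 4, 7), (3, 3, 10), (3, 2, 18), (3, 1, 65), (4, 26, 18), (4, 19, 24), (4,
    14, 23), (4, 10, 28), (4, 8, 13), (4, 6, 20), (4, 5, 10), (4, 4, 13), (4, 3, 20), (4, 2, 42),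
    (4, 1, 193), (5, 14, 13), (5, 10, 59), (5, 8, 26), (5, 6, 42), (5, 5, 18), (5, 4, 26), (5, 3,
    42), (5, 2, 94), (5, 1, 566), (6, 8, 35), (6, 6, 84), (6, 5, 34), (6, 4, 49), (6, 3, 84), (6,
    2, 208), (6, 1, 1643), (7, 6, 18), (7, 5, 62), (7, 4, 93), (7, 3, 168), (7, 2, 459), (7, 1,
    4762), (8, 4, 121), (8, 3, 331), (8, 2, 1007), (8, 1, 13926), (9, 3, 387), (9, 2, 2198), (9, 1,
    43899), (10, 48, 1), (10, 35, 2596), (10, 26, 3242), (10, 19, 2526), (10, 14, 1406), (10, 10,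
    1555), (10, 8, 377), (10, 6, 735), (10, 5, 207), (10, 4, 333), (10, 3, 711), (10, 2, 2725),
    (10, 1, 102342)], 1887423932, 2535983821, 1000, 8665⟩,
  ⟨2383824792, 3015460139, 305, 4882442, [(0, 1, 61762), (1, 26430, 4), (1, 19577, 2), (1, 14502,
    2), (1, 10742, 2), (1, 7957, 2), (1, 5894, 2), (1, 4366, 2), (1, 3234, 2), (1, 2395, 2), (1,
    1774, 2), (1, 1314, 2), (1, 973, 2), (1, 721, 2), (1, 534, 2), (1, 395, 2), (1, 293, 2), (1,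
    217, 2), (1, 160, 2), (1, 119, 2), (1, 88, 2), (1, 65, 2), (1, 48, 2), (1, 35, 2), (1, 26, 2),
    (1, 19, 2), (1, 14, 2), (1, 10, 2), (1, 8, 1), (1, 6, 2), (1, 5, 1), (1, 4, 1), (1, 3, 2), (1,
    2, 2), (1, 1, 5), (2, 721, 2), (2, 534, 3), (2, 395, 3), (2, 293, 3), (2, 217, 3), (2, 160, 4),
    (2, 119, 3), (2, 88, 3), (2, 65, 3), (2, 48, 4), (2, 35, 4), (2, 26, 3), (2, 19, 4), (2, 14,
    4), (2, 10, 4), (2, 8, 2), (2, 6, 3), (2, 5, 2), (2, 4, 2), (2, 3, 3), (2, 2, 5), (2, 1, 15),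
    (3, 88, 6), (3, 65, 7), (3, 48, 7), (3, 35, 7), (3, 26, 6), (3, 19, 7), (3, 14, 7), (3, 10, 8),
    (3, 8, 4), (3, 6, 6), (3, 5, 3), (3, 4, 4), (3, 3, 6), (3, 2, 11), (3, 1, 39), (4, 35, 2), (4,
    26, 12), (4, 19, 13), (4, 14, 12), (4, 10, 15), (4, 8, 7), (4, 6, 11), (4, 5, 5), (4, 4, 7),
    (4, 3, 11), (4, 2, 22), (4, 1, 101), (5, 14, 13), (5, 10, 27), (5, 8, 12), (5, 6, 19), (5, 5,
    9), (5, 4, 12), (5, 3, 19), (5, 2, 43), (5, 1, 259), (6, 10, 2), (6, 8, 20), (6, 6, 34), (6, 5,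
    14), (6, 4, 20), (6, 3, 34), (6, 2, 84), (6, 1, 658), (7, 6, 15), (7, 5, 22), (7, 4, 33), (7,
    3, 59), (7, 2, 162), (7, 1, 1672), (8, 5, 2), (8, 4, 54), (8, 3, 103), (8, 2, 311), (8, 1,
    4250), (9, 3, 175), (9, 2, 595), (9, 1, 10928), (10, 3, 23), (10, 2, 1135), (10, 1, 30392)],
    2426295158, 3057930505, 1009, 8821⟩,
  ⟨2813296065, 3558727206, 311, 5304051, [(0, 1, 67096), (1, 35680, 2), (1, 26430, 2), (1, 19577,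
    2), (1, 14502, 2), (1, 10742, 2), (1, 7957, 2), (1, 5894, 2), (1, 4366, 2), (1, 3234, 2), (1,
    2395, 2), (1, 1774, 2), (1, 1314, 2), (1, 973, 2), (1, 721, 2), (1, 534, 2), (1, 395, 2), (1,
    293, 2), (1, 217, 2), (1, 160, 2), (1, 119, 2), (1, 88, 2), (1, 65, 2), (1, 48, 2), (1, 35, 2),
    (1, 26, 2), (1, 19, 2), (1, 14, 2), (1, 10, 2), (1, 8, 1), (1, 6, 2), (1, 5, 1), (1, 4, 1), (1,
    3, 2), (1, 2, 2), (1, 1, 5), (2, 721, 2), (2, 534, 3), (2, 395, 3), (2, 293, 3), (2, 217, 3),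
    (2, 160, 4), (2, 119, 3), (2, 88, 3), (2, 65, 3), (2, 48, 4), (2, 35, 4), (2, 26, 3), (2, 19,
    4), (2, 14, 4), (2, 10, 4), (2, 8, 2), (2, 6, 3), (2, 5, 2), (2, 4, 2), (2, 3, 3), (2, 2, 5),
    (2, 1, 15), (3, 88, 8), (3, 65, 7), (3, 48, 7), (3, 35, 7), (3, 26, 6), (3, 19, 7), (3, 14, 7),
    (3, 10, 8), (3, 8, 4), (3, 6, 6), (3, 5, 3), (3, 4, 4), (3, 3, 6), (3, 2, 11), (3, 1, 39), (4,
    35, 3), (4, 26, 12), (4, 19, 13), (4, 14, 12), (4, 10, 15), (4, 8, 7), (4, 6, 11), (4, 5, 5),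
    (4, 4, 7), (4, 3, 11), (4, 2, 22), (4, 1, 101), (5, 14, 16), (5, 10, 27), (5, 8, 12), (5, 6,
    19), (5, 5, 9), (5, 4, 12), (5, 3, 19), (5, 2, 43), (5, 1, 259), (6, 10, 3), (6, 8, 20), (6, 6,
    34), (6, 5, 14), (6, 4, 20), (6, 3, 34), (6, 2, 84), (6, 1, 659), (7, 6, 18), (7, 5, 22), (7,
    4, 33), (7, 3, 59), (7, 2, 162), (7, 1, 1672), (8, 5, 4), (8, 4, 54), (8, 3, 103), (8, 2, 311),
    (8, 1, 4248), (9, 4, 2), (9, 3, 176), (9, 2, 595), (9, 1, 10897), (10, 3, 29), (10, 2, 1135),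
    (10, 1, 29825), (11, 48, 1), (11, 35, 858), (11, 26, 787), (11, 19, 825), (11, 14, 668), (11,
    10, 909), (11, 8, 208), (11, 6, 441), (11, 5, 114), (11, 4, 191), (11, 3, 432), (11, 2, 1848)],
    3050404781, 3795835922, 1019, 8997⟩,
  ⟨3283398073, 4283889733, 317, 5730094, [(0, 1, 74762), (1, 35680, 3), (1, 26430, 2), (1, 19577,
    2), (1, 14502, 2), (1, 10742, 2), (1, 7957, 2), (1, 5894, 2), (1, 4366, 2), (1, 3234, 2), (1,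
    2395, 2), (1, 1774, 2), (1, 1314, 2), (1, 973, 2), (1, 721, 2), (1, 534, 2), (1, 395, 2), (1,
    293, 2), (1, 217, 2), (1, 160, 2), (1, 119, 2), (1, 88, 2), (1, 65, 2), (1, 48, 2), (1, 35, 2),
    (1, 26, 2), (1, 19, 2), (1, 14, 2), (1, 10, 2), (1, 8, 1), (1, 6, 2), (1, 5, 1), (1, 4, 1), (1,
    3, 2), (1, 2, 3), (1, 1, 6), (2, 721, 3), (2, 534, 4), (2, 395, 4), (2, 293, 4), (2, 217, 4),
    (2, 160, 4), (2, 119, 4), (2, 88, 4), (2, 65, 4), (2, 48, 4), (2, 35, 4), (2, 26, 4), (2, 19,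
    4), (2, 14, 4), (2, 10, 4), (2, 8, 3), (2, 6, 4), (2, 5, 2), (2, 4, 3), (2, 3, 4), (2, 2, 6),
    (2, 1, 16), (3, 119, 2), (3, 88, 7), (3, 65, 7), (3, 48, 7), (3, 35, 8), (3, 26, 7), (3, 19,
    8), (3, 14, 7), (3, 10, 9), (3, 8, 5), (3, 6, 7), (3, 5, 4), (3, 4, 5), (3, 3, 7), (3, 2, 12),
    (3, 1, 44), (4, 35, 4), (4, 26, 13), (4, 19, 15), (4, 14, 14), (4, 10, 17), (4, 8, 8), (4, 6,
    13), (4, 5, 6), (4, 4, 8), (4, 3, 13), (4, 2, 25), (4, 1, 118), (5, 14, 22), (5, 10, 33), (5,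
    8, 14), (5, 6, 23), (5, 5, 10), (5, 4, 14), (5, 3, 23), (5, 2, 52), (5, 1, 311), (6, 10, 5),
    (6, 8, 25), (6, 6, 42), (6, 5, 17), (6, 4, 25), (6, 3, 42), (6, 2, 104), (6, 1, 818), (7, 6,
    29), (7, 5, 28), (7, 4, 42), (7, 3, 76), (7, 2, 207), (7, 1, 2142), (8, 5, 8), (8, 4, 71), (8,
    3, 135), (8, 2, 411), (8, 1, 5613), (9, 4, 6), (9, 3, 240), (9, 2, 811), (9, 1, 14876), (10, 3,
    51), (10, 2, 1594), (10, 1, 42612), (11, 65, 1), (11, 48, 1176), (11, 35, 2037), (11, 26,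
    1292), (11, 19, 1063), (11, 14, 811), (11, 10, 1096), (11, 8, 251), (11, 6, 533), (11, 5, 137),
    (11, 4, 231), (11, 3, 522), (11, 2, 2233)], 3786403165, 4786894825, 1030, 9192⟩,
  ⟨3877384809, 5236094517, 323, 6226865, [(0, 1, 84090), (1, 35680, 4), (1, 26430, 2), (1, 19577,
    2), (1, 14502, 2), (1, 10742, 2), (1, 7957, 2), (1, 5894, 2), (1, 4366, 2), (1, 3234, 2), (1,
    2395, 2), (1, 1774, 2), (1, 1314, 2), (1, 973, 2), (1, 721, 2), (1, 534, 2), (1, 395, 2), (1,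
    293, 2), (1, 217, 2), (1, 160, 2), (1, 119, 2), (1, 88, 2), (1, 65, 2), (1, 48, 2), (1, 35, 2),
    (1, 26, 2), (1, 19, 2), (1, 14, 2), (1, 10, 2), (1, 8, 2), (1, 6, 2), (1, 5, 1), (1, 4, 2), (1,
    3, 2), (1, 2, 3), (1, 1, 6), (2, 721, 4), (2, 534, 4), (2, 395, 4), (2, 293, 4), (2, 217, 4),
    (2, 160, 4), (2, 119, 4), (2, 88, 4), (2, 65, 4), (2, 48, 4), (2, 35, 4), (2, 26, 4), (2, 19,
    4), (2, 14, 4), (2, 10, 5), (2, 8, 3), (2, 6, 4), (2, 5, 2), (2, 4, 3), (2, 3, 4), (2, 2, 6),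
    (2, 1, 18), (3, 119, 3), (3, 88, 8), (3, 65, 8), (3, 48, 8), (3, 35, 9), (3, 26, 8), (3, 19,
    9), (3, 14, 8), (3, 10, 10), (3, 8, 5), (3, 6, 8), (3, 5, 4), (3, 4, 5), (3, 3, 8), (3, 2, 14),
    (3, 1, 50), (4, 35, 6), (4, 26, 16), (4, 19, 18), (4, 14, 17), (4, 10, 20), (4, 8, 10), (4, 6,
    15), (4, 5, 7), (4, 4, 10), (4, 3, 15), (4, 2, 30), (4, 1, 140), (5, 14, 33), (5, 10, 40), (5,
    8, 18), (5, 6, 29), (5, 5, 13), (5, 4, 18), (5, 3, 29), (5, 2, 63), (5, 1, 382), (6, 10, 9),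
    (6, 8, 31), (6, 6, 54), (6, 5, 22), (6, 4, 31), (6, 3, 54), (6, 2, 132), (6, 1, 1040), (7, 6,
    46), (7, 5, 37), (7, 4, 55), (7, 3, 100), (7, 2, 273), (7, 1, 2821), (8, 5, 15), (8, 4, 97),
    (8, 3, 184), (8, 2, 560), (8, 1, 7653), (9, 4, 13), (9, 3, 338), (9, 2, 1144), (9, 1, 21042),
    (10, 3, 92), (10, 2, 2325), (10, 1, 63696), (11, 65, 1), (11, 48, 1942), (11, 35, 4596), (11,
    26, 2848), (11, 19, 1560), (11, 14, 997), (11, 10, 1313), (11, 8, 301), (11, 6, 641), (11, 5,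
    165), (11, 4, 278), (11, 3, 628), (11, 2, 2684)], 4784233185, 6142942893, 1041, 9390⟩,
  ⟨5006498458, 6760871159, 330, 7075661, [(0, 1, 95552), (1, 35680, 6), (1, 26430, 2), (1, 19577,
    2), (1, 14502, 2), (1, 10742, 2), (1, 7957, 2), (1, 5894, 2), (1, 4366, 2), (1, 3234, 2), (1,
    2395, 2), (1, 1774, 2), (1, 1314, 2), (1, 973, 2), (1, 721, 2), (1, 534, 2), (1, 395, 2), (1,
    293, 2), (1, 217, 2), (1, 160, 2), (1, 119, 2), (1, 88, 2), (1, 65, 2), (1, 48, 2), (1, 35, 2),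
    (1, 26, 2), (1, 19, 2), (1, 14, 2), (1, 10, 2), (1, 8, 2), (1, 6, 2), (1, 5, 1), (1, 4, 2), (1,
    3, 2), (1, 2, 3), (1, 1, 6), (2, 973, 1), (2, 721, 4), (2, 534, 4), (2, 395, 4), (2, 293, 4),
    (2, 217, 4), (2, 160, 4), (2, 119, 4), (2, 88, 4), (2, 65, 4), (2, 48, 4), (2, 35, 4), (2, 26,
    4), (2, 19, 4), (2, 14, 4), (2, 10, 5), (2, 8, 3), (2, 6, 4), (2, 5, 2), (2, 4, 3), (2, 3, 4),
    (2, 2, 6), (2, 1, 18), (3, 119, 4), (3, 88, 8), (3, 65, 8), (3, 48, 8), (3, 35, 9), (3, 26, 8),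
    (3, 19, 9), (3, 14, 8), (3, 10, 10), (3, 8, 5), (3, 6, 8), (3, 5, 4), (3, 4, 5), (3, 3, 8), (3,
    2, 14), (3, 1, 50), (4, 35, 9), (4, 26, 16), (4, 19, 18), (4, 14, 17), (4, 10, 20), (4, 8, 10),
    (4, 6, 15), (4, 5, 7), (4, 4, 10), (4, 3, 15), (4, 2, 30), (4, 1, 140), (5, 19, 3), (5, 14,
    32), (5, 10, 40), (5, 8, 18), (5, 6, 29), (5, 5, 13), (5, 4, 18), (5, 3, 29), (5, 2, 63), (5,
    1, 382), (6, 10, 14), (6, 8, 31), (6, 6, 54), (6, 5, 22), (6, 4, 31), (6, 3, 54), (6, 2, 132),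
    (6, 1, 1040), (7, 6, 63), (7, 5, 37), (7, 4, 55), (7, 3, 100), (7, 2, 273), (7, 1, 2821), (8,
    5, 23), (8, 4, 97), (8, 3, 184), (8, 2, 560), (8, 1, 7648), (9, 4, 22), (9, 3, 338), (9, 2,
    1144), (9, 1, 20946), (10, 3, 126), (10, 2, 2326), (10, 1, 61605), (11, 65, 1), (11, 48, 1738),
    (11, 35, 2907), (11, 26, 1834), (11, 19, 1544), (11, 14, 1190), (11, 10, 1613), (11, 8, 370),
    (11, 6, 787), (11, 5, 203), (11, 4, 341), (11, 3, 770), (11, 2, 3292), (11, 1, 190850)],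
    6125462196, 7879834897, 1053, 9608⟩,
  ⟨6067472871, 8512555035, 337, 7789398, [(0, 1, 109285), (1, 65028, 1), (1, 48169, 2), (1,
    35680, 2), (1, 26430, 2), (1, 19577, 2), (1, 14502, 2), (1, 10742, 2), (1, 7957, 2), (1, 5894,
    2), (1, 4366, 2), (1, 3234, 2), (1, 2395, 2), (1, 1774, 2), (1, 1314, 2), (1, 973, 2), (1, 721,
    2), (1, 534, 2), (1, 395, 2), (1, 293, 2), (1, 217, 2), (1, 160, 2), (1, 119, 2), (1, 88, 2),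
    (1, 65, 2), (1, 48, 2), (1, 35, 2), (1, 26, 2), (1, 19, 2), (1, 14, 2), (1, 10, 2), (1, 8, 2),
    (1, 6, 2), (1, 5, 1), (1, 4, 2), (1, 3, 2), (1, 2, 3), (1, 1, 6), (2, 973, 2), (2, 721, 5), (2,
    534, 5), (2, 395, 5), (2, 293, 5), (2, 217, 5), (2, 160, 5), (2, 119, 4), (2, 88, 5), (2, 65,
    5), (2, 48, 5), (2, 35, 5), (2, 26, 4), (2, 19, 5), (2, 14, 5), (2, 10, 5), (2, 8, 3), (2, 6,
    4), (2, 5, 3), (2, 4, 3), (2, 3, 4), (2, 2, 7), (2, 1, 20), (3, 119, 6), (3, 88, 10), (3, 65,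
    10), (3, 48, 10), (3, 35, 10), (3, 26, 9), (3, 19, 10), (3, 14, 10), (3, 10, 12), (3, 8, 6),
    (3, 6, 9), (3, 5, 5), (3, 4, 6), (3, 3, 9), (3, 2, 16), (3, 1, 59), (4, 35, 15), (4, 26, 19),
    (4, 19, 21), (4, 14, 20), (4, 10, 24), (4, 8, 12), (4, 6, 18), (4, 5, 9), (4, 4, 12), (4, 3,
    18), (4, 2, 36), (4, 1, 169), (5, 19, 5), (5, 14, 41), (5, 10, 50), (5, 8, 22), (5, 6, 36), (5,
    5, 16), (5, 4, 22), (5, 3, 36), (5, 2, 80), (5, 1, 481), (6, 10, 24), (6, 8, 41), (6, 6, 70),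
    (6, 5, 28), (6, 4, 41), (6, 3, 70), (6, 2, 173), (6, 1, 1359), (7, 6, 107), (7, 5, 50), (7, 4,
    75), (7, 3, 135), (7, 2, 370), (7, 1, 3828), (8, 5, 43), (8, 4, 136), (8, 3, 260), (8, 2, 789),
    (8, 1, 10787), (9, 4, 45), (9, 3, 495), (9, 2, 1675), (9, 1, 30757), (10, 3, 242), (10, 2,
    3537), (10, 1, 95882), (11, 65, 1), (11, 48, 2994), (11, 35, 6497), (11, 26, 3865), (11, 19,
    2279), (11, 14, 1526), (11, 10, 2024), (11, 8, 465), (11, 6, 989), (11, 5, 255), (11, 4, 428),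
    (11, 3, 967), (11, 2, 4133), (11, 1, 226121)], 7849413126, 10294495290, 1065, 9828⟩]

theorem dataC_ok : chkPlans dataC 145710574 10294495291 = true := by decide +kernel

end Pool.Agent.Lib.MP_ed661f_ag.Z
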