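import Pool.Agent.Lib.MP_ed661f_ag.H.PDefs
import Pool.Agent.Lib.MP_ed661f_ag.G.Diff

/-!
Explicit chains of contact orders: definitions.
-/

set_option autoImplicit false

namespace Pool.Agent.Lib.MP_ed661f_ag.Z

/-- the states reached by chains of contact orders, on a surface of degree `δ`: the chain starts
at any integer `ρ > δ` and the steps satisfy the strict inequality `x ^ 2 < σ'` -/
inductive RchS (δ : ℕ) : ℕ → ℝ → Prop
  | start (ρ : ℕ) : δ < ρ → RchS δ ρ (ρ / √δ)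
  | step {σ : ℕ} {x : ℝ} (σ' : ℕ) : RchS δ σ x → σ < σ' → x ^ 2 < σ' →
      RchS δ σ' (σ' / x)

/-- a state with `x ^ 2 = z exp u` -/
def Cn (δ z : ℕ) (u : ℝ) : Prop :=
  0 ≤ u ∧ ∃ (σ : ℕ) (x : ℝ), RchS δ σ x ∧ σ ≤ z ∧ 0 < x ∧ x ^ 2 = z * Real.exp u

/-- the steps of the blocks of level `k` -/
def hsl (p : ℕ) : ℕ → List ℝ
  | 0 => [(p : ℝ)]
  | k + 1 => (2 ^ k * p : ℝ) :: hsl p k

/-- the effect of a block of level `k` with the step `p` at `z` -/
noncomputable def E (k p : ℕ) (z : ℝ) : ℝ := -G.dl (hsl p k) Real.log z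

/-- the constant of the level `k` -/
def ck (k : ℕ) : ℕ := k.factorial * 2 ^ (k * (k - 1) / 2)

/-- upper bound for `E` -/
noncomputable def hiR (k p : ℕ) (z : ℝ) : ℝ := ck k * p ^ (k + 1) / z ^ (k + 1)

/-- lower bound for `E` -/
noncomputable def loR (k p : ℕ) (z : ℝ) : ℝ := ck k * p ^ (k + 1) / (z + 2 ^ k * p) ^ (k + 1)

/-- the side condition for the blocks of level `k` with the step `p` -/
def side (k p : ℕ) : ℕ := 3 * (k - 1) * 2 ^ (k - 2) * p

/-- the target: `E n = exp (- (2 / 5) (log n) ^ 2)` -/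
noncomputable def tgt (n : ℕ) : ℝ := Real.exp (-(2 / 5) * Real.log n ^ 2)

end Pool.Agent.Lib.MP_ed661f_ag.Z
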