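import Pool.Agent.Lib.MP_ed661f_ag.Z.ChainS
import Pool.Agent.Lib.MP_ed661f_ag.H.Main

/-! A chain with `x ^ 2 ≥ n` gives `ε ^ 2 ≥ L ^ 2 / x ^ 2`. -/

set_option autoImplicit false

open Polynomial
open scoped ENNReal

namespace Pool.Agent.Lib.MP_ed661f_ag.Z

open Pool.Agent.Lib.MP_ed661f_ag.H

/-- a chain gives separation of jets, with any ratio smaller than `√δ / x` -/
theorem monSep_of_rchS {δ n σ : ℕ} {x : ℝ} (h : RchS δ σ x) (hδ : 1 ≤ δ) (hx : √n ≤ x)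
    (hn : δ ≤ n) (C : ℕ) {r : ℝ} (hr : r < √δ / x) :
    ∃ κ s : ℕ, 1 ≤ s ∧ s ≤ κ ∧ r ≤ s / κ ∧
      ∀ S : Finset (ℕ × ℕ), (∀ b ≤ κ, δ * (κ - b) ≤ (S.filter fun s => s.2 = b).card + C) →
        ∃ q : Fin n → ℂ × ℂ, Function.Injective q ∧ MonSep S q s := by
  obtain ⟨M, hM⟩ := sur_of_rchS h hδ hx (hδ.trans hn) C
  have hδR : (1 : ℝ) ≤ δ := by exact_mod_cast hδ
  have hnR : (δ : ℝ) ≤ n := by exact_mod_cast hn
  have hs : 0 < √(δ : ℝ) := Real.sqrt_pos.2 (by linarith)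
  have hsn : √(δ : ℝ) ≤ √n := Real.sqrt_le_sqrt hnR
  have hx0 : 0 < x := lt_of_lt_of_le hs (hsn.trans hx)
  have hq1 : √δ / x ≤ 1 := by
    rw [div_le_one hx0]
    exact hsn.trans hx
  have hq0 : 0 < √δ / x := by positivity
  set q := √δ / x with hq
  -- the constants
  obtain ⟨B, hB⟩ : ∃ B : ℝ, B = |M| / x ^ 2 + 2 := ⟨_, rfl⟩
  have hB0 : 0 < B := by
    rw [hB]
    positivity
  obtain ⟨κ, hκ⟩ : ∃ κ : ℕ, B / (q - max r 0) + (B + 1) / q < κ := by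
    exact exists_nat_gt _
  have hr' : max r 0 < q := max_lt hr hq0
  have hκ1 : B / (q - max r 0) < κ := by
    have : 0 < (B + 1) / q := by positivity
    linarith
  have hκ2 : (B + 1) / q < κ := by
    have : 0 < B / (q - max r 0) := div_pos hB0 (by linarith)
    linarith
  rw [div_lt_iff₀ (by linarith)] at hκ1
  rw [div_lt_iff₀ hq0] at hκ2
  have hκ0 : (0 : ℝ) < κ := by
    by_contra hcon
    have h1 : (κ : ℝ) = 0 := le_antisymm (not_lt.1 hcon) (Nat.cast_nonneg _)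
    rw [h1, zero_mul] at hκ2
    linarith
  -- the order
  have hB2 : 2 ≤ B := by
    rw [hB]
    have : 0 ≤ |M| / x ^ 2 := by positivity
    linarith
  obtain ⟨s, hs1⟩ : ∃ s : ℕ, s = ⌊κ * q - B⌋₊ + 1 := ⟨_, rfl⟩
  have hs2 : κ * q - B < s := by
    rw [hs1]
    push_cast
    exact Nat.lt_floor_add_one _
  have hs3 : (s : ℝ) ≤ κ * q - B + 1 := by
    rw [hs1]
    push_cast
    have := Nat.floor_le (show 0 ≤ κ * q - B by linarith)
    linarith
  refine ⟨κ, s, by omega, ?_, ?_, fun S hS => ?_⟩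
  · have h1 : (κ : ℝ) * q ≤ κ := by nlinarith
    have h2 : (s : ℝ) ≤ κ := by linarith
    exact_mod_cast h2
  · rw [le_div_iff₀ hκ0]
    have h1 : r * κ ≤ max r 0 * κ := mul_le_mul_of_nonneg_right (le_max_left _ _) hκ0.le
    linarith
  · obtain ⟨μ, ξ, hμ, h1⟩ := hM κ (s + 1) (by
      push_cast
      have h2 : (s : ℝ) + 1 ≤ κ * q - |M| / x ^ 2 := by linarith
      have h3 : x ^ 2 * ((s : ℝ) + 1) ≤ x ^ 2 * (κ * q - |M| / x ^ 2) :=
        mul_le_mul_of_nonneg_left h2 (sq_nonneg x)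
      have h4 : x ^ 2 * (κ * q - |M| / x ^ 2) = x * (κ * √δ) - |M| := by
        rw [hq]
        field_simp
      have h5 := le_abs_self M
      linarith) S hS
    exact monSep_of_sur hμ h1

/-- every chain with `x ≥ √n` gives `√(L ^ 2) / x ≤ ε` -/
theorem ofReal_le_eps {N : ℕ} {I : Ideal (Poly N)} (hI : IsSurface I) {δ n σ : ℕ} {x : ℝ}
    (hδI : surfDeg I = δ) (hδ : 1 ≤ δ) (h : RchS δ σ x) (hx : √n ≤ x) (hn : δ ≤ n) :
    ENNReal.ofReal (√δ / x) ≤ eps I n := by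
  have key : ∀ r : ℝ, r < √δ / x → ENNReal.ofReal r ≤ eps I n := by
    intro r hr
    obtain ⟨d, hd, hdI, ⟨ch⟩⟩ := exists_chart hI
    have hdδ : d = δ := by
      rw [hδI] at hdI
      exact_mod_cast hdI.symm
    subst hdδ
    obtain ⟨κ, s, hs, hsκ, hb, hS⟩ := monSep_of_rchS h hδ hx hn (∑ l, ch.a l) hr
    obtain ⟨c, S, F, hrow, hF, hlead⟩ := exists_rows ch κ
    obtain ⟨q, hq, hsep⟩ := hS S hrow
    obtain ⟨v, hv, hv1, hvI, hjet⟩ := jetSep_of_monSep ch hs hF hlead hq hsep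
    have h1 := le_eps_of_jetSep hs hsκ hI ch.hy0 hv hv1 hvI hjet
    have hκ : 0 < κ := by omega
    have h3 : (s : ℝ≥0∞) / κ = ENNReal.ofReal (s / κ) := by
      rw [ENNReal.ofReal_div_of_pos (by exact_mod_cast hκ), ENNReal.ofReal_natCast,
        ENNReal.ofReal_natCast]
    rw [h3] at h1
    exact (ENNReal.ofReal_le_ofReal hb).trans h1
  refine le_of_forall_lt fun c hc => ?_
  obtain ⟨r, hr, hcr⟩ : ∃ r : ℝ, r < √δ / x ∧ c < ENNReal.ofReal r := by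
    have hc1 : c ≠ ⊤ := ne_top_of_lt hc
    have hc2 : c.toReal < √δ / x := by
      rw [← ENNReal.ofReal_toReal hc1] at hc
      rw [ENNReal.ofReal_lt_ofReal_iff'] at hc
      exact hc.1
    obtain ⟨r, h1, h2⟩ := exists_between hc2
    refine ⟨r, h2, ?_⟩
    rw [← ENNReal.ofReal_toReal hc1, ENNReal.ofReal_lt_ofReal_iff']
    exact ⟨h1, lt_of_le_of_lt ENNReal.toReal_nonneg h1⟩
  exact lt_of_lt_of_le hcr (key r hr)

/-- **the bound from a chain** -/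
theorem chain_bound {N : ℕ} {I : Ideal (Poly N)} (hI : IsSurface I) {δ n σ : ℕ} {x b : ℝ}
    (hδI : surfDeg I = δ) (hδ : 1 ≤ δ) (h : RchS δ σ x) (hx0 : 0 < x) (hx : (n : ℝ) ≤ x ^ 2)
    (hn : δ ≤ n) (hb : x ^ 2 * (1 - b) ≤ n) :
    surfDeg I / n * ENNReal.ofReal (1 - b) ≤ eps I n ^ 2 := by
  have hn0 : 0 < n := lt_of_lt_of_le hδ hn
  have hnR : (0 : ℝ) < n := by exact_mod_cast hn0
  have hδR : (1 : ℝ) ≤ δ := by exact_mod_cast hδ
  have h1 := ofReal_le_eps hI hδI hδ h (Real.sqrt_le_iff.2 ⟨hx0.le, hx⟩) hn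
  rw [hδI]
  have h2 : (δ : ℝ≥0∞) / n * ENNReal.ofReal (1 - b) = ENNReal.ofReal (δ / n * (1 - b)) := by
    rw [ENNReal.ofReal_mul (by positivity), ENNReal.ofReal_div_of_pos hnR,
      ENNReal.ofReal_natCast, ENNReal.ofReal_natCast]
  rw [h2]
  refine le_trans ?_ (pow_le_pow_left₀ (by positivity) h1 2)
  rw [← ENNReal.ofReal_pow (by positivity)]
  refine ENNReal.ofReal_le_ofReal ?_
  rw [div_pow, Real.sq_sqrt (by linarith), div_mul_eq_mul_div, div_le_div_iff₀ hnR (by positivity)]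
  nlinarith

end Pool.Agent.Lib.MP_ed661f_ag.Z
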