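import Pool.Agent.Lib.MP_ed661f_ag.Z.FinalS
import Pool.Agent.Lib.MP_ed661f_ag.Z.DataA
import Pool.Agent.Lib.MP_ed661f_ag.Z.DataB
import Pool.Agent.Lib.MP_ed661f_ag.Z.DataC
import Pool.Agent.Lib.MP_ed661f_ag.Z.DataD
import Pool.Agent.Lib.MP_ed661f_ag.Z.DataE
import Pool.Agent.Lib.MP_ed661f_ag.Z.DataF
import Pool.Agent.Lib.MP_ed661f_ag.Z.DataG
import Pool.Agent.Lib.MP_ed661f_ag.Z.Small
import Pool.Agent.Lib.MP_ed661f_ag.Z.Asym

/-! The explicit bound for all irreducible projective surfaces and all `n ≥ 3 L ^ 2`. -/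

set_option autoImplicit false

open scoped ENNReal

namespace Pool.Agent.Lib.MP_ed661f_ag.Z

open Pool.Agent.Lib.MP_ed661f_ag.H

theorem middle (n δ : ℕ) (h0 : 130 ≤ n) (h1 : n < 2 ^ 50) (hδ : 1 ≤ δ) (h3 : 3 * δ ≤ n) :
    ∃ u, Cn δ n u ∧ u ≤ tgt n := by
  rcases lt_or_ge n 805738 with h | h
  · exact chkPlans_sound _ _ _ dataA_ok n δ h0 h hδ h3
  rcases lt_or_ge n 145710574 with h4 | h4
  · exact chkPlans_sound _ _ _ dataB_ok n δ h h4 hδ h3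
  rcases lt_or_ge n 10294495291 with h5 | h5
  · exact chkPlans_sound _ _ _ dataC_ok n δ h4 h5 hδ h3
  rcases lt_or_ge n 404454516802 with h6 | h6
  · exact chkPlans_sound _ _ _ dataD_ok n δ h5 h6 hδ h3
  rcases lt_or_ge n 9972006542755 with h7 | h7
  · exact chkPlans_sound _ _ _ dataE_ok n δ h6 h7 hδ h3
  rcases lt_or_ge n 163711716193653 with h8 | h8
  · exact chkPlans_sound _ _ _ dataF_ok n δ h7 h8 hδ h3
  · exact chkPlans_sound _ _ _ dataG_ok n δ h8 (h1.trans (by norm_num)) hδ h3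

theorem chain_of_Cn {δ n : ℕ} {u : ℝ} (h : Cn δ n u) (hu : u ≤ tgt n) :
    ∃ (σ : ℕ) (x : ℝ), RchS δ σ x ∧ 0 < x ∧ (n : ℝ) ≤ x ^ 2 ∧ x ^ 2 * (1 - tgt n) ≤ n := by
  obtain ⟨hu0, σ, x, hr, -, hx, hx2⟩ := h
  have hn : (0 : ℝ) ≤ n := Nat.cast_nonneg n
  refine ⟨σ, x, hr, hx, ?_, ?_⟩
  · rw [hx2]
    have := Real.one_le_exp hu0
    nlinarith
  · rw [hx2]
    have h1 : 1 - tgt n ≤ Real.exp (-u) := by
      have := Real.add_one_le_exp (-u)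
      linarith
    calc (n : ℝ) * Real.exp u * (1 - tgt n) ≤ n * Real.exp u * Real.exp (-u) :=
          mul_le_mul_of_nonneg_left h1 (by positivity)
      _ = n := by
          rw [mul_assoc, ← Real.exp_add, add_neg_cancel, Real.exp_zero, mul_one]

theorem exists_chainZ (n δ : ℕ) (hδ : 1 ≤ δ) (h3 : 3 * δ ≤ n) :
    ∃ (σ : ℕ) (x : ℝ), RchS δ σ x ∧ 0 < x ∧ (n : ℝ) ≤ x ^ 2 ∧ x ^ 2 * (1 - tgt n) ≤ n := by
  rcases lt_or_ge n 130 with h | h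
  · exact small n δ hδ h3 h
  · rcases lt_or_ge n (2 ^ 50) with h1 | h1
    · obtain ⟨u, hu, hu1⟩ := middle n δ h h1 hδ h3
      exact chain_of_Cn hu hu1
    · obtain ⟨u, hu, hu1⟩ := asym n δ (le_trans (by norm_num) h1) hδ h3
      exact chain_of_Cn hu hu1

/-- **the main theorem** -/
theorem explicit_bound {N : ℕ} {I : Ideal (Poly N)} (hI : IsSurface I) {n : ℕ}
    (hn : 3 * surfDeg I ≤ n) :
    surfDeg I / n * ENNReal.ofReal (1 - Real.exp (-(2 / 5) * Real.log n ^ 2)) ≤ eps I n ^ 2 := by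
  obtain ⟨d, hd, hdI, -⟩ := exists_chart hI
  have h3 : 3 * d ≤ n := by
    rw [hdI] at hn
    exact_mod_cast hn
  obtain ⟨σ, x, hr, hx, hx1, hx2⟩ := exists_chainZ n d hd h3
  exact chain_bound hI hdI hd hr hx hx1 (by omega) hx2

end Pool.Agent.Lib.MP_ed661f_ag.Z
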