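import Pool.Agent.Lib.MP_ed661f_ag.Z.Defs

/-! Rational certificates for the target. -/

set_option autoImplicit false

namespace Pool.Agent.Lib.MP_ed661f_ag.Z

/-- the certificate: `U / D ≤ exp (- (2 / 5) (log n) ^ 2)` for all `n ≤ B` -/
def chkTgt (U D B a e : ℕ) : Bool :=
  Nat.ble (B ^ 32) (2 ^ a) && Nat.ble (27725888 * (a * a)) (e * 3200000000) &&
    Nat.ble (U ^ 32 * 2 ^ e) (D ^ 32)

theorem tgt_anti {n m : ℕ} (hn : 1 ≤ n) (h : n ≤ m) : tgt m ≤ tgt n := by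
  have hnR : (1 : ℝ) ≤ n := by exact_mod_cast hn
  have hmR : (n : ℝ) ≤ m := by exact_mod_cast h
  unfold tgt
  apply Real.exp_le_exp.2
  have h1 : 0 ≤ Real.log n := Real.log_nonneg hnR
  have h2 : Real.log n ≤ Real.log m := Real.log_le_log (by linarith) hmR
  have h3 : Real.log n ^ 2 ≤ Real.log m ^ 2 := pow_le_pow_left₀ h1 h2 2
  linarith

theorem le_tgt_of_chk {U D B a e n : ℕ} (h : chkTgt U D B a e = true) (hD : 0 < D) (hn : 1 ≤ n)
    (hnB : n ≤ B) : (U : ℝ) / D ≤ tgt n := by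
  unfold chkTgt at h
  rw [Bool.and_eq_true, Bool.and_eq_true, Nat.ble_eq, Nat.ble_eq, Nat.ble_eq] at h
  obtain ⟨⟨h1, h2⟩, h3⟩ := h
  refine le_trans ?_ (tgt_anti hn hnB)
  have hBR : (1 : ℝ) ≤ B := by exact_mod_cast hn.trans hnB
  have hDR : (0 : ℝ) < D := by exact_mod_cast hD
  have h1R : (B : ℝ) ^ 32 ≤ 2 ^ a := by exact_mod_cast h1
  have h2R : (27725888 : ℝ) * (a * a) ≤ e * 3200000000 := by exact_mod_cast h2
  have h3R : (U : ℝ) ^ 32 * 2 ^ e ≤ D ^ 32 := by exact_mod_cast h3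
  have hl0 : 0 ≤ Real.log B := Real.log_nonneg hBR
  have hl2 : 0 < Real.log 2 := Real.log_pos (by norm_num)
  have hlog2 : Real.log 2 ≤ 0.6931472 := by
    have := Real.log_two_lt_d9
    linarith
  have h4 : 32 * Real.log B ≤ a * Real.log 2 := by
    have h5 := Real.log_le_log (by positivity) h1R
    rw [Real.log_pow, Real.log_pow] at h5
    exact_mod_cast h5
  have ha0 : (0 : ℝ) ≤ a := Nat.cast_nonneg a
  -- `(2 / 5) (log B) ^ 2 ≤ (e / 32) log 2`
  have h6 : 2 / 5 * Real.log B ^ 2 ≤ e / 32 * Real.log 2 := by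
    have h7 : Real.log B ^ 2 ≤ (a * Real.log 2 / 32) ^ 2 :=
      pow_le_pow_left₀ hl0 (by linarith) 2
    have h8 : (a * Real.log 2 / 32) ^ 2 = (a * a) * Real.log 2 / 1024 * Real.log 2 := by ring
    have h9 : 2 / 5 * ((a * a : ℝ) * Real.log 2 / 1024) ≤ e / 32 := by
      have h10 : (a * a : ℝ) * Real.log 2 ≤ (a * a) * 0.6931472 :=
        mul_le_mul_of_nonneg_left hlog2 (by positivity)
      linarith
    calc 2 / 5 * Real.log B ^ 2 ≤ 2 / 5 * ((a * a) * Real.log 2 / 1024 * Real.log 2) := by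
          rw [← h8]
          linarith
      _ = 2 / 5 * ((a * a : ℝ) * Real.log 2 / 1024) * Real.log 2 := by ring
      _ ≤ e / 32 * Real.log 2 := mul_le_mul_of_nonneg_right h9 hl2.le
  have h7 : Real.exp (-(e / 32 * Real.log 2)) ≤ tgt B := by
    unfold tgt
    apply Real.exp_le_exp.2
    linarith
  refine le_trans ?_ h7
  have h8 : ((U : ℝ) / D) ^ 32 ≤ Real.exp (-(e / 32 * Real.log 2)) ^ 32 := by
    rw [← Real.exp_nat_mul, div_pow, div_le_iff₀ (by positivity)]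
    have h9 : ((32 : ℕ) : ℝ) * -(e / 32 * Real.log 2) = -(Real.log (2 ^ e)) := by
      rw [Real.log_pow]
      push_cast
      ring
    rw [h9, Real.exp_neg, Real.exp_log (by positivity), ← div_eq_inv_mul,
      le_div_iff₀ (by positivity)]
    exact h3R
  exact le_of_pow_le_pow_left₀ (by norm_num) (Real.exp_pos _).le h8

end Pool.Agent.Lib.MP_ed661f_ag.Z
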