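import Pool.Agent.Lib.MP_ed661f_ag.Z.Block
import Pool.Agent.Lib.MP_ed661f_ag.Z.Tgt

/-! Plans: lists of stages checked by integer arithmetic. -/

set_option autoImplicit false

namespace Pool.Agent.Lib.MP_ed661f_ag.Z

/-- the maximum, by arithmetic -/
def mx (a b : ℕ) : ℕ := a + (b - a)

theorem mx_eq (a b : ℕ) : mx a b = max a b := by
  unfold mx
  omega

/-- one stage: the positions are in `[A, B]`, the error is at most `U / D` -/
def stOk (D A B U k p M : ℕ) : Bool :=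
  Nat.ble 1 p && (Nat.ble 1 M && (Nat.ble (side k p) A && (Nat.beq k 0 ||
    Nat.ble (mx U (D * (ck k * p ^ (k + 1)) / A ^ (k + 1) + 1) *
      (B + (M - 1) * (2 ^ k * p) + 2 ^ (k - 1) * p) ^ k) (D * (ck (k - 1) * p ^ k)))))

/-- the new error -/
def stU (D A B U k p M : ℕ) : ℕ :=
  mx (U - M * (D * (ck k * p ^ (k + 1)) / (B + M * (2 ^ k * p)) ^ (k + 1)))
    (D * (ck k * p ^ (k + 1)) / A ^ (k + 1) + 1)

/-- a list of stages -/
def runPlan (D : ℕ) (fin : ℕ → ℕ → ℕ → Bool) : List (ℕ × ℕ × ℕ) → ℕ → ℕ → ℕ → Bool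
  | [], A, B, U => fin A B U
  | (k, p, M) :: t, A, B, U => stOk D A B U k p M &&
      runPlan D fin t (A + M * (2 ^ k * p)) (B + M * (2 ^ k * p)) (stU D A B U k p M)

theorem lt_div_add_one {a b : ℕ} (hb : 0 < b) : (a : ℝ) / b < ((a / b : ℕ) : ℝ) + 1 := by
  rw [div_lt_iff₀ (by exact_mod_cast hb)]
  have h := Nat.lt_div_mul_add hb (a := a)
  have h2 : a < (a / b + 1) * b := by
    calc a < a / b * b + b := h
      _ = (a / b + 1) * b := by ring
  exact_mod_cast h2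

theorem div_le_real {a b : ℕ} : ((a / b : ℕ) : ℝ) ≤ (a : ℝ) / b := Nat.cast_div_le

theorem stage_sound {D A B U k p M : ℕ} (hD : 0 < D) (hA : 1 ≤ A)
    (h : stOk D A B U k p M = true) {δ z : ℕ} {u : ℝ} (hz : A ≤ z) (hzB : z ≤ B) (hu : Cn δ z u)
    (huU : u ≤ U / D) :
    ∃ u', Cn δ (z + M * (2 ^ k * p)) u' ∧ u' ≤ (stU D A B U k p M : ℕ) / D := by
  unfold stOk at h
  rw [Bool.and_eq_true, Bool.and_eq_true, Bool.and_eq_true, Bool.or_eq_true, Nat.ble_eq,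
    Nat.ble_eq, Nat.ble_eq, Nat.ble_eq, Nat.beq_eq, mx_eq] at h
  obtain ⟨hp, hM, hs, hk⟩ := h
  have hDR : (0 : ℝ) < D := by exact_mod_cast hD
  have hAR : (1 : ℝ) ≤ A := by exact_mod_cast hA
  have hzR : (A : ℝ) ≤ z := by exact_mod_cast hz
  have hzBR : (z : ℝ) ≤ B := by exact_mod_cast hzB
  have hpR : (1 : ℝ) ≤ p := by exact_mod_cast hp
  obtain ⟨M', rfl⟩ : ∃ M', M = M' + 1 := ⟨M - 1, by omega⟩
  have hM0 : (0 : ℝ) ≤ M' := Nat.cast_nonneg M'
  obtain ⟨B', hB'⟩ : ∃ B' : ℝ, B' = B + M' * (2 ^ k * p) := ⟨_, rfl⟩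
  have hB1 : 1 ≤ B' := by
    rw [hB']
    have : (0 : ℝ) ≤ M' * (2 ^ k * p) := by positivity
    linarith
  -- the integer bounds
  obtain ⟨H, hH⟩ : ∃ H : ℕ, H = D * (ck k * p ^ (k + 1)) / A ^ (k + 1) + 1 := ⟨_, rfl⟩
  obtain ⟨l, hl⟩ : ∃ l : ℕ, l = D * (ck k * p ^ (k + 1)) /
      (B + (M' + 1) * (2 ^ k * p)) ^ (k + 1) := ⟨_, rfl⟩
  have hhi : hiR k p z ≤ (H : ℝ) / D := by
    refine (hiR_anti k p (by linarith) hzR).trans ?_
    unfold hiR
    rw [le_div_iff₀ hDR, hH]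
    have h1 := lt_div_add_one (a := D * (ck k * p ^ (k + 1))) (b := A ^ (k + 1)) (by positivity)
    push_cast at h1 ⊢
    calc (ck k : ℝ) * p ^ (k + 1) / A ^ (k + 1) * D = D * (ck k * p ^ (k + 1)) / A ^ (k + 1) := by
          ring
      _ ≤ _ := h1.le
  have hlo : (l : ℝ) / D ≤ loR k p B' := by
    unfold loR
    rw [div_le_iff₀ hDR, hl]
    refine div_le_real.trans (le_of_eq ?_)
    rw [hB']
    push_cast
    ring
  rw [← hH] at hk
  have hst : stU D A B U k p (M' + 1) = max (U - (M' + 1) * l) H := by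
    unfold stU
    rw [mx_eq, hH, hl]
  rw [hst]
  have hV : k = 0 ∨ ((U : ℝ) / D ≤ loR (k - 1) p B' ∧ hiR k p z ≤ loR (k - 1) p B') := by
    rcases hk with hk | hk
    · exact Or.inl hk
    · rcases Nat.eq_zero_or_pos k with h0 | h0
      · exact Or.inl h0
      · obtain ⟨j, rfl⟩ : ∃ j, k = j + 1 := ⟨k - 1, by omega⟩
        right
        rw [Nat.add_sub_cancel] at hk ⊢
        have hkR : (max (U : ℝ) H) * (B + M' * (2 ^ (j + 1) * p) + 2 ^ j * p) ^ (j + 1) ≤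
            D * (ck j * p ^ (j + 1)) := by
          rw [Nat.add_sub_cancel] at hk
          exact_mod_cast hk
        rw [← hB'] at hkR
        have h2 : ∀ w : ℝ, w ≤ max (U : ℝ) H → w / D ≤ loR j p B' := by
          intro w hw
          unfold loR
          rw [div_le_div_iff₀ hDR (by positivity)]
          calc w * (B' + 2 ^ j * p) ^ (j + 1) ≤ (max (U : ℝ) H) * (B' + 2 ^ j * p) ^ (j + 1) :=
                mul_le_mul_of_nonneg_right hw (by positivity)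
            _ ≤ D * (ck j * p ^ (j + 1)) := hkR
            _ = _ := by ring
        exact ⟨h2 U (le_max_left _ _), hhi.trans (h2 H (le_max_right _ _))⟩
  obtain ⟨u', h1, h2⟩ := stage (B := B') hp (by omega : 1 ≤ M' + 1) (by omega) (hs.trans hz) (by
    rw [hB']
    push_cast
    have : (M' : ℝ) + 1 - 1 = M' := by ring
    rw [this]
    linarith) hu huU hV
  refine ⟨u', h1, h2.trans (max_le ?_ ?_)⟩
  · have h3 : ((U : ℝ) - (M' + 1) * l) / D ≤ ((max (U - (M' + 1) * l) H : ℕ) : ℝ) / D := by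
      rw [div_le_div_iff_of_pos_right hDR]
      have h4 : (U : ℝ) ≤ ((U - (M' + 1) * l : ℕ) : ℝ) + (M' + 1) * l := by
        have : U ≤ (U - (M' + 1) * l) + (M' + 1) * l := by omega
        exact_mod_cast this
      have h5 : ((U - (M' + 1) * l : ℕ) : ℝ) ≤ ((max (U - (M' + 1) * l) H : ℕ) : ℝ) := by
        exact_mod_cast le_max_left _ _
      linarith
    refine le_trans ?_ h3
    have h6 : ((M' + 1 : ℕ) : ℝ) * (l / D) ≤ ((M' + 1 : ℕ) : ℝ) * loR k p B' :=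
      mul_le_mul_of_nonneg_left hlo (by positivity)
    have h7 : ((U : ℝ) - (M' + 1) * l) / D = U / D - ((M' + 1 : ℕ) : ℝ) * (l / D) := by
      push_cast
      ring
    rw [h7]
    linarith
  · refine hhi.trans ?_
    rw [div_le_div_iff_of_pos_right hDR]
    exact_mod_cast le_max_right _ _

theorem run_sound {D : ℕ} (hD : 0 < D) (fin : ℕ → ℕ → ℕ → Bool) :
    ∀ (st : List (ℕ × ℕ × ℕ)) (A B U : ℕ), 1 ≤ A → runPlan D fin st A B U = true →
    ∀ (δ z : ℕ) (u : ℝ), A ≤ z → z ≤ B → Cn δ z u → u ≤ U / D →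
    ∃ (T U' : ℕ) (u' : ℝ), fin (A + T) (B + T) U' = true ∧ Cn δ (z + T) u' ∧ u' ≤ U' / D := by
  intro st
  induction st with
  | nil =>
    intro A B U _ h δ z u _ _ hu huU
    exact ⟨0, U, u, h, hu, huU⟩
  | cons s t ih =>
    obtain ⟨k, p, M⟩ := s
    intro A B U hA h δ z u hz hzB hu huU
    rw [runPlan, Bool.and_eq_true] at h
    obtain ⟨h1, h2⟩ := h
    obtain ⟨u1, hu1, hu1U⟩ := stage_sound hD hA h1 hz hzB hu huU
    obtain ⟨T, U', u', h3, h4, h5⟩ := ih _ _ _ (by omega) h2 δ _ u1 (by omega) (by omega) hu1 hu1U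
    refine ⟨M * (2 ^ k * p) + T, U', u', ?_, ?_, h5⟩
    · rw [← Nat.add_assoc, ← Nat.add_assoc]
      exact h3
    · rw [← Nat.add_assoc]
      exact h4

/-- stages of several blocks, block by block -/
def rep : List (ℕ × ℕ × ℕ) → List (ℕ × ℕ × ℕ)
  | [] => []
  | (k, p, M) :: t => List.replicate M (k, p, 1) ++ rep t

/-- a plan: start positions `[A₀, B₀]`, `D = 2 ^ d`, `r ≤ 100 √A₀`, the stages, end positions
`[A₁, B₁]`, certificate `a, e` -/
structure PlanD where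
  A0 : ℕ
  B0 : ℕ
  d : ℕ
  r : ℕ
  st : List (ℕ × ℕ × ℕ)
  A1 : ℕ
  B1 : ℕ
  a : ℕ
  e : ℕ

/-- the check of the end of a plan -/
def finOk (D A1 B1 a e : ℕ) (A B U : ℕ) : Bool :=
  Nat.beq A A1 && (Nat.beq B B1 && chkTgt U D B1 a e)

/-- the check of a plan -/
def PlanD.ok (P : PlanD) : Bool :=
  Nat.ble (P.r * P.r) (10000 * P.A0) && (Nat.ble 101 P.r && (Nat.ble (P.B1 + 6) (3 * P.A0) &&
    runPlan (2 ^ P.d) (finOk (2 ^ P.d) P.A1 P.B1 P.a P.e) P.st P.A0 P.B0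
      (2 ^ P.d * 100 / (P.r - 50) + 1)))

theorem PlanD.sound (P : PlanD) (h : P.ok = true) {n δ : ℕ} (hA : P.A1 ≤ n) (hB : n ≤ P.B1)
    (hδ : 1 ≤ δ) (h3 : 3 * δ ≤ n) : ∃ u, Cn δ n u ∧ u ≤ tgt n := by
  unfold PlanD.ok at h
  rw [Bool.and_eq_true, Bool.and_eq_true, Bool.and_eq_true, Nat.ble_eq, Nat.ble_eq,
    Nat.ble_eq] at h
  obtain ⟨h1, h2, hB6, hrun⟩ := h
  have hD : 0 < 2 ^ P.d := by positivity
  have hDR : (0 : ℝ) < ((2 ^ P.d : ℕ) : ℝ) := by exact_mod_cast hD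
  -- the total length
  obtain ⟨T0, hT0⟩ : ∃ T0, P.A0 + T0 = P.A1 ∧ P.B0 + T0 = P.B1 := by
    have key : ∀ (st : List (ℕ × ℕ × ℕ)) (A B U : ℕ),
        runPlan (2 ^ P.d) (finOk (2 ^ P.d) P.A1 P.B1 P.a P.e) st A B U = true →
        ∃ T0, A + T0 = P.A1 ∧ B + T0 = P.B1 := by
      intro st
      induction st with
      | nil =>
        intro A B U h
        rw [runPlan, finOk, Bool.and_eq_true, Bool.and_eq_true, Nat.beq_eq, Nat.beq_eq] at h
        exact ⟨0, h.1, h.2.1⟩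
      | cons s t ih =>
        obtain ⟨k, p, M⟩ := s
        intro A B U h
        rw [runPlan, Bool.and_eq_true] at h
        obtain ⟨T0, h5, h6⟩ := ih _ _ _ h.2
        exact ⟨M * (2 ^ k * p) + T0, by omega, by omega⟩
    exact key _ _ _ _ hrun
  obtain ⟨hT1, hT2⟩ := hT0
  obtain ⟨z, hz⟩ : ∃ z, z = n - T0 := ⟨_, rfl⟩
  have hzn : z + T0 = n := by omega
  have hzA : P.A0 ≤ z := by omega
  have hzB : z ≤ P.B0 := by omega
  have hδz : δ + 2 ≤ z := by omega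
  -- the start
  have hrR : (101 : ℝ) ≤ P.r := by exact_mod_cast h2
  obtain ⟨u0, hu0, hu0U⟩ := start (δ := δ) (z := z) hδ hδz (r := (P.r : ℝ) / 100) (by
    rw [lt_div_iff₀ (by norm_num)]
    linarith) (by
    have h4 : (P.r : ℝ) * P.r ≤ 10000 * P.A0 := by exact_mod_cast h1
    have h5 : (P.A0 : ℝ) ≤ z * δ := by
      have : P.A0 ≤ z * δ := hzA.trans (Nat.le_mul_of_pos_right _ hδ)
      exact_mod_cast this
    have h6 : ((P.r : ℝ) / 100) ^ 2 = P.r * P.r / 10000 := by ring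
    rw [h6]
    linarith)
  have hU0 : u0 ≤ ((2 ^ P.d * 100 / (P.r - 50) + 1 : ℕ) : ℝ) / ((2 ^ P.d : ℕ) : ℝ) := by
    refine hu0U.trans ?_
    rw [le_div_iff₀ hDR]
    have h4 := lt_div_add_one (a := 2 ^ P.d * 100) (b := P.r - 50) (by omega)
    have h5 : ((P.r - 50 : ℕ) : ℝ) = P.r - 50 := by
      rw [Nat.cast_sub (by omega)]
      norm_num
    rw [h5] at h4
    push_cast at h4 ⊢
    calc 1 / ((P.r : ℝ) / 100 - 1 / 2) * 2 ^ P.d = 2 ^ P.d * 100 / (P.r - 50) := by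
          have h6 : (P.r : ℝ) / 100 - 1 / 2 = (P.r - 50) / 100 := by ring
          have h7 : (P.r : ℝ) - 50 ≠ 0 := by
            intro h8
            linarith
          rw [h6]
          field_simp
      _ ≤ _ := h4.le
  obtain ⟨T, U', u', hf, hu', hu'U⟩ := run_sound hD _ P.st P.A0 P.B0 _ (by omega) hrun δ z u0 hzA
    hzB hu0 hU0
  rw [finOk, Bool.and_eq_true, Bool.and_eq_true, Nat.beq_eq, Nat.beq_eq] at hf
  obtain ⟨hf1, hf2, hf3⟩ := hf
  have hTT : T = T0 := by omega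
  subst hTT
  rw [hzn] at hu'
  exact ⟨u', hu', hu'U.trans (le_tgt_of_chk hf3 hD (by omega) hB)⟩

/-- consecutive plans -/
def chkPlans : List PlanD → ℕ → ℕ → Bool
  | [], n0, n1 => Nat.ble n1 n0
  | P :: t, n0, n1 => P.ok && (Nat.ble P.A1 n0 && chkPlans t (P.B1 + 1) n1)

theorem chkPlans_sound : ∀ (l : List PlanD) (n0 n1 : ℕ), chkPlans l n0 n1 = true →
    ∀ n δ : ℕ, n0 ≤ n → n < n1 → 1 ≤ δ → 3 * δ ≤ n → ∃ u, Cn δ n u ∧ u ≤ tgt n := by
  intro l
  induction l with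
  | nil =>
    intro n0 n1 h n δ h0 h1
    rw [chkPlans, Nat.ble_eq] at h
    omega
  | cons P t ih =>
    intro n0 n1 h n δ h0 h1 hδ h3
    rw [chkPlans, Bool.and_eq_true, Bool.and_eq_true, Nat.ble_eq] at h
    obtain ⟨hP, hA, ht⟩ := h
    rcases le_or_gt n P.B1 with h4 | h4
    · exact P.sound hP (hA.trans h0) h4 hδ h3
    · exact ih _ _ ht n δ h4 h1 hδ h3

end Pool.Agent.Lib.MP_ed661f_ag.Z
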