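import Pool.Agent.Lib.MP_ed661f_ag.Z.Defs

/-! The elementary moves and the start of the explicit chains. -/

set_option autoImplicit false

namespace Pool.Agent.Lib.MP_ed661f_ag.Z

/-- one run of length `p` -/
theorem Cn.run {δ z : ℕ} {u : ℝ} (h : Cn δ z u) (hz : 1 ≤ z) {p : ℕ} (hp : 1 ≤ p) :
    Cn δ (z + p) |u - Real.log (((z : ℝ) + p) / z)| := by
  obtain ⟨hu, σ, x, hr, hσ, hx, hx2⟩ := h
  have hzR : (1 : ℝ) ≤ z := by exact_mod_cast hz
  have hpR : (1 : ℝ) ≤ p := by exact_mod_cast hp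
  have hq : (0 : ℝ) < ((z : ℝ) + p) / z := by positivity
  refine ⟨abs_nonneg _, ?_⟩
  rcases le_or_gt (Real.log (((z : ℝ) + p) / z)) u with h1 | h1
  · refine ⟨σ, x, hr, by omega, hx, ?_⟩
    rw [abs_of_nonneg (by linarith), Real.exp_sub, Real.exp_log hq, hx2]
    push_cast
    field_simp
  · refine ⟨z + p, ((z + p : ℕ) : ℝ) / x, RchS.step (z + p) hr (by omega) ?_, le_rfl,
      by positivity, ?_⟩
    · rw [hx2]
      have h2 : Real.exp u < ((z : ℝ) + p) / z := by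
        rw [← Real.exp_log hq]
        exact Real.exp_lt_exp.2 h1
      rw [lt_div_iff₀ (by linarith)] at h2
      push_cast
      linarith
    · rw [abs_of_neg (by linarith), neg_sub, Real.exp_sub, Real.exp_log hq, div_pow, hx2]
      have := Real.exp_pos u
      push_cast
      field_simp

/-- the start -/
theorem start {δ z : ℕ} (hδ : 1 ≤ δ) (hz : δ + 2 ≤ z) {r : ℝ} (hr : 1 < r)
    (hrz : r ^ 2 ≤ (z : ℝ) * δ) : ∃ u : ℝ, Cn δ z u ∧ u ≤ 1 / (r - 1 / 2) := by
  have hδR : (1 : ℝ) ≤ δ := by exact_mod_cast hδ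
  have hzR : (δ : ℝ) + 2 ≤ z := by exact_mod_cast hz
  have hz0 : (0 : ℝ) < z := by linarith
  have hδ0 : (0 : ℝ) < δ := by linarith
  obtain ⟨s, hs⟩ : ∃ s, s = √((z : ℝ) * δ) := ⟨_, rfl⟩
  have hs2 : s ^ 2 = z * δ := by
    rw [hs, Real.sq_sqrt (by positivity)]
  have hs0 : 0 < s := by
    rw [hs]
    exact Real.sqrt_pos.2 (by positivity)
  have hrs : r ≤ s := by
    rw [hs]
    exact Real.le_sqrt_of_sq_le hrz
  have hsδ : (δ : ℝ) + 1 / 2 < s := by
    by_contra hcon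
    nlinarith [not_lt.1 hcon]
  have hsz : s ≤ z - 1 := by
    by_contra hcon
    nlinarith [not_le.1 hcon]
  -- the nearest integer
  obtain ⟨ρ, hρ⟩ : ∃ ρ : ℕ, ρ = ⌊s + 1 / 2⌋₊ := ⟨_, rfl⟩
  have hρ1 : (ρ : ℝ) ≤ s + 1 / 2 := by
    rw [hρ]
    exact Nat.floor_le (by linarith)
  have hρ2 : s - 1 / 2 < ρ := by
    have := Nat.lt_floor_add_one (s + 1 / 2)
    rw [← hρ] at this
    linarith
  have hρδ : δ < ρ := by
    have : (δ : ℝ) < ρ := by linarith
    exact_mod_cast this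
  have hρz : ρ < z := by
    have : (ρ : ℝ) < z := by linarith
    exact_mod_cast this
  have hρ0 : (0 : ℝ) < ρ := by linarith
  have hsq : 0 < √(δ : ℝ) := Real.sqrt_pos.2 hδ0
  have hxx : ((ρ : ℝ) / √δ) ^ 2 = ρ ^ 2 / δ := by
    rw [div_pow, Real.sq_sqrt hδ0.le]
  have hr2 : 0 < r - 1 / 2 := by linarith
  rcases le_or_gt ((z : ℝ) * δ) ((ρ : ℝ) ^ 2) with h1 | h1
  · refine ⟨Real.log ((ρ : ℝ) ^ 2 / (z * δ)), ⟨Real.log_nonneg ?_, ρ, ρ / √δ,
      RchS.start ρ hρδ, hρz.le, by positivity, ?_⟩, ?_⟩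
    · rw [le_div_iff₀ (by positivity)]
      linarith
    · rw [hxx, Real.exp_log (by positivity)]
      field_simp
    · rw [← hs2, ← div_pow, Real.log_pow]
      have h2 : Real.log (ρ / s) ≤ ρ / s - 1 := Real.log_le_sub_one_of_pos (by positivity)
      have h3 : (ρ : ℝ) / s - 1 ≤ 1 / 2 / s := by
        rw [div_sub_one hs0.ne', div_le_div_iff_of_pos_right hs0]
        linarith
      have h4 : 1 / 2 / s ≤ 1 / 2 / (r - 1 / 2) := by
        apply div_le_div_of_nonneg_left (by norm_num) hr2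
        linarith
      have h5 : 1 / (r - 1 / 2) = 2 * (1 / 2 / (r - 1 / 2)) := by ring
      push_cast
      rw [h5]
      linarith
  · refine ⟨Real.log ((z : ℝ) * δ / ρ ^ 2), ⟨Real.log_nonneg ?_, z, z / (ρ / √δ),
      RchS.step z (RchS.start ρ hρδ) hρz ?_, le_rfl, by positivity, ?_⟩, ?_⟩
    · rw [le_div_iff₀ (by positivity)]
      linarith
    · rw [hxx, div_lt_iff₀ hδ0]
      exact h1
    · rw [div_pow, hxx, Real.exp_log (by positivity)]
      field_simp
    · rw [← hs2, ← div_pow, Real.log_pow]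
      have h2 : Real.log (s / ρ) ≤ s / ρ - 1 := Real.log_le_sub_one_of_pos (by positivity)
      have h3 : s / (ρ : ℝ) - 1 ≤ 1 / 2 / ρ := by
        rw [div_sub_one hρ0.ne', div_le_div_iff_of_pos_right hρ0]
        linarith
      have h4 : 1 / 2 / (ρ : ℝ) ≤ 1 / 2 / (r - 1 / 2) := by
        apply div_le_div_of_nonneg_left (by norm_num) hr2
        linarith
      have h5 : 1 / (r - 1 / 2) = 2 * (1 / 2 / (r - 1 / 2)) := by ring
      push_cast
      rw [h5]
      linarith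

end Pool.Agent.Lib.MP_ed661f_ag.Z
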